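import Pool.Agent.helper71.SN.Defs2

/-! SN-J1 -/

noncomputable section

namespace SN

open KBR Set Filter Topology
open scoped ContDiff RealInnerProductSpace

variable {n : ℕ}

/-- SN-J1 (b): first derivative of a function along a geodesic -/
theorem hess_along1 {L f : E n → ℝ} (hf : ContDiff ℝ 2 f) {T : ℝ} {c v : ℝ → E n}
    (hg : CGeod L T c v) : ∀ t ∈ Icc 0 T,
    HasDerivWithinAt (fun s => f (c s)) (fderiv ℝ f (c t) (v t)) (Icc 0 T) t := by
  intro t ht
  have h1 : HasFDerivAt f (fderiv ℝ f (c t)) (c t) :=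
    ((hf.differentiable (by norm_num)) (c t)).hasFDerivAt
  exact h1.comp_hasDerivWithinAt t (hg.vel t ht)

/-- SN-J1 (c): second derivative of a function along a geodesic -/
theorem hess_along2 {L f : E n → ℝ} (hf : ContDiff ℝ 2 f) {T : ℝ} {c v : ℝ → E n}
    (hg : CGeod L T c v) : ∀ t ∈ Icc 0 T,
    HasDerivWithinAt (fun s => fderiv ℝ f (c s) (v s)) (hess L f (c t) (v t)) (Icc 0 T) t := by
  intro t ht
  have h1 : ContDiff ℝ 1 (fderiv ℝ f) := hf.fderiv_right (by norm_num)
  have h2 : HasFDerivAt (fderiv ℝ f) (fderiv ℝ (fderiv ℝ f) (c t)) (c t) :=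
    ((h1.differentiable (by norm_num)) (c t)).hasFDerivAt
  have h3 := (h2.comp_hasDerivWithinAt t (hg.vel t ht)).clm_apply (hg.acc t ht)
  exact h3

/-- SN-J1 (a): conservation of the speed -/
theorem speed_const {L : E n → ℝ} (hL : ContDiff ℝ ∞ L) {T : ℝ} {c v : ℝ → E n}
    (hg : CGeod L T c v) : ∀ t ∈ Icc 0 T,
    Real.exp (2 * L (c t)) * ‖v t‖ ^ 2 = Real.exp (2 * L (c 0)) * ‖v 0‖ ^ 2 := by
  have hL2 : ContDiff ℝ 2 L := hL.of_le (by norm_cast)
  have hder : ∀ t ∈ Icc 0 T,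
      HasDerivWithinAt (fun s => Real.exp (2 * L (c s)) * ‖v s‖ ^ 2) 0 (Icc 0 T) t := by
    intro t ht
    have h1 := ((hess_along1 hL2 hg t ht).const_mul 2).exp
    have h2 := (hg.acc t ht).norm_sq
    have h3 := h1.mul h2
    have h4 : ⟪v t, gacc L (c t) (v t)⟫ = -(fderiv ℝ L (c t) (v t)) * ‖v t‖ ^ 2 := by
      have h5 : ⟪v t, gradient L (c t)⟫ = fderiv ℝ L (c t) (v t) := by
        rw [real_inner_comm, gradient, InnerProductSpace.toDual_symm_apply]
      rw [gacc, inner_add_right, inner_smul_right, inner_smul_right, h5,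
        real_inner_self_eq_norm_sq]
      ring
    refine h3.congr_deriv ?_
    rw [h4]
    ring
  have := constant_of_derivWithin_zero (f := fun s => Real.exp (2 * L (c s)) * ‖v s‖ ^ 2)
    (a := 0) (b := T) (fun t ht => (hder t ht).differentiableWithinAt) (by
      intro t ht
      by_cases h : (0:ℝ) < T
      · exact (hder t ⟨ht.1, ht.2.le⟩).derivWithin (uniqueDiffOn_Icc h t ⟨ht.1, ht.2.le⟩)
      · exact absurd (lt_of_le_of_lt ht.1 ht.2) h)
  exact this

end SN
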