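import Pool.Agent.helper71.SN.Defs

/-! SN-O4 -/

noncomputable section

namespace SN

open KBR Set Filter Topology
open scoped ContDiff RealInnerProductSpace

variable {n : ℕ}

theorem O4_anti {a b : ℝ} {f f' : ℝ → ℝ} (h : ∀ t ∈ Icc a b, HasDerivWithinAt f (f' t) (Icc a b) t)
    (hle : ∀ t ∈ Ioo a b, f' t ≤ 0) (hab : a ≤ b) : f b ≤ f a := by
  have h1 : AntitoneOn f (Icc a b) := by
    refine antitoneOn_of_deriv_nonpos (convex_Icc a b) (fun t ht => (h t ht).continuousWithinAt) ?_ ?_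
    · intro t ht
      rw [interior_Icc] at ht
      exact ((h t (Ioo_subset_Icc_self ht)).hasDerivAt (Icc_mem_nhds ht.1 ht.2)).differentiableAt.differentiableWithinAt
    · intro t ht
      rw [interior_Icc] at ht
      rw [((h t (Ioo_subset_Icc_self ht)).hasDerivAt (Icc_mem_nhds ht.1 ht.2)).deriv]
      exact hle t ht
  exact h1 (left_mem_Icc.2 hab) (right_mem_Icc.2 hab) hab

theorem O4_one {t η : ℝ} {u u' u'' : ℝ → ℝ} (ht0 : 0 ≤ t) (htpi : t ≤ Real.pi)
    (h1 : ∀ s ∈ Icc 0 t, HasDerivWithinAt u (u' s) (Icc 0 t) s)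
    (h2 : ∀ s ∈ Icc 0 t, HasDerivWithinAt u' (u'' s) (Icc 0 t) s)
    (hη : ∀ s ∈ Icc 0 t, u'' s + u s ≤ η) :
    u t - (u 0 * Real.cos t + u' 0 * Real.sin t) ≤ η * (1 - Real.cos t) := by
  have key := O4_anti (a := 0) (b := t)
    (f := fun s => Real.sin (t - s) * u' s + Real.cos (t - s) * u s - η * Real.cos (t - s))
    (f' := fun s => Real.sin (t - s) * (u'' s + u s - η)) ?_ ?_ ht0
  · simp only [sub_self, Real.sin_zero, Real.cos_zero, sub_zero] at key
    nlinarith [key]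
  · intro s hs
    have hs1 : HasDerivWithinAt (fun s => t - s) (-1) (Icc 0 t) s := by
      simpa using ((hasDerivAt_id s).const_sub t).hasDerivWithinAt
    have hsin := (Real.hasDerivAt_sin (t - s)).comp_hasDerivWithinAt s hs1
    have hcos := (Real.hasDerivAt_cos (t - s)).comp_hasDerivWithinAt s hs1
    have h3 := ((hsin.mul (h2 s hs)).add (hcos.mul (h1 s hs))).sub (hcos.const_mul η)
    refine h3.congr_deriv ?_
    simp only [Function.comp_apply]
    ring
  · intro s hs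
    have hsn : 0 ≤ Real.sin (t - s) :=
      Real.sin_nonneg_of_nonneg_of_le_pi (by linarith [hs.2]) (by linarith [hs.1])
    have := hη s (Ioo_subset_Icc_self hs)
    exact mul_nonpos_of_nonneg_of_nonpos hsn (by linarith)

/-- SN-O4 -/
theorem od_close {T η : ℝ} {u u' u'' : ℝ → ℝ} (hT : T ≤ Real.pi)
    (h1 : ∀ t ∈ Icc 0 T, HasDerivWithinAt u (u' t) (Icc 0 T) t)
    (h2 : ∀ t ∈ Icc 0 T, HasDerivWithinAt u' (u'' t) (Icc 0 T) t)
    (hη : ∀ t ∈ Icc 0 T, |u'' t + u t| ≤ η) :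
    ∀ t ∈ Icc 0 T, |u t - (u 0 * Real.cos t + u' 0 * Real.sin t)| ≤ η * (1 - Real.cos t) := by
  intro t ht
  have hsub : Icc 0 t ⊆ Icc 0 T := Icc_subset_Icc le_rfl ht.2
  have a1 : ∀ s ∈ Icc 0 t, HasDerivWithinAt u (u' s) (Icc 0 t) s :=
    fun s hs => (h1 s (hsub hs)).mono hsub
  have a2 : ∀ s ∈ Icc 0 t, HasDerivWithinAt u' (u'' s) (Icc 0 t) s :=
    fun s hs => (h2 s (hsub hs)).mono hsub
  rw [abs_le]
  constructor
  · have := O4_one (u := fun s => -u s) (u' := fun s => -u' s) (u'' := fun s => -u'' s) (η := η)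
      ht.1 (ht.2.trans hT) (fun s hs => (a1 s hs).neg) (fun s hs => (a2 s hs).neg)
      (fun s hs => by have := (abs_le.1 (hη s (hsub hs))).1; linarith)
    linarith
  · exact O4_one ht.1 (ht.2.trans hT) a1 a2 (fun s hs => (abs_le.1 (hη s (hsub hs))).2)

end SN
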