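import Pool.Agent.helper21.KBR.Defs

/-!
# Simple metrics without strictly convex functions: definitions

`KBR.E n = ℝⁿ`, `KBR.M n` is the closed unit ball and `KBR.bM n` the unit sphere.  A field of
endomorphisms `G : Fld n` represents the bilinear forms `g_x(u, v) = ⟪G x u, v⟫`.
-/

noncomputable section

namespace SN

open KBR Set
open scoped ContDiff RealInnerProductSpace

variable {n : ℕ}

/-! ## Definitions used in the statement of the theorem -/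

/-- fields of endomorphisms of `ℝⁿ` -/
abbrev Fld (n : ℕ) : Type := E n → E n →L[ℝ] E n

/-- the bilinear form field `g_x(u, v) = ⟪G x u, v⟫` -/
def gm (G : Fld n) (x u v : E n) : ℝ := ⟪G x u, v⟫

/-- its derivative in the direction `w`: `(D_w g)_x(u, v)` -/
def dgm (G : Fld n) (x w u v : E n) : ℝ := ⟪fderiv ℝ G x w u, v⟫

/-- `g_x(u, v) = ⟪G x u, v⟫` is a smooth Riemannian metric on the closed ball (smooth up to the
boundary). -/
structure IsMet (G : Fld n) : Prop where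
  smooth : ContDiff ℝ ∞ G
  symm : ∀ x ∈ M n, ∀ u v, gm G x u v = gm G x v u
  pos : ∀ x ∈ M n, ∀ v, v ≠ 0 → 0 < gm G x v v

/-- `c : [0,T] → M` is a geodesic with velocity `v`: Euler–Lagrange equation
`d/dt g(c', w) = ½ (D_w g)(c', c')` for all constant `w`. -/
structure Geod (G : Fld n) (T : ℝ) (c v : ℝ → E n) : Prop where
  mem : ∀ t ∈ Icc 0 T, c t ∈ M n
  vel : ∀ t ∈ Icc 0 T, HasDerivWithinAt c (v t) (Icc 0 T) t
  eq : ∀ t ∈ Icc 0 T, ∀ w : E n,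
    HasDerivWithinAt (fun s => gm G (c s) (v s) w) (1 / 2 * dgm G (c t) w (v t) (v t)) (Icc 0 T) t

/-- maximal domain of the exponential map at `x`: initial velocities of the geodesics
`[0,1] → M` starting at `x` -/
def expDom (G : Fld n) (x : E n) : Set (E n) :=
  {w | ∃ c v, Geod G 1 c v ∧ c 0 = x ∧ v 0 = w}

/-- `exp_x` is a diffeomorphism from its maximal domain onto `M` (`e` is the exponential map,
`l` its inverse). -/
def ExpDiffeo (G : Fld n) (x : E n) : Prop :=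
  ∃ e l : E n → E n,
    (∀ c v, Geod G 1 c v → c 0 = x → c 1 = e (v 0)) ∧
    ContDiffOn ℝ ∞ e (expDom G x) ∧ ContDiffOn ℝ ∞ l (M n) ∧
    (∀ y ∈ M n, l y ∈ expDom G x ∧ e (l y) = y) ∧ (∀ w ∈ expDom G x, l (e w) = w)

/-- `Γ` are the Christoffel symbols of the metric `g`:
`g(Γ(u, v), w) = ½ ((D_u g)(v, w) + (D_v g)(u, w) - (D_w g)(u, v))` on `M`. -/
def Christoffel (G : Fld n) (Γ : E n → E n → E n → E n) : Prop :=
  ∀ x ∈ M n, ∀ u v w, gm G x (Γ x u v) w = 1 / 2 * (dgm G x u v w + dgm G x v u w - dgm G x w u v)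

/-- the Hessian `(∇df)_x(v, v) = D²f(v, v) - df(Γ(v, v))` -/
def Hess (Γ : E n → E n → E n → E n) (f : E n → ℝ) (x v : E n) : ℝ :=
  fderiv ℝ (fderiv ℝ f) x v v - fderiv ℝ f x (Γ x v v)

/-- `∂M` is strictly convex: the Hessian of the boundary defining function `|x|²/2` is positive
definite on the tangent spaces of `∂M` (this is a positive multiple of the second fundamental
form). -/
def ConvexBd (Γ : E n → E n → E n → E n) : Prop :=
  ∀ x ∈ bM n, ∀ v, v ≠ 0 → ⟪x, v⟫ = 0 → 0 < ‖v‖ ^ 2 - ⟪x, Γ x v v⟫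

/-- `(M, g)` is simple: the boundary is strictly convex and every exponential map is a
diffeomorphism from its maximal domain onto `M`. -/
structure Simple (G : Fld n) (Γ : E n → E n → E n → E n) : Prop where
  met : IsMet G
  chr : Christoffel G Γ
  conv : ConvexBd Γ
  expd : ∀ x ∈ M n, ExpDiffeo G x

/-- `f` is a strictly convex function on `M` (`C²` in the interior, positive definite Hessian) -/
structure StrictConvexFn (Γ : E n → E n → E n → E n) (f : E n → ℝ) : Prop where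
  cont : ContinuousOn f (M n)
  smooth : ∀ x, ‖x‖ < 1 → ContDiffAt ℝ 2 f x
  pos : ∀ x, ‖x‖ < 1 → ∀ v, v ≠ 0 → 0 < Hess Γ f x v

/-- the level sets of `f` above the level `a` are strictly convex hypersurfaces (from the side of
the smaller values of `f`), and `{f ≤ a}` has empty interior: `f` foliates `M` by strictly convex
hypersurfaces, up to a set with empty interior. -/
structure ConvexFoliation (Γ : E n → E n → E n → E n) (f : E n → ℝ) (a : ℝ) : Prop where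
  cont : ContinuousOn f (M n)
  smooth : ∀ x, ‖x‖ < 1 → a < f x → ContDiffAt ℝ 2 f x
  convex : ∀ x, ‖x‖ < 1 → a < f x → ∀ v, v ≠ 0 → fderiv ℝ f x v = 0 → 0 < Hess Γ f x v
  thin : interior {x ∈ M n | f x ≤ a} = ∅

/-! ## Conformal metrics -/

/-- the metric `e^{2L}|dx|²` -/
def cG (L : E n → ℝ) : Fld n := fun x => Real.exp (2 * L x) • ContinuousLinearMap.id ℝ (E n)

/-- Christoffel symbols of `e^{2L}|dx|²` -/
def cGam (L : E n → ℝ) (x u v : E n) : E n :=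
  fderiv ℝ L x u • v + fderiv ℝ L x v • u - ⟪u, v⟫ • gradient L x

/-- acceleration of the geodesics of `e^{2L}|dx|²` -/
def gacc (L : E n → ℝ) (x v : E n) : E n :=
  -(2 * fderiv ℝ L x v) • v + (‖v‖ ^ 2) • gradient L x

/-- second derivative of `f` along the geodesic of `e^{2L}|dx|²` with velocity `v` -/
def hess (L f : E n → ℝ) (x v : E n) : ℝ :=
  fderiv ℝ (fderiv ℝ f) x v v + fderiv ℝ f x (gacc L x v)

/-- sectional curvature of `e^{2L}|dx|²` in the plane of two orthogonal vectors `v`, `w` -/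
def sec (L : E n → ℝ) (x v w : E n) : ℝ :=
  -Real.exp (-(2 * L x)) * (fderiv ℝ (fderiv ℝ L) x v v / ‖v‖ ^ 2 +
    fderiv ℝ (fderiv ℝ L) x w w / ‖w‖ ^ 2 + ‖gradient L x‖ ^ 2
    - (fderiv ℝ L x v) ^ 2 / ‖v‖ ^ 2 - (fderiv ℝ L x w) ^ 2 / ‖w‖ ^ 2)

/-- geodesics `[0,T] → M` of `e^{2L}|dx|²` -/
structure CGeod (L : E n → ℝ) (T : ℝ) (c v : ℝ → E n) : Prop where
  mem : ∀ t ∈ Icc 0 T, c t ∈ M n
  vel : ∀ t ∈ Icc 0 T, HasDerivWithinAt c (v t) (Icc 0 T) t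
  acc : ∀ t ∈ Icc 0 T, HasDerivWithinAt v (gacc L (c t) (v t)) (Icc 0 T) t

/-- unit speed geodesics `[0,T] → M` of `e^{2L}|dx|²` -/
structure UGeod (L : E n → ℝ) (T : ℝ) (c v : ℝ → E n) : Prop extends CGeod L T c v where
  unit : ∀ t ∈ Icc 0 T, Real.exp (2 * L (c t)) * ‖v t‖ ^ 2 = 1

/-- linearisation of `gacc` at `(x, v)` in the direction `(j, w)` -/
def jacc (L : E n → ℝ) (x v j w : E n) : E n :=
  fderiv ℝ (fun p : E n × E n => gacc L p.1 p.2) (x, v) (j, w)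

/-- `J` (with derivative `W`) is a Jacobi field along the geodesic `c` (linearised geodesic
equation) -/
structure Jac (L : E n → ℝ) (T : ℝ) (c v J W : ℝ → E n) : Prop where
  d1 : ∀ t ∈ Icc 0 T, HasDerivWithinAt J (W t) (Icc 0 T) t
  d2 : ∀ t ∈ Icc 0 T, HasDerivWithinAt W (jacc L (c t) (v t) (J t) (W t)) (Icc 0 T) t

/-! ## The round hemisphere in stereographic coordinates -/

/-- `1 / (1 + κ|x|²)` -/
def pp (κ : ℝ) (x : E n) : ℝ := (1 + κ * ‖x‖ ^ 2)⁻¹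

/-- height above the equator: `(1 - κ|x|²) / (1 + κ|x|²)` -/
def zz (κ : ℝ) (x : E n) : ℝ := 2 * pp κ x - 1

/-- the other coordinates in `ℝⁿ⁺¹ = ℝⁿ × ℝ` -/
def XX (κ : ℝ) (x : E n) : E n := (2 * Real.sqrt κ * pp κ x) • x

/-- the round metric is `e^{2 LR}|dx|²` -/
def LR (κ : ℝ) (x : E n) : ℝ := Real.log (2 * Real.sqrt κ * pp κ x)

/-- our metric is `e^{2 LL}|dx|²` -/
def LL (κ : ℝ) (μ Q : ℝ → ℝ) (ψ : E n → ℝ) (x : E n) : ℝ :=
  LR κ x + (μ (zz κ x) - ψ (XX κ x) * Q (zz κ x))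

/-! ## The net -/

/-- the cone over the edges of the cube: all coordinates but one have the same absolute value, and
the remaining one is at most this absolute value -/
def NN (n : ℕ) : Set (E n) := {x | ∃ i : Fin n, ∃ m : ℝ, |x i| ≤ m ∧ ∀ j, j ≠ i → |x j| = m}

/-- the function whose mean over great semicircles is bounded below -/
def chi (ψ : E n → ℝ) (p : E n × ℝ) : ℝ := 1 - ψ p.1 * (1 - p.2 ^ 2 / 4)

/-- `(a, b)` is an orthonormal pair in `ℝⁿ × ℝ` -/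
structure ON (a b : E n × ℝ) : Prop where
  aa : ‖a.1‖ ^ 2 + a.2 ^ 2 = 1
  bb : ‖b.1‖ ^ 2 + b.2 ^ 2 = 1
  ab : ⟪a.1, b.1⟫ + a.2 * b.2 = 0

/-- point of the great circle through `a`, `b` -/
def circ (a b : E n × ℝ) (t : ℝ) : E n × ℝ := Real.cos t • a + Real.sin t • b

/-! ## Radial profile -/

/-- profile functions `μ`, `Q` -/
structure Prof (τ B ε zb zn : ℝ) (μ μ₁ μ₂ Q Q₁ Q₂ : ℝ → ℝ) : Prop where
  smoothμ : ContDiff ℝ ∞ μ
  smoothQ : ContDiff ℝ ∞ Q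
  dμ : ∀ z, HasDerivAt μ (μ₁ z) z
  dμ₁ : ∀ z, HasDerivAt μ₁ (μ₂ z) z
  dQ : ∀ z, HasDerivAt Q (Q₁ z) z
  dQ₁ : ∀ z, HasDerivAt Q₁ (Q₂ z) z
  ε_pos : 0 < ε
  ε_le : ε ≤ τ
  zb_pos : 0 < zb
  zb_ge : ε * (1 - τ) ≤ zb
  zb_lt : zb < zn
  zn_lt : zn < 1 / 4
  bμ : ∀ z ∈ Icc zb 1, |μ z| ≤ ε * τ
  bμ₁ : ∀ z ∈ Icc zb 1, |μ₁ z| ≤ ε * τ
  bμ₂ : ∀ z ∈ Icc zb 1, -(ε * τ) ≤ μ₂ z
  bQ0 : ∀ z ∈ Icc zb 1, 0 ≤ Q z
  bQ : ∀ z ∈ Icc zb 1, Q z ≤ ε * τ
  bQ₁ : ∀ z ∈ Icc zb 1, z * |Q₁ z| ≤ ε * τ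
  bQ₂ : ∀ z ∈ Icc zb 1, |Q₂ z| ≤ τ
  bQ₁₂ : ∀ z ∈ Icc zb 1, |Q₁ z| + z * |Q₂ z| ≤ ε * (1 - z ^ 2 / 4) + ε * τ
  net : zn = (1 - zn ^ 2) * (μ₁ zn - Q₁ zn)
  bd : B * Q zb < zb - (1 - zb ^ 2) * (μ₁ zb - Q₁ zb)
  bd₁ : Q₁ zb ≤ 0
  zero : ∀ z, 1 / 2 ≤ z → μ z = 0 ∧ Q z = 0

end SN
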