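import Pool.Agent.helper71.SN.Defs

/-! Further definitions (not used in the statement of the theorem) -/

noncomputable section

namespace SN

open KBR Set Filter Topology
open scoped ContDiff RealInnerProductSpace

variable {n : ℕ}

/-- the angular function `ψ` -/
structure Psi (ψ : E n → ℝ) (B : ℝ) : Prop where
  smooth : ContDiff ℝ ∞ ψ
  nonneg : ∀ x, 0 ≤ ψ x
  le_one : ∀ x, ψ x ≤ 1
  one_iff : ∀ x, ψ x = 1 ↔ x ∈ NN n
  one_le : 1 ≤ B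
  b1 : ∀ x, ‖x‖ ≤ 1 → ‖fderiv ℝ ψ x‖ ≤ B
  b2 : ∀ x, ‖x‖ ≤ 1 → ‖fderiv ℝ (fderiv ℝ ψ) x‖ ≤ B

/-- what is used about the metric `e^{2L}|dx|²` in the obstruction to convex foliations -/
structure NetL (L : E n → ℝ) (κ r ρ : ℝ) : Prop where
  smooth : ContDiff ℝ ∞ L
  grad : ∀ x ∈ NN n, ‖x‖ ≤ 1 → ∃ l : ℝ, gradient L x = l • x
  r_pos : 0 < r
  r_lt : r < 1
  geo : ∀ x ∈ NN n, ‖x‖ = r → gradient L x = -(1 / r ^ 2) • x
  κ_pos : 0 < κ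
  κ_le : κ ≤ 1
  ρ_pos : 0 < ρ
  ρ_lt : ρ ≤ r
  round : ∀ x, ‖x‖ < ρ → L x = LR κ x

/-- quasi-convexity of `f` above the level `a`, in the interior of `M` -/
structure QC (L f : E n → ℝ) (a : ℝ) : Prop where
  cont : ContinuousOn f (M n)
  smooth : ∀ x, ‖x‖ < 1 → a < f x → ContDiffAt ℝ 2 f x
  convex : ∀ x, ‖x‖ < 1 → a < f x → ∀ v, v ≠ 0 → fderiv ℝ f x v = 0 → 0 < hess L f x v

/-- what is proved about the metric `e^{2L}|dx|²` -/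
structure Good (L : E n → ℝ) : Prop where
  smooth : ContDiff ℝ ∞ L
  conv : ∀ x, ‖x‖ = 1 → 0 < 1 + fderiv ℝ L x x
  len : ∀ T c v, UGeod L T c v → T < Real.pi
  conj : ∀ T c v J W, 0 < T → UGeod L T c v → Jac L T c v J W → J 0 = 0 → J T = 0 →
    ∀ t ∈ Icc 0 T, J t = 0
  loop : ∀ T c v, 0 < T → UGeod L T c v → c T ≠ c 0

end SN
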