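import Pool.Agent.helper71.SN.Defs

/-! SN-E1 -/

noncomputable section

namespace SN

open KBR Set Filter Topology
open scoped ContDiff RealInnerProductSpace

variable {n : ℕ}

/-- SN-E1: a local homeomorphism from a compact set to a connected set is bijective if one point
has exactly one preimage -/
theorem bij_of_local {V W : Type} [MetricSpace V] [MetricSpace W] {D : Set V} {Y : Set W}
    {e : V → W} (hD : IsCompact D) (hY : IsPreconnected Y) (he : ContinuousOn e D)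
    (hmap : MapsTo e D Y) (hinj : ∀ w ∈ D, ∃ U ∈ 𝓝 w, InjOn e (U ∩ D))
    (hsurj : ∀ w ∈ D, ∀ U ∈ 𝓝 w, e '' (U ∩ D) ∈ 𝓝[Y] (e w))
    (w₀ : V) (hw₀ : w₀ ∈ D) (huniq : ∀ w ∈ D, e w = e w₀ → w = w₀) :
    BijOn e D Y := by
  have : PreconnectedSpace Y := Subtype.preconnectedSpace hY
  let S : Set Y := {y | ∃! w, w ∈ D ∧ e w = y}
  have hcl : ∀ K : Set V, IsClosed K → IsClosed (e '' (D ∩ K)) := fun K hK =>
    ((hD.inter_right hK).image_of_continuousOn (he.mono inter_subset_left)).isClosed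
  have hopen : IsOpen S := by
    rw [isOpen_iff_mem_nhds]
    rintro y ⟨w, ⟨hwD, hwy⟩, huq⟩
    obtain ⟨U', hU', hinjU⟩ := hinj w hwD
    obtain ⟨U, hUU', hUo, hwU⟩ := mem_nhds_iff.1 hU'
    have h1 : (fun y : Y => (y : W)) ⁻¹' (e '' (univ ∩ D)) ∈ 𝓝 y := by
      rw [preimage_coe_mem_nhds_subtype, ← hwy]
      exact hsurj w hwD univ univ_mem
    have h2 : (fun y : Y => (y : W)) ⁻¹' (e '' (D ∩ Uᶜ))ᶜ ∈ 𝓝 y := by
      have ho : IsOpen ((e '' (D ∩ Uᶜ))ᶜ) := (hcl _ hUo.isClosed_compl).isOpen_compl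
      refine (ho.preimage continuous_subtype_val).mem_nhds ?_
      rintro ⟨w', ⟨hw'D, hw'U⟩, hw'y⟩
      exact hw'U (huq w' ⟨hw'D, hw'y⟩ ▸ hwU)
    filter_upwards [h1, h2] with z hz1 hz2
    obtain ⟨v, ⟨-, hvD⟩, hvz⟩ := hz1
    have key : ∀ v', v' ∈ D → e v' = z → v' ∈ U := fun v' hv'D hv'z => by
      by_contra hcon
      exact hz2 ⟨v', ⟨hv'D, hcon⟩, hv'z⟩
    refine ⟨v, ⟨hvD, hvz⟩, ?_⟩
    rintro v' ⟨hv'D, hv'z⟩
    exact hinjU ⟨hUU' (key v' hv'D hv'z), hv'D⟩ ⟨hUU' (key v hvD hvz), hvD⟩ (hv'z.trans hvz.symm)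
  have hclosed : IsClosed S := by
    rw [← isOpen_compl_iff, isOpen_iff_mem_nhds]
    intro y hy
    by_cases hex : ∃ w, w ∈ D ∧ e w = y
    · obtain ⟨w, hwD, hwy⟩ := hex
      have hex2 : ∃ w', w' ∈ D ∧ e w' = y ∧ w' ≠ w := by
        by_contra hcon
        push Not at hcon
        exact hy ⟨w, ⟨hwD, hwy⟩, fun w' hw' => hcon w' hw'.1 hw'.2⟩
      obtain ⟨w', hw'D, hw'y, hne⟩ := hex2
      obtain ⟨U, U', hUo, hU'o, hwU, hw'U', hdis⟩ := t2_separation hne.symm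
      have h1 : (fun y : Y => (y : W)) ⁻¹' (e '' (U ∩ D)) ∈ 𝓝 y := by
        rw [preimage_coe_mem_nhds_subtype, ← hwy]
        exact hsurj w hwD U (hUo.mem_nhds hwU)
      have h2 : (fun y : Y => (y : W)) ⁻¹' (e '' (U' ∩ D)) ∈ 𝓝 y := by
        rw [preimage_coe_mem_nhds_subtype, ← hw'y]
        exact hsurj w' hw'D U' (hU'o.mem_nhds hw'U')
      filter_upwards [h1, h2] with z hz1 hz2
      rintro ⟨v, -, hvu⟩
      obtain ⟨a, ⟨haU, haD⟩, haz⟩ := hz1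
      obtain ⟨b, ⟨hbU, hbD⟩, hbz⟩ := hz2
      have hab : a = b := (hvu a ⟨haD, haz⟩).trans (hvu b ⟨hbD, hbz⟩).symm
      exact Set.disjoint_left.1 hdis haU (hab ▸ hbU)
    · have ho : IsOpen ((e '' (D ∩ univ))ᶜ) := (hcl _ isClosed_univ).isOpen_compl
      have h1 : (fun y : Y => (y : W)) ⁻¹' (e '' (D ∩ univ))ᶜ ∈ 𝓝 y := by
        refine (ho.preimage continuous_subtype_val).mem_nhds ?_
        rintro ⟨w', ⟨hw'D, -⟩, hw'y⟩
        exact hex ⟨w', hw'D, hw'y⟩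
      filter_upwards [h1] with z hz
      rintro ⟨v, ⟨hvD, hvz⟩, -⟩
      exact hz ⟨v, ⟨hvD, mem_univ v⟩, hvz⟩
  have hne : S.Nonempty := ⟨⟨e w₀, hmap hw₀⟩, w₀, ⟨hw₀, rfl⟩, fun w hw => huniq w hw.1 hw.2⟩
  have hall : S = univ := IsClopen.eq_univ ⟨hclosed, hopen⟩ hne
  have hS : ∀ y : Y, ∃! w, w ∈ D ∧ e w = y := fun y => by
    have : y ∈ S := by rw [hall]; exact mem_univ y
    exact this
  refine ⟨hmap, ?_, ?_⟩
  · intro a ha b hb hab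
    obtain ⟨w, -, hw⟩ := hS ⟨e a, hmap ha⟩
    exact (hw a ⟨ha, rfl⟩).trans (hw b ⟨hb, hab.symm⟩).symm
  · intro y hy
    obtain ⟨w, ⟨hwD, hwy⟩, -⟩ := hS ⟨y, hy⟩
    exact ⟨w, hwD, hwy⟩

end SN
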