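import Pool.Agent.helper71.SN.Defs

/-! SN-E2 -/

noncomputable section

namespace SN

open KBR Set Filter Topology
open scoped ContDiff RealInnerProductSpace

variable {n : ℕ}

theorem e2_cG_apply (L : E n → ℝ) (x u : E n) : cG L x u = Real.exp (2 * L x) • u := rfl

theorem e2_gm (L : E n → ℝ) (x u v : E n) : gm (cG L) x u v = Real.exp (2 * L x) * ⟪u, v⟫ := by
  simp only [gm, e2_cG_apply, real_inner_smul_left]

theorem e2_grad (L : E n → ℝ) (x w : E n) : ⟪gradient L x, w⟫ = fderiv ℝ L x w := by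
  simp only [gradient, InnerProductSpace.toDual_symm_apply]

theorem e2_fderiv {L : E n → ℝ} (hL : ContDiff ℝ ∞ L) (x w : E n) :
    fderiv ℝ (cG L) x w = (Real.exp (2 * L x) * (2 * fderiv ℝ L x w)) •
      ContinuousLinearMap.id ℝ (E n) := by
  have h1 : HasFDerivAt L (fderiv ℝ L x) x :=
    (hL.differentiable (by simp)).differentiableAt.hasFDerivAt
  have h2 : HasFDerivAt (fun y => Real.exp (2 * L y)) (Real.exp (2 * L x) • ((2 : ℝ) • fderiv ℝ L x)) x :=
    (h1.const_mul 2).exp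
  have h3 : HasFDerivAt (cG L) ((Real.exp (2 * L x) • ((2 : ℝ) • fderiv ℝ L x)).smulRight
      (ContinuousLinearMap.id ℝ (E n))) x := h2.smul_const (ContinuousLinearMap.id ℝ (E n))
  rw [h3.fderiv]
  simp only [ContinuousLinearMap.smulRight_apply, smul_apply, smul_eq_mul]

theorem e2_dgm {L : E n → ℝ} (hL : ContDiff ℝ ∞ L) (x w u v : E n) :
    dgm (cG L) x w u v = 2 * Real.exp (2 * L x) * fderiv ℝ L x w * ⟪u, v⟫ := by
  rw [dgm, e2_fderiv hL]
  simp only [smul_apply, ContinuousLinearMap.id_apply, real_inner_smul_left]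
  ring

theorem e2_inner_gacc (L : E n → ℝ) (x v w : E n) :
    ⟪gacc L x v, w⟫ = -(2 * fderiv ℝ L x v) * ⟪v, w⟫ + ‖v‖ ^ 2 * fderiv ℝ L x w := by
  simp only [gacc, inner_add_left, real_inner_smul_left, e2_grad]

theorem e2_Lc {L : E n → ℝ} (hL : ContDiff ℝ ∞ L) {S : Set ℝ} {t : ℝ} {c : ℝ → E n} {c' : E n}
    (hc : HasDerivWithinAt c c' S t) : HasDerivWithinAt (fun s => L (c s)) (fderiv ℝ L (c t) c') S t := by
  have h1 : HasFDerivAt L (fderiv ℝ L (c t)) (c t) :=
    (hL.differentiable (by simp)).differentiableAt.hasFDerivAt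
  exact h1.comp_hasDerivWithinAt t hc

/-- SN-E2 (a) -/
theorem geod_iff {L : E n → ℝ} (hL : ContDiff ℝ ∞ L) {T : ℝ} {c v : ℝ → E n} :
    Geod (cG L) T c v ↔ CGeod L T c v := by
  constructor
  · intro h
    refine ⟨h.mem, h.vel, fun t ht => ?_⟩
    have key : ∀ w : E n, HasDerivWithinAt (fun s => ⟪v s, w⟫) ⟪gacc L (c t) (v t), w⟫ (Icc 0 T) t := by
      intro w
      have h1 := h.eq t ht w
      have h2 : HasDerivWithinAt (fun s => Real.exp (-(2 * L (c s))))
          (Real.exp (-(2 * L (c t))) * (-(2 * fderiv ℝ L (c t) (v t)))) (Icc 0 T) t :=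
        ((e2_Lc hL (h.vel t ht)).const_mul 2).neg.exp
      have h3 := h2.mul h1
      have hval : Real.exp (-(2 * L (c t))) * (-(2 * fderiv ℝ L (c t) (v t))) * gm (cG L) (c t) (v t) w +
          Real.exp (-(2 * L (c t))) * (1 / 2 * dgm (cG L) (c t) w (v t) (v t)) =
          ⟪gacc L (c t) (v t), w⟫ := by
        rw [e2_gm, e2_dgm hL, e2_inner_gacc, real_inner_self_eq_norm_sq]
        have he : Real.exp (-(2 * L (c t))) * Real.exp (2 * L (c t)) = 1 := by
          rw [← Real.exp_add, neg_add_cancel, Real.exp_zero]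
        linear_combination (-(2 * fderiv ℝ L (c t) (v t)) * ⟪v t, w⟫ + ‖v t‖ ^ 2 * fderiv ℝ L (c t) w) * he
      rw [hval] at h3
      refine h3.congr_of_eventuallyEq ?_ ?_
      · refine Filter.Eventually.of_forall fun s => ?_
        change ⟪v s, w⟫ = Real.exp (-(2 * L (c s))) * gm (cG L) (c s) (v s) w
        rw [e2_gm, ← mul_assoc, ← Real.exp_add, neg_add_cancel, Real.exp_zero, one_mul]
      · change ⟪v t, w⟫ = Real.exp (-(2 * L (c t))) * gm (cG L) (c t) (v t) w
        rw [e2_gm, ← mul_assoc, ← Real.exp_add, neg_add_cancel, Real.exp_zero, one_mul]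
    have b := EuclideanSpace.basisFun (Fin n) ℝ
    have hs : HasDerivWithinAt (fun s => ∑ i, ⟪v s, b i⟫ • b i)
        (∑ i, ⟪gacc L (c t) (v t), b i⟫ • b i) (Icc 0 T) t :=
      HasDerivWithinAt.fun_sum fun i _ => (key (b i)).smul_const (b i)
    have e : ∀ x : E n, ∑ i, ⟪x, b i⟫ • b i = x := by
      intro x
      have := b.sum_repr' x
      simp only [real_inner_comm] at this ⊢
      exact this
    simp only [e] at hs
    exact hs
  · intro h
    refine ⟨h.mem, h.vel, fun t ht w => ?_⟩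
    have h2 : HasDerivWithinAt (fun s => Real.exp (2 * L (c s)))
        (Real.exp (2 * L (c t)) * (2 * fderiv ℝ L (c t) (v t))) (Icc 0 T) t :=
      ((e2_Lc hL (h.vel t ht)).const_mul 2).exp
    have h1 : HasDerivWithinAt (fun s => ⟪v s, w⟫) ⟪gacc L (c t) (v t), w⟫ (Icc 0 T) t := by
      have := (h.acc t ht).inner ℝ (hasDerivWithinAt_const t (Icc 0 T) w)
      simpa using this
    have h3 := h2.mul h1
    have hval : Real.exp (2 * L (c t)) * (2 * fderiv ℝ L (c t) (v t)) * ⟪v t, w⟫ +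
        Real.exp (2 * L (c t)) * ⟪gacc L (c t) (v t), w⟫ =
        1 / 2 * dgm (cG L) (c t) w (v t) (v t) := by
      rw [e2_dgm hL, e2_inner_gacc, real_inner_self_eq_norm_sq]
      ring
    rw [hval] at h3
    refine h3.congr_of_eventuallyEq ?_ ?_
    · exact Filter.Eventually.of_forall fun s => e2_gm L (c s) (v s) w
    · exact e2_gm L (c t) (v t) w

/-- SN-E2 (b) -/
theorem cG_isMet {L : E n → ℝ} (hL : ContDiff ℝ ∞ L) : IsMet (cG L) := by
  refine ⟨?_, ?_, ?_⟩
  · exact ((contDiff_const.mul hL).exp).smul contDiff_const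
  · intro x _ u v
    rw [e2_gm, e2_gm, real_inner_comm]
  · intro x _ v hv
    rw [e2_gm]
    exact mul_pos (Real.exp_pos _) (real_inner_self_pos.2 hv)

/-- SN-E2 (c) -/
theorem cGam_chr {L : E n → ℝ} (hL : ContDiff ℝ ∞ L) : Christoffel (cG L) (cGam L) := by
  intro x _ u v w
  rw [e2_gm, e2_dgm hL, e2_dgm hL, e2_dgm hL]
  simp only [cGam, inner_add_left, inner_sub_left, real_inner_smul_left, e2_grad]
  ring

/-- SN-E2 (d) -/
theorem Hess_cGam (L f : E n → ℝ) (x v : E n) : Hess (cGam L) f x v = hess L f x v := by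
  have e : cGam L x v v = - gacc L x v := by
    simp only [cGam, gacc, real_inner_self_eq_norm_sq]
    module
  rw [Hess, hess, e, map_neg, sub_neg_eq_add]

/-- SN-E2 (e) -/
theorem convexBd_of {L : E n → ℝ} (hL : ContDiff ℝ ∞ L)
    (hb : ∀ x, ‖x‖ = 1 → 0 < 1 + fderiv ℝ L x x) : ConvexBd (cGam L) := by
  intro x hx v hv hxv
  have hx1 : ‖x‖ = 1 := by
    simpa [bM] using hx
  have e : ⟪x, cGam L x v v⟫ = - (‖v‖ ^ 2 * fderiv ℝ L x x) := by
    simp only [cGam, inner_add_right, inner_sub_right, real_inner_smul_right, hxv,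
      real_inner_self_eq_norm_sq]
    rw [real_inner_comm, e2_grad]
    ring
  rw [e]
  have h1 : 0 < ‖v‖ ^ 2 := by positivity
  have := mul_pos h1 (hb x hx1)
  linarith

end SN
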