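import Pool.Agent.helper71.SN.Defs2

/-! SN-E3 -/

noncomputable section

namespace SN

open KBR Set Filter Topology
open scoped ContDiff RealInnerProductSpace

variable {n : ℕ}

/-- near the unit sphere `1 + DL(x) x` is positive -/
theorem stays_delta {L : E n → ℝ} (hL : ContDiff ℝ ∞ L)
    (hb : ∀ x, ‖x‖ = 1 → 0 < 1 + fderiv ℝ L x x) :
    ∃ δ > 0, ∀ x : E n, 1 ≤ ‖x‖ → ‖x‖ < 1 + δ → 0 < 1 + fderiv ℝ L x x := by
  have hF : Continuous (fun x : E n => 1 + fderiv ℝ L x x) :=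
    continuous_const.add ((hL.continuous_fderiv (by simp)).clm_apply continuous_id)
  obtain ⟨δ, hδ, hsub⟩ := (isCompact_sphere (0 : E n) 1).exists_thickening_subset_open
    (isOpen_Ioi.preimage hF : IsOpen ((fun x : E n => 1 + fderiv ℝ L x x) ⁻¹' Ioi 0))
    (fun x hx => hb x (by simpa using hx))
  refine ⟨δ, hδ, fun x h1 h2 => ?_⟩
  have hx0 : 0 < ‖x‖ := lt_of_lt_of_le one_pos h1
  have hmem : x ∈ Metric.thickening δ (Metric.sphere (0 : E n) 1) := by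
    rw [Metric.mem_thickening_iff]
    refine ⟨‖x‖⁻¹ • x, ?_, ?_⟩
    · rw [mem_sphere_zero_iff_norm, norm_smul, norm_inv, norm_norm, inv_mul_cancel₀ hx0.ne']
    · have e : x - ‖x‖⁻¹ • x = (1 - ‖x‖⁻¹) • x := by rw [sub_smul, one_smul]
      have h3 : 0 ≤ 1 - ‖x‖⁻¹ := by
        have := inv_le_one_of_one_le₀ h1
        linarith
      rw [dist_eq_norm, e, norm_smul, Real.norm_of_nonneg h3, sub_mul, one_mul,
        inv_mul_cancel₀ hx0.ne']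
      linarith
  exact hsub hmem

/-- SN-E3: a geodesic which stays close to `M` and has its endpoints in `M` stays in `M` -/
theorem stays {L : E n → ℝ} (hL : ContDiff ℝ ∞ L)
    (hb : ∀ x, ‖x‖ = 1 → 0 < 1 + fderiv ℝ L x x) :
    ∃ δ > 0, ∀ c v : ℝ → E n, (∀ t ∈ Icc (0 : ℝ) 1, ‖c t‖ < 1 + δ) →
      (∀ t ∈ Icc (0 : ℝ) 1, HasDerivWithinAt c (v t) (Icc 0 1) t) →
      (∀ t ∈ Icc (0 : ℝ) 1, HasDerivWithinAt v (gacc L (c t) (v t)) (Icc 0 1) t) →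
      (∀ t ∈ Icc (0 : ℝ) 1, v t ≠ 0) →
      ‖c 0‖ ≤ 1 → ‖c 1‖ ≤ 1 → ∀ t ∈ Icc (0 : ℝ) 1, ‖c t‖ ≤ 1 := by
  obtain ⟨δ, hδ, hpos⟩ := stays_delta hL hb
  refine ⟨δ, hδ, fun c v hc hcv hva hv0 h0 h1 => ?_⟩
  by_contra hcon
  push Not at hcon
  obtain ⟨t1, ht1, hlt⟩ := hcon
  have hcc : ContinuousOn c (Icc 0 1) := fun t ht => (hcv t ht).continuousWithinAt
  obtain ⟨t0, ht0, hmax⟩ := isCompact_Icc.exists_isMaxOn
    (⟨0, left_mem_Icc.2 zero_le_one⟩ : (Icc (0 : ℝ) 1).Nonempty) hcc.norm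
  have hgt : 1 < ‖c t0‖ := hlt.trans_le (hmax ht1)
  have hne0 : t0 ≠ 0 := by rintro rfl; exact absurd h0 (not_le.2 hgt)
  have hne1 : t0 ≠ 1 := by rintro rfl; exact absurd h1 (not_le.2 hgt)
  have ht : t0 ∈ Ioo (0 : ℝ) 1 := ⟨lt_of_le_of_ne ht0.1 (Ne.symm hne0), lt_of_le_of_ne ht0.2 hne1⟩
  have hnear : ∀ᶠ t in 𝓝 t0, t ∈ Ioo (0 : ℝ) 1 := Ioo_mem_nhds ht.1 ht.2
  have hdc : ∀ t ∈ Ioo (0 : ℝ) 1, HasDerivAt c (v t) t := fun t ht' =>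
    (hcv t (Ioo_subset_Icc_self ht')).hasDerivAt (Icc_mem_nhds ht'.1 ht'.2)
  have hdv : ∀ t ∈ Ioo (0 : ℝ) 1, HasDerivAt v (gacc L (c t) (v t)) t := fun t ht' =>
    (hva t (Ioo_subset_Icc_self ht')).hasDerivAt (Icc_mem_nhds ht'.1 ht'.2)
  have hd : ∀ t ∈ Ioo (0 : ℝ) 1, HasDerivAt (fun s => ‖c s‖ ^ 2) (2 * ⟪c t, v t⟫) t :=
    fun t ht' => (hdc t ht').norm_sq
  have hlmax : IsLocalMax (fun s => ‖c s‖ ^ 2) t0 := by
    filter_upwards [hnear] with t ht'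
    have h2 : ‖c t‖ ≤ ‖c t0‖ := hmax (Ioo_subset_Icc_self ht')
    exact pow_le_pow_left₀ (norm_nonneg _) h2 2
  have hzero : 2 * ⟪c t0, v t0⟫ = 0 := hlmax.hasDerivAt_eq_zero (hd t0 ht)
  have hcv0 : ⟪c t0, v t0⟫ = 0 := by linarith
  have hderiv : deriv (fun s => ‖c s‖ ^ 2) =ᶠ[𝓝 t0] fun t => 2 * ⟪c t, v t⟫ := by
    filter_upwards [hnear] with t ht'
    exact (hd t ht').deriv
  have hd2 : HasDerivAt (fun t => 2 * ⟪c t, v t⟫)
      (2 * (⟪c t0, gacc L (c t0) (v t0)⟫ + ⟪v t0, v t0⟫)) t0 :=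
    ((hdc t0 ht).inner ℝ (hdv t0 ht)).const_mul 2
  have hval : ⟪c t0, gacc L (c t0) (v t0)⟫ + ⟪v t0, v t0⟫ =
      ‖v t0‖ ^ 2 * (1 + fderiv ℝ L (c t0) (c t0)) := by
    have hgrad : ⟪c t0, gradient L (c t0)⟫ = fderiv ℝ L (c t0) (c t0) := by
      rw [real_inner_comm]
      exact InnerProductSpace.toDual_symm_apply
    unfold gacc
    rw [inner_add_right, inner_smul_right, inner_smul_right, hcv0, hgrad,
      real_inner_self_eq_norm_sq]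
    ring
  have hpos2 : 0 < ‖v t0‖ ^ 2 * (1 + fderiv ℝ L (c t0) (c t0)) :=
    mul_pos (pow_pos (norm_pos_iff.2 (hv0 t0 ht0)) 2) (hpos _ hgt.le (hc t0 ht0))
  rw [hval] at hd2
  have hdd : deriv (deriv (fun s => ‖c s‖ ^ 2)) t0 =
      2 * (‖v t0‖ ^ 2 * (1 + fderiv ℝ L (c t0) (c t0))) := by
    rw [hderiv.deriv_eq]
    exact hd2.deriv
  have hlmin : IsLocalMin (fun s => ‖c s‖ ^ 2) t0 := by
    refine isLocalMin_of_deriv_deriv_pos ?_ ?_ (hd t0 ht).continuousAt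
    · rw [hdd]; linarith
    · rw [(hd t0 ht).deriv, hzero]
  have hconst : (fun s => ‖c s‖ ^ 2) =ᶠ[𝓝 t0] fun _ => ‖c t0‖ ^ 2 := by
    filter_upwards [hlmax, hlmin] with t h2 h3
    exact le_antisymm h2 h3
  have h4 : deriv (fun s => ‖c s‖ ^ 2) =ᶠ[𝓝 t0] fun _ => (0 : ℝ) := by
    have h5 := hconst.deriv
    filter_upwards [h5] with t ht'
    rw [ht']
    simp
  have h6 : deriv (deriv (fun s => ‖c s‖ ^ 2)) t0 = 0 := by
    rw [h4.deriv_eq]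
    simp
  rw [hdd] at h6
  linarith

end SN
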