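import Pool.Agent.helper71.SN.FL1

/-! SN-FL2 -/

noncomputable section

namespace SN

open KBR Set Filter Topology
open scoped ContDiff RealInnerProductSpace

variable {n : ℕ}

namespace FL2Aux

theorem contDiff_grad {L : E n → ℝ} (hL : ContDiff ℝ ∞ L) :
    ContDiff ℝ ∞ (fun x => gradient L x) := by
  have h1 : ContDiff ℝ ∞ (fderiv ℝ L) := hL.fderiv_right (by simp)
  rw [contDiff_euclidean]
  intro i
  have h2 : (fun x => gradient L x i) = fun x => fderiv ℝ L x (EuclideanSpace.single i 1) := by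
    funext x
    have h3 : ⟪gradient L x, EuclideanSpace.single i (1 : ℝ)⟫ =
        fderiv ℝ L x (EuclideanSpace.single i 1) := InnerProductSpace.toDual_symm_apply
    rw [← h3, EuclideanSpace.inner_single_right]
    simp
  rw [h2]
  exact h1.clm_apply contDiff_const

theorem contDiff_gacc {L : E n → ℝ} (hL : ContDiff ℝ ∞ L) :
    ContDiff ℝ ∞ (fun p : E n × E n => gacc L p.1 p.2) := by
  have h1 : ContDiff ℝ ∞ (fderiv ℝ L) := hL.fderiv_right (by simp)
  have h2 := contDiff_grad hL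
  unfold gacc
  have h3 : ContDiff ℝ ∞ (fun p : E n × E n => fderiv ℝ L p.1 p.2) :=
    (h1.comp contDiff_fst).clm_apply contDiff_snd
  have h4 : ContDiff ℝ ∞ (fun p : E n × E n => ‖p.2‖ ^ 2) := contDiff_snd.norm_sq ℝ
  have h5 : ContDiff ℝ ∞ (fun p : E n × E n => gradient L p.1) := h2.comp contDiff_fst
  exact ((contDiff_const.mul h3).neg.smul contDiff_snd).add (h4.smul h5)

/-- the geodesic vector field -/
def fld (L : E n → ℝ) (p : E n × E n) : E n × E n := (p.2, gacc L p.1 p.2)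

theorem contDiff_fld {L : E n → ℝ} (hL : ContDiff ℝ ∞ L) : ContDiff ℝ ∞ (fld L) :=
  contDiff_snd.prodMk (contDiff_gacc hL)

theorem fderiv_fld {L : E n → ℝ} (hL : ContDiff ℝ ∞ L) (p η : E n × E n) :
    fderiv ℝ (fld L) p η = (η.2, jacc L p.1 p.2 η.1 η.2) := by
  have h1 : HasFDerivAt (fun q : E n × E n => gacc L q.1 q.2)
      (fderiv ℝ (fun q : E n × E n => gacc L q.1 q.2) p) p :=
    ((contDiff_gacc hL).differentiable (by simp) p).hasFDerivAt
  have h2 : HasFDerivAt (fld L) ((ContinuousLinearMap.snd ℝ (E n) (E n)).prod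
      (fderiv ℝ (fun q : E n × E n => gacc L q.1 q.2) p)) p :=
    (hasFDerivAt_snd).prodMk h1
  rw [h2.fderiv]
  rfl

theorem exists_cutoff {L : E n → ℝ} (hL : ContDiff ℝ ∞ L) (K : ℝ) :
    ∃ X : E n × E n → E n × E n, ContDiff ℝ ∞ X ∧ HasCompactSupport X ∧
      (∀ p : E n × E n, ‖p.1‖ < 2 → ‖p.2‖ < K → X p = fld L p) ∧
      (∀ p : E n × E n, ‖p.1‖ < 2 → ‖p.2‖ < K → X =ᶠ[𝓝 p] fld L) := by
  have hR : (0 : ℝ) < |K| + 3 := by positivity
  let b : ContDiffBump (0 : E n × E n) :=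
    { rIn := |K| + 3, rOut := |K| + 4, rIn_pos := hR, rIn_lt_rOut := by linarith }
  have hmem : ∀ p : E n × E n, ‖p.1‖ < 2 → ‖p.2‖ < K → p ∈ Metric.ball (0 : E n × E n) b.rIn := by
    intro p h1 h2
    rw [mem_ball_zero_iff, Prod.norm_def]
    change max ‖p.1‖ ‖p.2‖ < |K| + 3
    have h3 := le_abs_self K
    have h4 := abs_nonneg K
    exact max_lt (by linarith) (by linarith)
  refine ⟨fun p => b p • fld L p, b.contDiff.smul (contDiff_fld hL),
    b.hasCompactSupport.smul_right, ?_, ?_⟩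
  · intro p h1 h2
    have h3 : b p = 1 := b.one_of_mem_closedBall (Metric.ball_subset_closedBall (hmem p h1 h2))
    simp only [h3, one_smul]
  · intro p h1 h2
    filter_upwards [b.eventuallyEq_one_of_mem_ball (hmem p h1 h2)] with q hq
    have h3 : b q = 1 := hq
    simp only [h3, one_smul]

end FL2Aux

open FL2Aux in
/-- SN-FL2: geodesic flow of `e^{2L}|dx|²` in the region `|x| < 2`, `|v| < K` -/
theorem geo_flow {L : E n → ℝ} (hL : ContDiff ℝ ∞ L) (K : ℝ) :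
    ∃ φ : ℝ → E n × E n → E n × E n,
      ContDiff ℝ ∞ (fun p : ℝ × (E n × E n) => φ p.1 p.2) ∧ (∀ z, φ 0 z = z) ∧
      (∀ z t, ‖(φ t z).1‖ < 2 → ‖(φ t z).2‖ < K →
        HasDerivAt (fun s => (φ s z).1) (φ t z).2 t ∧
        HasDerivAt (fun s => (φ s z).2) (gacc L (φ t z).1 (φ t z).2) t) ∧
      (∀ (T : ℝ) (c v : ℝ → E n), (∀ t ∈ Icc 0 T, ‖c t‖ < 2 ∧ ‖v t‖ < K) →
        (∀ t ∈ Icc 0 T, HasDerivWithinAt c (v t) (Icc 0 T) t) →
        (∀ t ∈ Icc 0 T, HasDerivWithinAt v (gacc L (c t) (v t)) (Icc 0 T) t) →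
        ∀ t ∈ Icc 0 T, φ t (c 0, v 0) = (c t, v t)) ∧
      (∀ z ζ t, ‖(φ t z).1‖ < 2 → ‖(φ t z).2‖ < K →
        HasDerivAt (fun s => (fderiv ℝ (φ s) z ζ).1) (fderiv ℝ (φ t) z ζ).2 t ∧
        HasDerivAt (fun s => (fderiv ℝ (φ s) z ζ).2) (jacc L (φ t z).1 (φ t z).2
          (fderiv ℝ (φ t) z ζ).1 (fderiv ℝ (φ t) z ζ).2) t) := by
  obtain ⟨X, hXs, hXc, hXval, hXev⟩ := exists_cutoff hL K
  obtain ⟨φ, h0, h1, h2, h3, h4⟩ := smooth_flow X hXs hXc
  refine ⟨φ, h2, h0, ?_, ?_, ?_⟩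
  · intro z t ha hb
    have h5 := h1 t z
    rw [hXval _ ha hb] at h5
    exact ⟨(ContinuousLinearMap.fst ℝ (E n) (E n)).hasFDerivAt.comp_hasDerivAt t h5,
      (ContinuousLinearMap.snd ℝ (E n) (E n)).hasFDerivAt.comp_hasDerivAt t h5⟩
  · intro T c v hcv hc hv t ht
    have h5 : ∀ s ∈ Icc 0 T, HasDerivWithinAt (fun s => (c s, v s)) (X (c s, v s)) (Icc 0 T) s := by
      intro s hs
      have h6 : HasDerivWithinAt (fun s => (c s, v s)) (v s, gacc L (c s) (v s)) (Icc 0 T) s :=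
        (hc s hs).prodMk (hv s hs)
      rw [hXval (c s, v s) (hcv s hs).1 (hcv s hs).2]
      exact h6
    exact (h4 T (fun s => (c s, v s)) h5 t ht).symm
  · intro z ζ t ha hb
    have h5 := h3 t z ζ
    rw [(hXev _ ha hb).fderiv_eq, fderiv_fld hL] at h5
    exact ⟨(ContinuousLinearMap.fst ℝ (E n) (E n)).hasFDerivAt.comp_hasDerivAt t h5,
      (ContinuousLinearMap.snd ℝ (E n) (E n)).hasFDerivAt.comp_hasDerivAt t h5⟩

end SN
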