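import Pool.Agent.helper71.SN.E1
import Pool.Agent.helper71.SN.E2
import Pool.Agent.helper71.SN.E3
import Pool.Agent.helper71.SN.FL2
import Pool.Agent.helper71.SN.J1

/-! SN-E4 -/

noncomputable section

namespace SN

open KBR Set Filter Topology
open scoped ContDiff RealInnerProductSpace

variable {n : ℕ}

/-! ### the acceleration -/

theorem e4_gacc_smul (L : E n → ℝ) (x v : E n) (a : ℝ) :
    gacc L x (a • v) = (a ^ 2) • gacc L x v := by
  simp only [gacc, map_smul, smul_eq_mul, norm_smul, Real.norm_eq_abs, smul_add, smul_smul,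
    mul_pow, sq_abs]
  congr 2
  ring

theorem e4_gacc_contDiff {L : E n → ℝ} (hL : ContDiff ℝ ∞ L) :
    ContDiff ℝ ∞ (fun p : E n × E n => gacc L p.1 p.2) := by
  have h1 : ContDiff ℝ ∞ (fderiv ℝ L) := hL.fderiv_right (by simp)
  have h2 : ContDiff ℝ ∞ (gradient L) :=
    (InnerProductSpace.toDual ℝ (E n)).symm.toContinuousLinearEquiv.contDiff.comp h1
  unfold gacc
  exact ContDiff.add (ContDiff.smul ((contDiff_const.mul
    ((h1.comp contDiff_fst).clm_apply contDiff_snd)).neg) contDiff_snd)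
    (ContDiff.smul (contDiff_snd.norm_sq ℝ) (h2.comp contDiff_fst))

theorem e4_jacc_smul {L : E n → ℝ} (hL : ContDiff ℝ ∞ L) (x v j w : E n) (a : ℝ) :
    jacc L x (a • v) j (a • w) = (a ^ 2) • jacc L x v j w := by
  have hd : ∀ p : E n × E n, DifferentiableAt ℝ (fun p : E n × E n => gacc L p.1 p.2) p :=
    fun p => (e4_gacc_contDiff hL).contDiffAt.differentiableAt (by simp)
  let S : E n × E n →L[ℝ] E n × E n :=
    (ContinuousLinearMap.fst ℝ (E n) (E n)).prod (a • ContinuousLinearMap.snd ℝ (E n) (E n))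
  have hS : ∀ y u, S (y, u) = (y, a • u) := fun y u => rfl
  have h1 : (fun p : E n × E n => gacc L p.1 p.2) ∘ S =
      fun p : E n × E n => (a ^ 2) • gacc L p.1 p.2 := by
    funext p
    obtain ⟨y, u⟩ := p
    simp only [Function.comp, hS, e4_gacc_smul]
  have h2 : fderiv ℝ ((fun p : E n × E n => gacc L p.1 p.2) ∘ S) (x, v) (j, w) =
      jacc L x (a • v) j (a • w) := by
    rw [fderiv_comp (x, v) (hd _) S.differentiableAt, S.fderiv]
    simp only [ContinuousLinearMap.comp_apply, hS, jacc]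
  rw [← h2, h1]
  have h3 : fderiv ℝ (fun p : E n × E n => (a ^ 2) • gacc L p.1 p.2) (x, v) =
      (a ^ 2) • fderiv ℝ (fun p : E n × E n => gacc L p.1 p.2) (x, v) :=
    fderiv_fun_const_smul (hd _) _
  rw [h3]
  rfl

theorem e4_jacc_zero {L : E n → ℝ} (hL : ContDiff ℝ ∞ L) (x j w : E n) :
    jacc L x 0 j w = 0 := by
  have h0 : jacc L x 0 j 0 = 0 := by
    have := e4_jacc_smul hL x 0 j 0 0
    simpa using this
  have h1 : jacc L x 0 j (-w) = jacc L x 0 j w := by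
    have := e4_jacc_smul hL x 0 j w (-1)
    simpa using this
  have h2 : ∀ u, jacc L x 0 j u = jacc L x 0 j 0 + jacc L x 0 0 u := by
    intro u
    unfold jacc
    rw [← map_add]
    simp
  have h3 : jacc L x 0 0 (-w) = - jacc L x 0 0 w := by
    unfold jacc
    rw [← map_neg]
    simp
  rw [h2 (-w), h2 w, h0, h3, zero_add, zero_add] at h1
  rw [h2, h0, zero_add]
  have h4 : (2 : ℝ) • jacc L x 0 0 w = 0 := by
    rw [two_smul]
    nth_rewrite 1 [← h1]
    exact neg_add_cancel _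
  exact (smul_eq_zero.1 h4).resolve_left (by norm_num)

/-! ### constant functions, speed -/

theorem e4_const {F : Type*} [NormedAddCommGroup F] [NormedSpace ℝ F] {f : ℝ → F} {T : ℝ}
    (hf : ∀ t ∈ Icc 0 T, HasDerivWithinAt f 0 (Icc 0 T) t) : ∀ t ∈ Icc 0 T, f t = f 0 := by
  intro t ht
  have hT : 0 ≤ T := ht.1.trans ht.2
  rcases hT.eq_or_lt with h | h
  · have : t = 0 := le_antisymm (by rw [h]; exact ht.2) ht.1
    rw [this]
  · exact constant_of_derivWithin_zero (fun s hs => (hf s hs).differentiableWithinAt)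
      (fun s hs => (hf s (Ico_subset_Icc_self hs)).derivWithin
        ((uniqueDiffOn_Icc h) s (Ico_subset_Icc_self hs))) t ht

theorem e4_speed {L : E n → ℝ} (hL : ContDiff ℝ ∞ L) {T : ℝ} {c v : ℝ → E n}
    (h1 : ∀ t ∈ Icc 0 T, HasDerivWithinAt c (v t) (Icc 0 T) t)
    (h2 : ∀ t ∈ Icc 0 T, HasDerivWithinAt v (gacc L (c t) (v t)) (Icc 0 T) t) :
    ∀ t ∈ Icc 0 T, Real.exp (2 * L (c t)) * ‖v t‖ ^ 2 =
      Real.exp (2 * L (c 0)) * ‖v 0‖ ^ 2 := by
  apply e4_const (f := fun t => Real.exp (2 * L (c t)) * ‖v t‖ ^ 2)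
  intro t ht
  have hd : HasFDerivAt L (fderiv ℝ L (c t)) (c t) :=
    (hL.contDiffAt.differentiableAt (by simp)).hasFDerivAt
  have h3 : HasDerivWithinAt (fun s => L (c s)) (fderiv ℝ L (c t) (v t)) (Icc 0 T) t :=
    hd.comp_hasDerivWithinAt t (h1 t ht)
  have h4 := (h3.const_mul 2).exp
  have h5 := (h2 t ht).norm_sq
  have h6 := h4.mul h5
  refine h6.congr_deriv ?_
  have h7 : ⟪v t, gacc L (c t) (v t)⟫ = -(fderiv ℝ L (c t) (v t)) * ‖v t‖ ^ 2 := by
    unfold gacc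
    rw [inner_add_right, inner_smul_right, inner_smul_right, real_inner_self_eq_norm_sq,
      real_inner_comm, inner_gradient_left]
    ring
  rw [h7]
  ring

/-! ### rescaling -/

theorem e4_rescale {F : Type*} [NormedAddCommGroup F] [NormedSpace ℝ F] {f : ℝ → F} {f' : F}
    {s t : ℝ} (hs : 0 < s) (h : HasDerivWithinAt f f' (Icc 0 1) (t / s)) :
    HasDerivWithinAt (fun r => f (r / s)) (s⁻¹ • f') (Icc 0 s) t := by
  have h1 : HasDerivWithinAt (fun r : ℝ => r / s) (s⁻¹) (Icc 0 s) t := by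
    have := (hasDerivAt_id t).div_const s
    simpa using this.hasDerivWithinAt
  exact HasDerivWithinAt.scomp t h h1
    (fun r hr => ⟨div_nonneg hr.1 hs.le, (div_le_one hs).2 hr.2⟩)

theorem e4_mem {s t : ℝ} (hs : 0 < s) (ht : t ∈ Icc 0 s) : t / s ∈ Icc (0 : ℝ) 1 :=
  ⟨div_nonneg ht.1 hs.le, (div_le_one hs).2 ht.2⟩

theorem e4_ugeod {L : E n → ℝ} (hL : ContDiff ℝ ∞ L) {c v : ℝ → E n} (hg : CGeod L 1 c v)
    {s : ℝ} (hs : 0 < s) (hss : s ^ 2 = Real.exp (2 * L (c 0)) * ‖v 0‖ ^ 2) :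
    UGeod L s (fun t => c (t / s)) (fun t => s⁻¹ • v (t / s)) where
  mem := fun t ht => hg.mem _ (e4_mem hs ht)
  vel := fun t ht => e4_rescale hs (hg.vel _ (e4_mem hs ht))
  acc := fun t ht => by
    have h1 := (e4_rescale hs (hg.acc _ (e4_mem hs ht))).const_smul s⁻¹
    refine h1.congr_deriv ?_
    rw [e4_gacc_smul, smul_smul, sq]
  unit := fun t ht => by
    have h1 := e4_speed hL hg.vel hg.acc _ (e4_mem hs ht)
    rw [norm_smul, mul_pow, norm_inv, Real.norm_eq_abs, inv_pow, sq_abs, mul_left_comm, h1,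
      ← hss, inv_mul_cancel₀ (by positivity)]

theorem e4_jac {L : E n → ℝ} (hL : ContDiff ℝ ∞ L) {c v J W : ℝ → E n}
    (hJ : Jac L 1 c v J W) {s : ℝ} (hs : 0 < s) :
    Jac L s (fun t => c (t / s)) (fun t => s⁻¹ • v (t / s)) (fun t => J (t / s))
      (fun t => s⁻¹ • W (t / s)) where
  d1 := fun t ht => e4_rescale hs (hJ.d1 _ (e4_mem hs ht))
  d2 := fun t ht => by
    have h1 := (e4_rescale hs (hJ.d2 _ (e4_mem hs ht))).const_smul s⁻¹
    refine h1.congr_deriv ?_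
    rw [e4_jacc_smul hL, smul_smul, sq]

/-- length bound: the geodesics of `M` on `[0,1]` have bounded velocity -/
theorem e4_bound {L : E n → ℝ} (h : Good L) :
    ∃ K : ℝ, 0 < K ∧ ∀ c v, CGeod L 1 c v → ∀ t ∈ Icc (0 : ℝ) 1, ‖v t‖ ≤ K := by
  have hcont : ContinuousOn (fun x : E n => Real.exp (-L x)) (M n) :=
    (Real.continuous_exp.comp h.smooth.continuous.neg).continuousOn
  have hM : IsCompact (M n) := isCompact_closedBall _ _
  obtain ⟨C, hC⟩ := hM.bddAbove_image hcont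
  have hC' : ∀ x ∈ M n, Real.exp (-L x) ≤ C := fun x hx => hC ⟨x, hx, rfl⟩
  have hCpos : 0 < C := by
    have h0 : (0 : E n) ∈ M n := by simp [M]
    exact (Real.exp_pos _).trans_le (hC' 0 h0)
  refine ⟨Real.pi * C, by positivity, ?_⟩
  intro c v hg t ht
  have hsp := e4_speed h.smooth hg.vel hg.acc t ht
  set s : ℝ := Real.exp (L (c 0)) * ‖v 0‖ with hs
  have hss : s ^ 2 = Real.exp (2 * L (c 0)) * ‖v 0‖ ^ 2 := by
    rw [hs, mul_pow, ← Real.exp_nat_mul]
    norm_num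
  have hs0 : 0 ≤ s := by positivity
  have hspi : s ≤ Real.pi := by
    rcases hs0.eq_or_lt with h0 | h0
    · rw [← h0]
      positivity
    · exact (h.len s _ _ (e4_ugeod h.smooth hg h0 hss)).le
  have h1 : (Real.exp (L (c t)) * ‖v t‖) ^ 2 = s ^ 2 := by
    rw [hss, ← hsp, mul_pow, ← Real.exp_nat_mul]
    norm_num
  have h2 : Real.exp (L (c t)) * ‖v t‖ = s :=
    (pow_left_inj₀ (by positivity) hs0 two_ne_zero).1 h1
  have h3 : ‖v t‖ = s * Real.exp (-L (c t)) := by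
    rw [← h2, Real.exp_neg]
    field_simp
  rw [h3]
  exact mul_le_mul hspi (hC' _ (hg.mem t ht)) (Real.exp_pos _).le (by positivity)

/-- the derivative of the exponential map is injective -/
theorem e4_inj {L : E n → ℝ} (h : Good L) {c v J W : ℝ → E n} (hg : CGeod L 1 c v)
    (hJ : Jac L 1 c v J W) (hJ0 : J 0 = 0) (hJ1 : J 1 = 0) : W 0 = 0 := by
  have h01 : (0 : ℝ) ∈ Icc (0 : ℝ) 1 := ⟨le_rfl, zero_le_one⟩
  have h11 : (1 : ℝ) ∈ Icc (0 : ℝ) 1 := ⟨zero_le_one, le_rfl⟩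
  by_cases hv : v 0 = 0
  · have hvt : ∀ t ∈ Icc (0 : ℝ) 1, v t = 0 := by
      intro t ht
      have h1 := e4_speed h.smooth hg.vel hg.acc t ht
      rw [hv, norm_zero] at h1
      have h2 : ‖v t‖ ^ 2 = 0 := by
        have h3 : Real.exp (2 * L (c t)) * ‖v t‖ ^ 2 = 0 := by
          rw [h1]
          norm_num
        exact (mul_eq_zero.1 h3).resolve_left (Real.exp_pos _).ne'
      exact norm_eq_zero.1 (pow_eq_zero_iff two_ne_zero |>.1 h2)
    have hW : ∀ t ∈ Icc (0 : ℝ) 1, W t = W 0 := by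
      apply e4_const
      intro t ht
      have := hJ.d2 t ht
      rwa [hvt t ht, e4_jacc_zero h.smooth] at this
    have hJt : ∀ t ∈ Icc (0 : ℝ) 1, J t - t • W 0 = J 0 - (0 : ℝ) • W 0 := by
      apply e4_const (f := fun t => J t - t • W 0)
      intro t ht
      have h1 := hJ.d1 t ht
      rw [hW t ht] at h1
      have h2 : HasDerivWithinAt (fun t : ℝ => t • W 0) (W 0) (Icc 0 1) t := by
        have := ((hasDerivAt_id t).smul_const (W 0)).hasDerivWithinAt (s := Icc (0 : ℝ) 1)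
        simpa using this
      have h3 := h1.sub h2
      rw [sub_self] at h3
      exact h3
    have := hJt 1 h11
    rw [hJ1, hJ0, one_smul, zero_smul, sub_zero, zero_sub, neg_eq_zero] at this
    exact this
  · set s : ℝ := Real.exp (L (c 0)) * ‖v 0‖ with hs
    have hss : s ^ 2 = Real.exp (2 * L (c 0)) * ‖v 0‖ ^ 2 := by
      rw [hs, mul_pow, ← Real.exp_nat_mul]
      norm_num
    have hs0 : 0 < s := mul_pos (Real.exp_pos _) (norm_pos_iff.2 hv)
    have h1 := h.conj s _ _ _ _ hs0 (e4_ugeod h.smooth hg hs0 hss) (e4_jac h.smooth hJ hs0)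
      (by rw [zero_div]; exact hJ0) (by rw [div_self hs0.ne']; exact hJ1)
    have h2 : ∀ t ∈ Icc (0 : ℝ) 1, J t = 0 := by
      intro t ht
      have := h1 (t * s) ⟨mul_nonneg ht.1 hs0.le, by nlinarith [ht.2]⟩
      rwa [mul_div_cancel_right₀ _ hs0.ne'] at this
    have h3 : HasDerivWithinAt J 0 (Icc 0 1) 0 :=
      (hasDerivWithinAt_const (0 : ℝ) (Icc (0 : ℝ) 1) (0 : E n)).congr h2 (h2 0 h01)
    have h4 := hJ.d1 0 h01
    exact ((uniqueDiffOn_Icc (zero_lt_one' ℝ)) 0 h01).eq_deriv _ h4 h3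

theorem e4_tube {f g : ℝ → E n → ℝ} (hf : Continuous (fun p : ℝ × E n => f p.1 p.2))
    (hg : Continuous (fun p : ℝ × E n => g p.1 p.2)) {a b : ℝ} {w : E n}
    (h : ∀ t ∈ Icc (0 : ℝ) 1, f t w < a ∧ g t w < b) :
    ∃ U ∈ 𝓝 w, ∀ w' ∈ U, ∀ t ∈ Icc (0 : ℝ) 1, f t w' < a ∧ g t w' < b := by
  have hO : IsOpen {p : ℝ × E n | f p.1 p.2 < a ∧ g p.1 p.2 < b} :=
    (isOpen_lt hf continuous_const).inter (isOpen_lt hg continuous_const)
  obtain ⟨u, U, -, hU, hu, hwU, huU⟩ := generalized_tube_lemma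
    (isCompact_Icc (a := (0 : ℝ)) (b := 1)) (isCompact_singleton (x := w)) hO (by
      rintro ⟨t, w'⟩ ⟨ht, hw'⟩
      simp only [mem_singleton_iff] at hw'
      subst hw'
      exact h t ht)
  refine ⟨U, hU.mem_nhds (hwU rfl), fun w' hw' t ht => ?_⟩
  have h1 := huU (mk_mem_prod (hu ht) hw')
  exact h1

theorem e4_fderiv {ψ : E n × E n → E n × E n} (hψ : ContDiff ℝ ∞ ψ) (x w : E n) :
    HasFDerivAt (fun w : E n => (ψ (x, w)).1)
        ((ContinuousLinearMap.fst ℝ (E n) (E n)).comp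
          ((fderiv ℝ ψ (x, w)).comp (ContinuousLinearMap.inr ℝ (E n) (E n)))) w := by
  have hi : HasFDerivAt (fun w : E n => ((x, w) : E n × E n))
      (ContinuousLinearMap.inr ℝ (E n) (E n)) w :=
    hasFDerivAt_prodMk_right x w
  have h2 : HasFDerivAt ψ (fderiv ℝ ψ (x, w)) (x, w) :=
    (hψ.contDiffAt.differentiableAt (by simp)).hasFDerivAt
  have h3 : HasFDerivAt (fun w : E n => ψ (x, w))
      ((fderiv ℝ ψ (x, w)).comp (ContinuousLinearMap.inr ℝ (E n) (E n))) w := h2.comp w hi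
  exact h3.fst

/-- SN-E4: the exponential maps are diffeomorphisms -/
theorem exp_diffeo {L : E n → ℝ} (h : Good L) : ∀ x ∈ M n, ExpDiffeo (cG L) x := by
  intro x hx
  obtain ⟨K₀, hK₀, hbd⟩ := e4_bound h
  obtain ⟨φ, hφs, hφ0, hφd, hφu, hφj⟩ := geo_flow h.smooth (K₀ + 1)
  obtain ⟨δ, hδ, hstay⟩ := stays h.smooth h.conv
  have hM : ∀ y : E n, y ∈ M n ↔ ‖y‖ ≤ 1 := fun y => mem_closedBall_zero_iff
  have h01 : (0 : ℝ) ∈ Icc (0 : ℝ) 1 := ⟨le_rfl, zero_le_one⟩
  have h11 : (1 : ℝ) ∈ Icc (0 : ℝ) 1 := ⟨zero_le_one, le_rfl⟩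
  -- the flow
  have hP : ContDiff ℝ ∞ (fun p : ℝ × E n => φ p.1 (x, p.2)) :=
    hφs.comp (contDiff_fst.prodMk (contDiff_const.prodMk contDiff_snd))
  have hPc := hP.continuous
  have hPt : ∀ t, ContDiff ℝ ∞ (fun w : E n => φ t (x, w)) := fun t =>
    hφs.comp (contDiff_const.prodMk (contDiff_const.prodMk contDiff_id))
  have hvel : ∀ w : E n, (∀ t ∈ Icc (0 : ℝ) 1, ‖(φ t (x, w)).1‖ < 2 ∧ ‖(φ t (x, w)).2‖ < K₀ + 1) →
      ∀ t ∈ Icc (0 : ℝ) 1,
        HasDerivWithinAt (fun s => (φ s (x, w)).1) (φ t (x, w)).2 (Icc 0 1) t := fun w hw t ht =>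
    (hφd (x, w) t (hw t ht).1 (hw t ht).2).1.hasDerivWithinAt
  have hacc : ∀ w : E n, (∀ t ∈ Icc (0 : ℝ) 1, ‖(φ t (x, w)).1‖ < 2 ∧ ‖(φ t (x, w)).2‖ < K₀ + 1) →
      ∀ t ∈ Icc (0 : ℝ) 1, HasDerivWithinAt (fun s => (φ s (x, w)).2)
        (gacc L (φ t (x, w)).1 (φ t (x, w)).2) (Icc 0 1) t := fun w hw t ht =>
    (hφd (x, w) t (hw t ht).1 (hw t ht).2).2.hasDerivWithinAt
  -- geodesics are given by the flow
  have hflow : ∀ c v, CGeod L 1 c v → c 0 = x → ∀ t ∈ Icc (0 : ℝ) 1,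
      φ t (x, v 0) = (c t, v t) := by
    intro c v hg hc0 t ht
    have := hφu 1 c v (fun t ht => ⟨((hM _).1 (hg.mem t ht)).trans_lt one_lt_two,
      (hbd c v hg t ht).trans_lt (lt_add_one _)⟩) hg.vel hg.acc t ht
    rwa [hc0] at this
  -- description of the domain
  have hD1 : ∀ w ∈ expDom (cG L) x, ∀ t ∈ Icc (0 : ℝ) 1,
      ‖(φ t (x, w)).1‖ ≤ 1 ∧ ‖(φ t (x, w)).2‖ ≤ K₀ := by
    rintro w ⟨c, v, hg, hc0, hv0⟩ t ht
    have hg' := (geod_iff h.smooth).1 hg
    have h1 := hflow c v hg' hc0 t ht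
    rw [hv0] at h1
    rw [h1]
    exact ⟨(hM _).1 (hg'.mem t ht), hbd c v hg' t ht⟩
  have hgeo : ∀ w : E n, (∀ t ∈ Icc (0 : ℝ) 1, ‖(φ t (x, w)).1‖ ≤ 1 ∧
      ‖(φ t (x, w)).2‖ < K₀ + 1) →
      CGeod L 1 (fun t => (φ t (x, w)).1) (fun t => (φ t (x, w)).2) := by
    intro w hw
    have hw' : ∀ t ∈ Icc (0 : ℝ) 1, ‖(φ t (x, w)).1‖ < 2 ∧ ‖(φ t (x, w)).2‖ < K₀ + 1 :=
      fun t ht => ⟨(hw t ht).1.trans_lt one_lt_two, (hw t ht).2⟩
    exact ⟨fun t ht => (hM _).2 (hw t ht).1, hvel w hw', hacc w hw'⟩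
  have hD2 : ∀ w : E n, (∀ t ∈ Icc (0 : ℝ) 1, ‖(φ t (x, w)).1‖ ≤ 1 ∧
      ‖(φ t (x, w)).2‖ < K₀ + 1) → w ∈ expDom (cG L) x := by
    intro w hw
    exact ⟨_, _, (geod_iff h.smooth).2 (hgeo w hw), by simp [hφ0], by simp [hφ0]⟩
  have hgeoD : ∀ w ∈ expDom (cG L) x,
      CGeod L 1 (fun t => (φ t (x, w)).1) (fun t => (φ t (x, w)).2) := fun w hw =>
    hgeo w fun t ht => ⟨(hD1 w hw t ht).1, (hD1 w hw t ht).2.trans_lt (lt_add_one _)⟩
  have hDcomp : IsCompact (expDom (cG L) x) := by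
    have hset : expDom (cG L) x = ⋂ t ∈ Icc (0 : ℝ) 1,
        {w : E n | ‖(φ t (x, w)).1‖ ≤ 1 ∧ ‖(φ t (x, w)).2‖ ≤ K₀} := by
      ext w
      simp only [mem_iInter, mem_setOf_eq]
      exact ⟨fun hw t ht => hD1 w hw t ht, fun hw => hD2 w fun t ht =>
        ⟨(hw t ht).1, (hw t ht).2.trans_lt (lt_add_one _)⟩⟩
    refine Metric.isCompact_of_isClosed_isBounded ?_ ?_
    · rw [hset]
      refine isClosed_biInter fun t ht => ?_
      exact (isClosed_le ((hPt t).continuous.fst.norm) continuous_const).inter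
        (isClosed_le ((hPt t).continuous.snd.norm) continuous_const)
    · refine (Metric.isBounded_closedBall (x := (0 : E n)) (r := K₀)).subset fun w hw => ?_
      have h1 := (hD1 w hw 0 h01).2
      rw [hφ0] at h1
      exact mem_closedBall_zero_iff.2 h1
  have h0D : (0 : E n) ∈ expDom (cG L) x := by
    refine ⟨fun _ => x, fun _ => 0, (geod_iff h.smooth).2 ⟨fun t _ => hx, fun t _ => ?_,
      fun t _ => ?_⟩, rfl, rfl⟩
    · exact hasDerivWithinAt_const _ _ _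
    · have : gacc L x (0 : E n) = 0 := by
        have := e4_gacc_smul L x 0 0
        simpa using this
      rw [this]
      exact hasDerivWithinAt_const _ _ _
  -- stability
  have hstab : ∀ w ∈ expDom (cG L) x, ∃ U ∈ 𝓝 w, ∀ w' ∈ U, (φ 1 (x, w')).1 ∈ M n →
      w' ∈ expDom (cG L) x := by
    intro w hw
    obtain ⟨U, hU, hUb⟩ := e4_tube (f := fun t w => ‖(φ t (x, w)).1‖)
      (g := fun t w => ‖(φ t (x, w)).2‖) hPc.fst.norm hPc.snd.norm (a := min (1 + δ) 2)
      (b := K₀ + 1) (w := w) (fun t ht => ⟨(hD1 w hw t ht).1.trans_lt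
        (lt_min (by linarith) one_lt_two), (hD1 w hw t ht).2.trans_lt (lt_add_one _)⟩)
    refine ⟨U, hU, fun w' hw' hend => ?_⟩
    have hb : ∀ t ∈ Icc (0 : ℝ) 1, ‖(φ t (x, w')).1‖ < min (1 + δ) 2 ∧
        ‖(φ t (x, w')).2‖ < K₀ + 1 := hUb w' hw'
    have hb' : ∀ t ∈ Icc (0 : ℝ) 1, ‖(φ t (x, w')).1‖ < 2 ∧ ‖(φ t (x, w')).2‖ < K₀ + 1 :=
      fun t ht => ⟨(hb t ht).1.trans_le (min_le_right _ _), (hb t ht).2⟩
    by_cases h0 : w' = 0
    · rw [h0]
      exact h0D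
    · have hne : ∀ t ∈ Icc (0 : ℝ) 1, (φ t (x, w')).2 ≠ 0 := by
        intro t ht hz
        have h1 := e4_speed h.smooth (hvel w' hb') (hacc w' hb') t ht
        simp only [hz, hφ0, norm_zero] at h1
        have h2 : 0 < Real.exp (2 * L x) * ‖w'‖ ^ 2 :=
          mul_pos (Real.exp_pos _) (pow_pos (norm_pos_iff.2 h0) 2)
        rw [← h1] at h2
        norm_num at h2
      refine hD2 w' fun t ht => ⟨?_, (hb t ht).2⟩
      exact hstay _ _ (fun t ht => (hb t ht).1.trans_le (min_le_left _ _)) (hvel w' hb')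
        (hacc w' hb') hne (by simp only [hφ0]; exact (hM x).1 hx) ((hM _).1 hend) t ht
  -- the exponential map
  have hes : ContDiff ℝ ∞ (fun w : E n => (φ 1 (x, w)).1) := (hPt 1).fst
  have hder : ∀ w ∈ expDom (cG L) x, ∃ A : E n ≃L[ℝ] E n,
      HasFDerivAt (fun w : E n => (φ 1 (x, w)).1) (A : E n →L[ℝ] E n) w := by
    intro w hw
    have hφt : ∀ t, ContDiff ℝ ∞ (φ t) := fun t =>
      hφs.comp (contDiff_const.prodMk contDiff_id)
    have h1 := e4_fderiv (hφt 1) x w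
    have hinj : Function.Injective ((ContinuousLinearMap.fst ℝ (E n) (E n)).comp
          ((fderiv ℝ (φ 1) (x, w)).comp (ContinuousLinearMap.inr ℝ (E n) (E n)))) := by
      rw [injective_iff_map_eq_zero]
      intro ξ hξ
      have hξ' : (fderiv ℝ (φ 1) (x, w) (0, ξ)).1 = 0 := hξ
      have hJ : Jac L 1 (fun t => (φ t (x, w)).1) (fun t => (φ t (x, w)).2)
          (fun t => (fderiv ℝ (φ t) (x, w) (0, ξ)).1)
          (fun t => (fderiv ℝ (φ t) (x, w) (0, ξ)).2) := by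
        constructor
        · intro t ht
          exact (hφj (x, w) (0, ξ) t ((hD1 w hw t ht).1.trans_lt one_lt_two)
            ((hD1 w hw t ht).2.trans_lt (lt_add_one _))).1.hasDerivWithinAt
        · intro t ht
          exact (hφj (x, w) (0, ξ) t ((hD1 w hw t ht).1.trans_lt one_lt_two)
            ((hD1 w hw t ht).2.trans_lt (lt_add_one _))).2.hasDerivWithinAt
      have hid : fderiv ℝ (φ 0) (x, w) = ContinuousLinearMap.id ℝ (E n × E n) := by
        have : φ 0 = id := funext hφ0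
        rw [this, fderiv_id]
      have := e4_inj h (hgeoD w hw) hJ (by simp [hid]) hξ'
      simpa [hid] using this
    refine ⟨(LinearEquiv.ofInjectiveEndo
      ((ContinuousLinearMap.fst ℝ (E n) (E n)).comp
          ((fderiv ℝ (φ 1) (x, w)).comp (ContinuousLinearMap.inr ℝ (E n) (E n))) :
          E n →ₗ[ℝ] E n) hinj).toContinuousLinearEquiv, ?_⟩
    convert h1 using 1
    exact ContinuousLinearMap.ext fun ξ => rfl
  -- the local inverse
  have hloc : ∀ w ∈ expDom (cG L) x, ∃ Φ : OpenPartialHomeomorph (E n) (E n),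
      (∀ u, Φ u = (φ 1 (x, u)).1) ∧ w ∈ Φ.source ∧ ContDiffAt ℝ ∞ Φ.symm (φ 1 (x, w)).1 := by
    intro w hw
    obtain ⟨A, hA⟩ := hder w hw
    refine ⟨hes.contDiffAt.toOpenPartialHomeomorph _ hA (by simp), fun u => rfl,
      ContDiffAt.mem_toOpenPartialHomeomorph_source _ _ _, ?_⟩
    exact ContDiffAt.to_localInverse hes.contDiffAt hA (by simp)
  have hbij : BijOn (fun w : E n => (φ 1 (x, w)).1) (expDom (cG L) x) (M n) := by
    refine bij_of_local hDcomp ?_ hes.continuous.continuousOn ?_ ?_ ?_ 0 h0D ?_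
    · exact (convex_closedBall (0 : E n) 1).isPreconnected
    · intro w hw
      exact (hM _).2 (hD1 w hw 1 h11).1
    · intro w hw
      obtain ⟨Φ, hΦ, hwΦ, -⟩ := hloc w hw
      refine ⟨Φ.source, Φ.open_source.mem_nhds hwΦ, fun a ha b hb hab => ?_⟩
      exact Φ.injOn ha.1 hb.1 (by rw [hΦ, hΦ]; exact hab)
    · intro w hw U hU
      obtain ⟨Φ, hΦ, hwΦ, -⟩ := hloc w hw
      obtain ⟨U', hU', hst⟩ := hstab w hw
      have h1 : Φ '' (U ∩ U') ∈ 𝓝 (Φ w) := by
        rw [← Φ.map_nhds_eq hwΦ]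
        exact image_mem_map (inter_mem hU hU')
      rw [mem_nhdsWithin_iff_exists_mem_nhds_inter]
      refine ⟨_, by rw [hΦ] at h1; exact h1, ?_⟩
      rintro _ ⟨⟨u, hu, rfl⟩, huM⟩
      rw [hΦ] at huM ⊢
      exact ⟨u, ⟨hu.1, hst u hu.2 huM⟩, rfl⟩
    · intro w hw hww
      have h0 : (φ 1 (x, (0 : E n))).1 = x := by
        obtain ⟨c, v, hg, hc0, hv0⟩ := h0D
        have hg' := (geod_iff h.smooth).1 hg
        have h1 := hflow (fun _ => x) (fun _ => 0) ⟨fun t _ => hx, fun t _ =>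
          hasDerivWithinAt_const _ _ _, fun t _ => by
            have : gacc L x (0 : E n) = 0 := by
              have := e4_gacc_smul L x 0 0
              simpa using this
            rw [this]
            exact hasDerivWithinAt_const _ _ _⟩ rfl 1 h11
        rw [h1]
      simp only [h0] at hww
      by_contra hne
      have hg := hgeoD w hw
      have hv0 : (fun t => (φ t (x, w)).2) 0 = w := by simp [hφ0]
      have hc0 : (fun t => (φ t (x, w)).1) 0 = x := by simp [hφ0]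
      set s : ℝ := Real.exp (L x) * ‖w‖ with hs
      have hs0 : 0 < s := mul_pos (Real.exp_pos _) (norm_pos_iff.2 hne)
      have hss : s ^ 2 = Real.exp (2 * L ((fun t => (φ t (x, w)).1) 0)) *
          ‖(fun t => (φ t (x, w)).2) 0‖ ^ 2 := by
        rw [hv0, hc0, hs, mul_pow, ← Real.exp_nat_mul]
        norm_num
      refine h.loop s _ _ hs0 (e4_ugeod h.smooth hg hs0 hss) ?_
      simp only [div_self hs0.ne', zero_div, hφ0]
      exact hww
  refine ⟨fun w => (φ 1 (x, w)).1, Function.invFunOn (fun w : E n => (φ 1 (x, w)).1)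
    (expDom (cG L) x), ?_, hes.contDiffOn, ?_, ?_, ?_⟩
  · intro c v hg hc0
    have h1 := hflow c v ((geod_iff h.smooth).1 hg) hc0 1 h11
    simp only [h1]
  · intro y hy
    have hly : Function.invFunOn (fun w : E n => (φ 1 (x, w)).1) (expDom (cG L) x) y ∈
        expDom (cG L) x := hbij.surjOn.mapsTo_invFunOn hy
    have hey := hbij.invOn_invFunOn.2 hy
    simp only at hey
    set w := Function.invFunOn (fun w : E n => (φ 1 (x, w)).1) (expDom (cG L) x) y with hw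
    obtain ⟨Φ, hΦ, hwΦ, hΦs⟩ := hloc w hly
    obtain ⟨U', hU', hst⟩ := hstab w hly
    rw [hey] at hΦs
    have hsy : Φ.symm y = w := by
      rw [← hey, ← hΦ, Φ.left_inv hwΦ]
    refine hΦs.contDiffWithinAt.congr_of_eventuallyEq ?_ (by rw [hsy])
    have hyt : y ∈ Φ.target := by
      have := Φ.map_source hwΦ
      rwa [hΦ, hey] at this
    have e1 : ∀ᶠ y' in 𝓝 y, Φ.symm y' ∈ U' := by
      have := (Φ.continuousAt_symm hyt)
      rw [ContinuousAt, hsy] at this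
      exact this hU'
    have e2 : ∀ᶠ y' in 𝓝 y, y' ∈ Φ.target := Φ.open_target.mem_nhds hyt
    filter_upwards [nhdsWithin_le_nhds e1, nhdsWithin_le_nhds e2, self_mem_nhdsWithin] with
      y' h1 h2 h3
    have h4 : (φ 1 (x, Φ.symm y')).1 = y' := by
      rw [← hΦ, Φ.right_inv h2]
    have h5 : Φ.symm y' ∈ expDom (cG L) x := hst _ h1 (by rw [h4]; exact h3)
    have h6 := hbij.invOn_invFunOn.1 h5
    simp only [h4] at h6
    exact h6
  · intro y hy
    exact ⟨hbij.surjOn.mapsTo_invFunOn hy, hbij.invOn_invFunOn.2 hy⟩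
  · intro w hw
    exact hbij.invOn_invFunOn.1 hw

end SN
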