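import Pool.Agent.helper71.SN.Defs
import Pool.Agent.helper18.KBR.Flow

/-! # SN-FL1: the flow of a compactly supported smooth vector field is smooth

Existence: `KBRA.exists_flow`.  The derivative in `z` is the solution `A` of the linearised equation
(quadratic Taylor estimate and Gronwall).  Smoothness of `φ t` by induction on the order: the pair
`(φ, A)` is the flow of a smooth compactly supported vector field on `V × (V →L V)` (cut off in the second
variable).  Joint smoothness: `(s, z) ↦ (s, φ s z)` is the time one map of the field `(0, s X z)`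
(cut off in `s`). -/

noncomputable section

namespace SN

open KBR Set Filter Topology
open scoped ContDiff RealInnerProductSpace NNReal

namespace FL1

/-- `φ` is the flow of `X` -/
def IsFlow {V : Type} [NormedAddCommGroup V] [NormedSpace ℝ V] (X : V → V) (φ : ℝ → V → V) : Prop :=
  (∀ z, φ 0 z = z) ∧ ∀ t z, HasDerivAt (fun s => φ s z) (X (φ t z)) t

variable {V : Type} [NormedAddCommGroup V] [NormedSpace ℝ V]

theorem lip [FiniteDimensional ℝ V] {X : V → V} (hX : ContDiff ℝ ∞ X) (hc : HasCompactSupport X) :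
    ∃ K : ℝ≥0, LipschitzWith K X :=
  ContDiff.lipschitzWith_of_hasCompactSupport hc hX (by simp)

theorem exists_isFlow [FiniteDimensional ℝ V] {X : V → V} (hX : ContDiff ℝ ∞ X)
    (hc : HasCompactSupport X) : ∃ φ, IsFlow X φ := by
  have : CompleteSpace V := FiniteDimensional.complete ℝ V
  obtain ⟨K, hK⟩ := lip hX hc
  obtain ⟨C, hC⟩ := hc.exists_bound_of_continuous hX.continuous
  obtain ⟨φ, h0, -, h1, -, -⟩ := KBRA.exists_flow X (hX.of_le (by exact_mod_cast le_top)) K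
    (Real.toNNReal C) hK (fun z => by
      rw [← NNReal.coe_le_coe]
      exact (hC z).trans (Real.le_coe_toNNReal C))
  exact ⟨φ, h0, h1⟩

theorem flow_lip [CompleteSpace V] {X : V → V} {φ : ℝ → V → V} (hφ : IsFlow X φ) {K : ℝ≥0}
    (hK : LipschitzWith K X) (t : ℝ) :
    LipschitzWith (Real.toNNReal (Real.exp (K * |t|))) (φ t) := by
  refine LipschitzWith.of_dist_le_mul fun z w => ?_
  have h1 := KBRA.curve_dist' hK (fun t => hφ.2 t z) (fun t => hφ.2 t w) t
  rw [hφ.1, hφ.1] at h1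
  rw [Real.coe_toNNReal _ (Real.exp_pos _).le, mul_comm]
  exact h1

/-- quadratic Taylor estimate -/
theorem taylor [FiniteDimensional ℝ V] {X : V → V} (hX : ContDiff ℝ ∞ X) (hc : HasCompactSupport X) :
    ∃ L : ℝ, 0 ≤ L ∧ ∀ a b, ‖X b - X a - fderiv ℝ X a (b - a)‖ ≤ L * ‖b - a‖ ^ 2 := by
  obtain ⟨L, hL⟩ := ContDiff.lipschitzWith_of_hasCompactSupport (hc.fderiv ℝ)
    (hX.fderiv_right (m := ∞) (by simp)) (by simp)
  refine ⟨L, L.2, fun a b => ?_⟩
  have h := Convex.norm_image_sub_le_of_norm_fderiv_le' (f := X) (φ := fderiv ℝ X a)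
    (s := segment ℝ a b) (C := L * ‖b - a‖) (x := a) (y := b)
    (fun x _ => (hX.differentiable (by simp)) x)
    (fun x hx => by
      have h1 := hL.dist_le_mul x a
      rw [dist_eq_norm, dist_eq_norm] at h1
      refine h1.trans (mul_le_mul_of_nonneg_left ?_ L.2)
      have h2 := norm_sub_le_of_mem_segment hx
      rwa [norm_sub_rev b a] at *)
    (convex_segment a b) (left_mem_segment ℝ a b) (right_mem_segment ℝ a b)
  calc ‖X b - X a - fderiv ℝ X a (b - a)‖ ≤ L * ‖b - a‖ * ‖b - a‖ := h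
    _ = L * ‖b - a‖ ^ 2 := by ring

theorem curve_c1 {X : V → V} (hX : Continuous X) {φ : ℝ → V → V} (hφ : IsFlow X φ) (z : V) :
    ContDiff ℝ 1 (fun t => φ t z) := by
  rw [contDiff_one_iff_deriv]
  refine ⟨fun t => (hφ.2 t z).differentiableAt, ?_⟩
  have h1 : deriv (fun t => φ t z) = fun t => X (φ t z) := funext fun t => (hφ.2 t z).deriv
  rw [h1]
  refine hX.comp ?_
  exact continuous_iff_continuousAt.2 fun t => (hφ.2 t z).continuousAt

/-- the linearised equation -/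
theorem exists_lin [FiniteDimensional ℝ V] {X : V → V} (hX : ContDiff ℝ ∞ X) (hc : HasCompactSupport X)
    {φ : ℝ → V → V} (hφ : IsFlow X φ) (z : V) :
    ∃ A : ℝ → (V →L[ℝ] V), A 0 = ContinuousLinearMap.id ℝ V ∧
      ∀ t, HasDerivAt A ((fderiv ℝ X (φ t z)).comp (A t)) t := by
  have : CompleteSpace V := FiniteDimensional.complete ℝ V
  obtain ⟨K, hK⟩ := lip hX hc
  have hDX : ContDiff ℝ ∞ (fderiv ℝ X) := hX.fderiv_right (m := ∞) (by simp)
  refine Ton.global_exists (W := V →L[ℝ] V) (fun t A => (fderiv ℝ X (φ t z)).comp A) K (fun t => ?_) ?_ 0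
    (ContinuousLinearMap.id ℝ V)
  · refine LipschitzWith.of_dist_le_mul fun A B => ?_
    rw [dist_eq_norm, dist_eq_norm, ← ContinuousLinearMap.comp_sub]
    refine (ContinuousLinearMap.opNorm_comp_le _ _).trans ?_
    exact mul_le_mul_of_nonneg_right (norm_fderiv_le_of_lipschitz ℝ hK) (norm_nonneg _)
  · have h1 : ContDiff ℝ 1 (fun p : (V →L[ℝ] V) × ℝ => fderiv ℝ X (φ p.2 z)) :=
      (hDX.of_le (by exact_mod_cast le_top)).comp ((curve_c1 hX.continuous hφ z).comp contDiff_snd)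
    exact h1.clm_comp contDiff_fst

/-- comparison of the flow and its linearisation, `t ≥ 0` -/
theorem lin_est_nonneg [CompleteSpace V] {X : V → V} {φ : ℝ → V → V} (hφ : IsFlow X φ) {K : ℝ≥0}
    (hK : LipschitzWith K X) {L : ℝ} (hL0 : 0 ≤ L)
    (hL : ∀ a b, ‖X b - X a - fderiv ℝ X a (b - a)‖ ≤ L * ‖b - a‖ ^ 2) {z : V}
    {A : ℝ → (V →L[ℝ] V)} (hA0 : A 0 = ContinuousLinearMap.id ℝ V)
    (hA : ∀ t, HasDerivAt A ((fderiv ℝ X (φ t z)).comp (A t)) t) {T : ℝ} (hT : 0 ≤ T) (w : V) :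
    ‖φ T w - φ T z - A T (w - z)‖ ≤
      gronwallBound 0 (K + 1) (L * (Real.exp (K * T)) ^ 2 * ‖w - z‖ ^ 2) T := by
  set ε : ℝ := L * (Real.exp (K * T)) ^ 2 * ‖w - z‖ ^ 2 with hε
  have hcont : ∀ u : V, Continuous (fun t => φ t u) := fun u =>
    continuous_iff_continuousAt.2 fun t => (hφ.2 t u).continuousAt
  have hAcont : Continuous A := continuous_iff_continuousAt.2 fun t => (hA t).continuousAt
  have hAw : ∀ t, HasDerivAt (fun t => A t (w - z)) (fderiv ℝ X (φ t z) (A t (w - z))) t := by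
    intro t
    have h1 := (ContinuousLinearMap.apply ℝ V (w - z)).hasFDerivAt (x := A t)
    have h2 := h1.comp_hasDerivAt t (hA t)
    exact h2
  have h := dist_le_of_approx_trajectories_ODE (v := fun t x => fderiv ℝ X (φ t z) x) (K := K + 1)
    (f := fun t => φ t w - φ t z) (g := fun t => A t (w - z)) (a := 0) (b := T)
    (f' := fun t => X (φ t w) - X (φ t z)) (g' := fun t => fderiv ℝ X (φ t z) (A t (w - z)))
    (εf := ε) (εg := 0) (δ := 0)
    (fun t => by
      have h1 : ‖fderiv ℝ X (φ t z)‖₊ ≤ K + 1 := by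
        have h2 : ‖fderiv ℝ X (φ t z)‖ ≤ K := norm_fderiv_le_of_lipschitz ℝ hK
        have h3 : ‖fderiv ℝ X (φ t z)‖₊ ≤ K := h2
        exact h3.trans (by simp)
      exact (fderiv ℝ X (φ t z)).lipschitz.weaken h1)
    (((hcont w).sub (hcont z)).continuousOn)
    (fun t _ => ((hφ.2 t w).sub (hφ.2 t z)).hasDerivWithinAt)
    (fun t ht => by
      rw [dist_eq_norm]
      refine (hL (φ t z) (φ t w)).trans ?_
      have h1 := KBRA.curve_dist hK (fun t => hφ.2 t w) (fun t => hφ.2 t z) ht.1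
      rw [dist_eq_norm, dist_eq_norm, hφ.1, hφ.1] at h1
      have h2 : Real.exp (K * t) ≤ Real.exp (K * T) :=
        Real.exp_le_exp.2 (mul_le_mul_of_nonneg_left ht.2.le K.2)
      have h3 : ‖φ t w - φ t z‖ ≤ ‖w - z‖ * Real.exp (K * T) :=
        h1.trans (mul_le_mul_of_nonneg_left h2 (norm_nonneg _))
      have h4 : ‖φ t w - φ t z‖ ^ 2 ≤ (‖w - z‖ * Real.exp (K * T)) ^ 2 :=
        pow_le_pow_left₀ (norm_nonneg _) h3 2
      calc L * ‖φ t w - φ t z‖ ^ 2 ≤ L * (‖w - z‖ * Real.exp (K * T)) ^ 2 :=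
            mul_le_mul_of_nonneg_left h4 hL0
        _ = ε := by rw [hε]; ring)
    ((hAcont.clm_apply continuous_const).continuousOn)
    (fun t _ => (hAw t).hasDerivWithinAt)
    (fun t _ => by rw [dist_self])
    (by simp [hφ.1, hA0]) T ⟨hT, le_rfl⟩
  rw [dist_eq_norm, add_zero, sub_zero] at h
  exact h

theorem gb_lin (K ε x : ℝ) (hK : 0 < K) :
    gronwallBound 0 K ε x = ε * ((Real.exp (K * x) - 1) / K) := by
  rw [gronwallBound_of_K_ne_0 hK.ne']
  ring

theorem isFlow_neg {X : V → V} {φ : ℝ → V → V} (hφ : IsFlow X φ) :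
    IsFlow (fun z => -X z) (fun t => φ (-t)) := by
  refine ⟨fun z => by simp [hφ.1], fun t z => ?_⟩
  have := (hφ.2 (-t) z).scomp t (hasDerivAt_neg t)
  simpa [Function.comp_def] using this

/-- comparison of the flow and its linearisation -/
theorem lin_est [CompleteSpace V] {X : V → V} {φ : ℝ → V → V} (hφ : IsFlow X φ) {K : ℝ≥0}
    (hK : LipschitzWith K X) {L : ℝ} (hL0 : 0 ≤ L) (hXd : Differentiable ℝ X)
    (hL : ∀ a b, ‖X b - X a - fderiv ℝ X a (b - a)‖ ≤ L * ‖b - a‖ ^ 2) {z : V}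
    {A : ℝ → (V →L[ℝ] V)} (hA0 : A 0 = ContinuousLinearMap.id ℝ V)
    (hA : ∀ t, HasDerivAt A ((fderiv ℝ X (φ t z)).comp (A t)) t) (T : ℝ) :
    ∃ C : ℝ, ∀ w, ‖φ T w - φ T z - A T (w - z)‖ ≤ C * ‖w - z‖ ^ 2 := by
  have hK1 : (0:ℝ) < (K:ℝ) + 1 := by have := K.2; linarith
  rcases le_total 0 T with hT | hT
  · refine ⟨L * (Real.exp (K * T)) ^ 2 * ((Real.exp (((K:ℝ) + 1) * T) - 1) / ((K:ℝ) + 1)), fun w => ?_⟩
    refine (lin_est_nonneg hφ hK hL0 hL hA0 hA hT w).trans (le_of_eq ?_)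
    rw [gb_lin _ _ _ hK1]
    ring
  · have hφ' := isFlow_neg hφ
    have hfd : ∀ a, fderiv ℝ (fun z => -X z) a = -fderiv ℝ X a := fun a => fderiv_neg
    have hL' : ∀ a b, ‖(fun z => -X z) b - (fun z => -X z) a - fderiv ℝ (fun z => -X z) a (b - a)‖ ≤
        L * ‖b - a‖ ^ 2 := by
      intro a b
      rw [hfd]
      have h1 : (-X b - -X a - (-fderiv ℝ X a) (b - a)) = -(X b - X a - fderiv ℝ X a (b - a)) := by
        rw [ContinuousLinearMap.neg_apply]; abel
      show ‖-X b - -X a - (-fderiv ℝ X a) (b - a)‖ ≤ _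
      rw [h1, norm_neg]
      exact hL a b
    have hA' : ∀ t, HasDerivAt (fun t => A (-t))
        ((fderiv ℝ (fun z => -X z) ((fun t => φ (-t)) t z)).comp (A (-t))) t := by
      intro t
      have h1 := (hA (-t)).scomp t (hasDerivAt_neg t)
      rw [hfd]
      have h2 : (-fderiv ℝ X ((fun t => φ (-t)) t z)).comp (A (-t)) =
          (-1 : ℝ) • (fderiv ℝ X (φ (-t) z)).comp (A (-t)) := by
        ext v
        simp
      rw [h2]
      exact h1
    refine ⟨L * (Real.exp (K * (-T))) ^ 2 * ((Real.exp (((K:ℝ) + 1) * (-T)) - 1) / ((K:ℝ) + 1)),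
      fun w => ?_⟩
    have h1 := lin_est_nonneg hφ' hK.neg hL0 hL' (A := fun t => A (-t)) (by simpa using hA0) hA'
      (T := -T) (by linarith) w
    simp only [neg_neg] at h1
    refine h1.trans (le_of_eq ?_)
    rw [gb_lin _ _ _ hK1]
    ring

theorem hasFDerivAt_flow [FiniteDimensional ℝ V] {X : V → V} (hX : ContDiff ℝ ∞ X)
    (hc : HasCompactSupport X) {φ : ℝ → V → V} (hφ : IsFlow X φ) {z : V}
    {A : ℝ → (V →L[ℝ] V)} (hA0 : A 0 = ContinuousLinearMap.id ℝ V)
    (hA : ∀ t, HasDerivAt A ((fderiv ℝ X (φ t z)).comp (A t)) t) (T : ℝ) :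
    HasFDerivAt (φ T) (A T) z := by
  have : CompleteSpace V := FiniteDimensional.complete ℝ V
  obtain ⟨K, hK⟩ := lip hX hc
  obtain ⟨L, hL0, hL⟩ := taylor hX hc
  obtain ⟨C, hC⟩ := lin_est hφ hK hL0 (hX.differentiable (by simp)) hL hA0 hA T
  rw [hasFDerivAt_iff_isLittleO]
  have h1 : (fun w => φ T w - φ T z - A T (w - z)) =O[𝓝 z] fun w => ‖w - z‖ ^ 2 := by
    refine Asymptotics.IsBigO.of_bound C (Eventually.of_forall fun w => ?_)
    rw [Real.norm_of_nonneg (by positivity)]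
    exact hC w
  refine h1.trans_isLittleO ?_
  have h2 : (fun w : V => ‖w - z‖ ^ 2) =o[𝓝 z] fun w => (w - z) := by
    rw [← Asymptotics.isLittleO_norm_right]
    have h3 : Tendsto (fun w : V => ‖w - z‖) (𝓝 z) (𝓝 0) := by
      have : Continuous (fun w : V => ‖w - z‖) := by fun_prop
      simpa using this.tendsto z
    exact (Asymptotics.isLittleO_pow_id one_lt_two).comp_tendsto h3
  exact h2

/-- the extended field, cut off in the second variable -/
theorem extended [FiniteDimensional ℝ V] {X : V → V} (hX : ContDiff ℝ ∞ X) (hc : HasCompactSupport X)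
    {R : ℝ} (hR : 0 < R) :
    ∃ Y : V × (V →L[ℝ] V) → V × (V →L[ℝ] V), ContDiff ℝ ∞ Y ∧ HasCompactSupport Y ∧
      ∀ z A, ‖A‖ ≤ R → Y (z, A) = (X z, (fderiv ℝ X z).comp A) := by
  let χ : ContDiffBump (0 : V →L[ℝ] V) := ⟨R, R + 1, hR, by linarith⟩
  have hDX : ContDiff ℝ ∞ (fderiv ℝ X) := hX.fderiv_right (m := ∞) (by simp)
  refine ⟨fun p => (χ p.2 • X p.1, χ p.2 • (fderiv ℝ X p.1).comp p.2), ?_, ?_, ?_⟩
  · have hχ : ContDiff ℝ ∞ (fun p : V × (V →L[ℝ] V) => χ p.2) := χ.contDiff.comp contDiff_snd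
    refine ContDiff.prodMk (hχ.smul (hX.comp contDiff_fst)) (hχ.smul ?_)
    exact (hDX.comp contDiff_fst).clm_comp contDiff_snd
  · refine HasCompactSupport.intro (K := tsupport X ×ˢ tsupport χ)
      (hc.isCompact.prod χ.hasCompactSupport.isCompact) ?_
    rintro ⟨z, A⟩ hzA
    by_cases hz : z ∈ tsupport X
    · have hA : A ∉ tsupport χ := fun hA => hzA ⟨hz, hA⟩
      have h1 : χ A = 0 := image_eq_zero_of_notMem_tsupport hA
      show (χ A • X z, χ A • (fderiv ℝ X z).comp A) = 0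
      rw [h1, zero_smul, zero_smul]
      rfl
    · have h1 : X z = 0 := image_eq_zero_of_notMem_tsupport hz
      have h2 : fderiv ℝ X z = 0 := by
        by_contra h3
        exact hz (support_fderiv_subset ℝ h3)
      show (χ A • X z, χ A • (fderiv ℝ X z).comp A) = 0
      rw [h1, h2, smul_zero, ContinuousLinearMap.zero_comp, smul_zero]
      rfl
  · intro z A hA
    have h1 : χ A = 1 := χ.one_of_mem_closedBall (by
      rw [Metric.mem_closedBall, dist_zero_right]; exact hA)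
    show (χ A • X z, χ A • (fderiv ℝ X z).comp A) = _
    rw [h1, one_smul, one_smul]

/-- smoothness of the time `t` maps -/
theorem contDiff_flow (k : ℕ) : ∀ (V : Type) [NormedAddCommGroup V] [NormedSpace ℝ V]
    [FiniteDimensional ℝ V] (X : V → V) (_ : ContDiff ℝ ∞ X) (_ : HasCompactSupport X)
    (φ : ℝ → V → V) (_ : IsFlow X φ) (t : ℝ), ContDiff ℝ k (φ t) := by
  induction k with
  | zero =>
    intro V _ _ _ X hX hc φ hφ t
    have : CompleteSpace V := FiniteDimensional.complete ℝ V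
    obtain ⟨K, hK⟩ := lip hX hc
    exact contDiff_zero.2 (flow_lip hφ hK t).continuous
  | succ k ih =>
    intro V _ _ _ X hX hc φ hφ t
    have : CompleteSpace V := FiniteDimensional.complete ℝ V
    obtain ⟨K, hK⟩ := lip hX hc
    have hex : ∀ z, ∃ A : ℝ → (V →L[ℝ] V), A 0 = ContinuousLinearMap.id ℝ V ∧
      ∀ t, HasDerivAt A ((fderiv ℝ X (φ t z)).comp (A t)) t := fun z => exists_lin hX hc hφ z
    choose A hA0 hA using hex
    have hD : ∀ s z, HasFDerivAt (φ s) (A z s) z := fun s z => hasFDerivAt_flow hX hc hφ (hA0 z) (hA z) s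
    set R : ℝ := Real.exp (K * (|t| + 1)) with hR
    obtain ⟨Y, hY, hYc, hYe⟩ := extended hX hc (R := R) (Real.exp_pos _)
    obtain ⟨Ψ, hΨ⟩ := exists_isFlow hY hYc
    obtain ⟨KY, hKY⟩ := lip hY hYc
    have hbd : ∀ s ∈ Ioo (-(|t| + 1)) (|t| + 1), ∀ z, ‖A z s‖ ≤ R := by
      intro s hs z
      have h1 := (flow_lip hφ hK s)
      have h2 : ‖A z s‖ ≤ ((Real.toNNReal (Real.exp (K * |s|)) : ℝ≥0) : ℝ) := by
        rw [← (hD s z).fderiv]
        exact norm_fderiv_le_of_lipschitz ℝ h1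
      rw [Real.coe_toNNReal _ (Real.exp_pos _).le] at h2
      refine h2.trans (Real.exp_le_exp.2 (mul_le_mul_of_nonneg_left ?_ K.2))
      exact abs_le.2 ⟨hs.1.le, hs.2.le⟩
    have heq : ∀ z, Ψ t (z, ContinuousLinearMap.id ℝ V) = (φ t z, A z t) := by
      intro z
      have h1 := ODE_solution_unique_of_mem_Ioo (v := fun _ => Y) (s := fun _ => univ) (K := KY)
        (f := fun s => Ψ s (z, ContinuousLinearMap.id ℝ V)) (g := fun s => (φ s z, A z s))
        (a := -(|t| + 1)) (b := |t| + 1) (t₀ := 0) (fun _ _ => hKY.lipschitzOnWith)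
        ⟨by have := abs_nonneg t; linarith, by have := abs_nonneg t; linarith⟩
        (fun s _ => ⟨hΨ.2 s _, trivial⟩)
        (fun s hs => by
          refine ⟨?_, trivial⟩
          rw [hYe _ _ (hbd s hs z)]
          exact (hφ.2 s z).prodMk (hA z s))
        (by simp only [hΨ.1, hφ.1, hA0])
      exact h1 (x := t) ⟨by have := neg_abs_le t; linarith, by have := le_abs_self t; linarith⟩
    have hsucc : ((k + 1 : ℕ) : WithTop ℕ∞) = (k : WithTop ℕ∞) + 1 := by push_cast; rfl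
    rw [hsucc, contDiff_succ_iff_fderiv]
    refine ⟨fun z => (hD t z).differentiableAt, by simp, ?_⟩
    have h2 : fderiv ℝ (φ t) = fun z => (Ψ t (z, ContinuousLinearMap.id ℝ V)).2 := by
      funext z
      rw [heq z]
      exact (hD t z).fderiv
    rw [h2]
    have h3 := ih (V × (V →L[ℝ] V)) Y hY hYc Ψ hΨ t
    exact contDiff_snd.comp (h3.comp (contDiff_id.prodMk contDiff_const))

theorem contDiff_flow_joint [FiniteDimensional ℝ V] {X : V → V} (hX : ContDiff ℝ ∞ X)
    (hc : HasCompactSupport X) {φ : ℝ → V → V} (hφ : IsFlow X φ) :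
    ContDiff ℝ ∞ (fun p : ℝ × V => φ p.1 p.2) := by
  have : CompleteSpace V := FiniteDimensional.complete ℝ V
  rw [contDiff_iff_contDiffAt]
  rintro ⟨t₀, z₀⟩
  let χ : ContDiffBump (0 : ℝ) := ⟨|t₀| + 1, |t₀| + 2, by positivity, by linarith⟩
  set Y : ℝ × V → ℝ × V := fun p => (0, (χ p.1 * p.1) • X p.2) with hYdef
  have hχ : ContDiff ℝ ∞ (fun p : ℝ × V => χ p.1 * p.1) := (χ.contDiff.comp contDiff_fst).mul contDiff_fst
  have hY : ContDiff ℝ ∞ Y := contDiff_const.prodMk (hχ.smul (hX.comp contDiff_snd))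
  have hYc : HasCompactSupport Y := by
    refine HasCompactSupport.intro (K := tsupport χ ×ˢ tsupport X)
      (χ.hasCompactSupport.isCompact.prod hc.isCompact) ?_
    rintro ⟨s, z⟩ hsz
    by_cases hs : s ∈ tsupport χ
    · have hz : z ∉ tsupport X := fun hz => hsz ⟨hs, hz⟩
      have h1 : X z = 0 := image_eq_zero_of_notMem_tsupport hz
      show ((0 : ℝ), (χ s * s) • X z) = 0
      rw [h1, smul_zero]; rfl
    · have h1 : χ s = 0 := image_eq_zero_of_notMem_tsupport hs
      show ((0 : ℝ), (χ s * s) • X z) = 0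
      rw [h1, zero_mul, zero_smul]; rfl
  obtain ⟨Θ, hΘ⟩ := exists_isFlow hY hYc
  obtain ⟨KY, hKY⟩ := lip hY hYc
  have heq : ∀ s z, Θ 1 (s, z) = (s, φ (χ s * s) z) := by
    intro s z
    have h1 : ∀ τ, HasDerivAt (fun τ => ((s, φ (χ s * s * τ) z) : ℝ × V)) (Y (s, φ (χ s * s * τ) z)) τ := by
      intro τ
      have h2 : HasDerivAt (fun τ => χ s * s * τ) (χ s * s) τ := by
        simpa using (hasDerivAt_id τ).const_mul (χ s * s)
      have h3 := (hφ.2 (χ s * s * τ) z).scomp τ h2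
      exact (hasDerivAt_const τ s).prodMk h3
    have h4 := KBRA.curve_unique hKY (fun τ => hΘ.2 τ (s, z)) h1 (t₀ := 0) (by
      simp [hΘ.1, hφ.1])
    have h5 := congrFun h4 1
    simpa using h5
  have hsm : ContDiff ℝ ∞ (Θ 1) := by
    rw [contDiff_infty]
    intro n
    exact contDiff_flow n (ℝ × V) Y hY hYc Θ hΘ 1
  have h6 : ContDiffAt ℝ ∞ (fun p : ℝ × V => (Θ 1 p).2) (t₀, z₀) :=
    (contDiff_snd.comp hsm).contDiffAt
  refine h6.congr_of_eventuallyEq ?_
  have h7 : ∀ᶠ p : ℝ × V in 𝓝 (t₀, z₀), p.1 ∈ Metric.ball (0:ℝ) (|t₀| + 1) := by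
    have h8 : ContinuousAt (fun p : ℝ × V => p.1) (t₀, z₀) := continuousAt_fst
    refine h8.eventually (Metric.isOpen_ball.mem_nhds ?_)
    rw [Metric.mem_ball, dist_zero_right, Real.norm_eq_abs]
    linarith
  filter_upwards [h7] with p hp
  obtain ⟨s, z⟩ := p
  have h9 : χ s = 1 := χ.one_of_mem_closedBall (Metric.ball_subset_closedBall hp)
  rw [heq, h9, one_mul]

end FL1

variable {n : ℕ}

/-- SN-FL1: the flow of a compactly supported smooth vector field is smooth -/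
theorem smooth_flow {V : Type} [NormedAddCommGroup V] [NormedSpace ℝ V] [FiniteDimensional ℝ V]
    (X : V → V) (hX : ContDiff ℝ ∞ X) (hc : HasCompactSupport X) :
    ∃ φ : ℝ → V → V, (∀ z, φ 0 z = z) ∧
      (∀ t z, HasDerivAt (fun s => φ s z) (X (φ t z)) t) ∧
      ContDiff ℝ ∞ (fun p : ℝ × V => φ p.1 p.2) ∧
      (∀ t z ζ, HasDerivAt (fun s => fderiv ℝ (φ s) z ζ)
        (fderiv ℝ X (φ t z) (fderiv ℝ (φ t) z ζ)) t) ∧
      (∀ (T : ℝ) (c : ℝ → V), (∀ t ∈ Icc 0 T, HasDerivWithinAt c (X (c t)) (Icc 0 T) t) →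
        ∀ t ∈ Icc 0 T, c t = φ t (c 0)) := by
  have : CompleteSpace V := FiniteDimensional.complete ℝ V
  obtain ⟨φ, hφ⟩ := FL1.exists_isFlow hX hc
  obtain ⟨K, hK⟩ := FL1.lip hX hc
  refine ⟨φ, hφ.1, hφ.2, FL1.contDiff_flow_joint hX hc hφ, ?_, ?_⟩
  · intro t z ζ
    obtain ⟨A, hA0, hA⟩ := FL1.exists_lin hX hc hφ z
    have hD : ∀ s, fderiv ℝ (φ s) z = A s := fun s => (FL1.hasFDerivAt_flow hX hc hφ hA0 hA s).fderiv
    simp only [hD]
    have h1 := (ContinuousLinearMap.apply ℝ V ζ).hasFDerivAt (x := A t)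
    exact h1.comp_hasDerivAt t (hA t)
  · intro T c hcv t ht
    have h1 := ODE_solution_unique (v := fun _ => X) (K := K) (f := c) (g := fun s => φ s (c 0))
      (a := 0) (b := T) (fun _ => hK) (fun s hs => (hcv s hs).continuousWithinAt)
      (fun s hs => by
        refine (hcv s ⟨hs.1, hs.2.le⟩).mono_of_mem_nhdsWithin ?_
        exact Icc_mem_nhdsGE_of_mem hs)
      (continuous_iff_continuousAt.2 fun s => (hφ.2 s (c 0)).continuousAt).continuousOn
      (fun s _ => (hφ.2 s (c 0)).hasDerivWithinAt)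
      (by rw [hφ.1])
    exact h1 ht

end SN
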