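import Pool.Agent.helper71.SN.Defs2

/-! SN-G2 -/

noncomputable section

namespace SN

open KBR Set Filter Topology
open scoped ContDiff RealInnerProductSpace

variable {n : ℕ}

theorem NN_eq : NN n = ⋃ i : Fin n, ⋂ j : Fin n, ⋂ k : Fin n,
    {x : E n | j ≠ i → k ≠ i → |x j| = |x k| ∧ |x i| ≤ |x j|} := by
  ext x
  simp only [NN, Set.mem_ofPred_eq, mem_iUnion, mem_iInter]
  constructor
  · rintro ⟨i, m, h1, h2⟩
    exact ⟨i, fun j k hj hk => ⟨(h2 j hj).trans (h2 k hk).symm, h1.trans (h2 j hj).ge⟩⟩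
  · rintro ⟨i, h⟩
    by_cases hj : ∃ j, j ≠ i
    · obtain ⟨j, hj⟩ := hj
      exact ⟨i, |x j|, (h j j hj hj).2, fun k hk => (h k j hk hj).1⟩
    · push Not at hj
      exact ⟨i, |x i|, le_rfl, fun k hk => absurd (hj k) hk⟩

theorem NN_closed : IsClosed (NN n) := by
  rw [NN_eq]
  refine isClosed_iUnion_of_finite fun i => isClosed_iInter fun j => isClosed_iInter fun k => ?_
  by_cases hj : j = i
  · have : {x : E n | j ≠ i → k ≠ i → |x j| = |x k| ∧ |x i| ≤ |x j|} = univ := by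
      ext x; simp [hj]
    rw [this]; exact isClosed_univ
  by_cases hk : k = i
  · have : {x : E n | j ≠ i → k ≠ i → |x j| = |x k| ∧ |x i| ≤ |x j|} = univ := by
      ext x; simp [hk]
    rw [this]; exact isClosed_univ
  · have hc : ∀ l : Fin n, Continuous fun x : E n => |x l| := fun l =>
      (EuclideanSpace.proj (𝕜 := ℝ) l).continuous.abs
    have : {x : E n | j ≠ i → k ≠ i → |x j| = |x k| ∧ |x i| ≤ |x j|} =
        {x : E n | |x j| = |x k|} ∩ {x : E n | |x i| ≤ |x j|} := by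
      ext x; simp [hj, hk]
    rw [this]
    exact (isClosed_eq (hc j) (hc k)).inter (isClosed_le (hc i) (hc j))

theorem NN_smul {x : E n} (hx : x ∈ NN n) (a : ℝ) : a • x ∈ NN n := by
  obtain ⟨i, m, h1, h2⟩ := hx
  refine ⟨i, |a| * m, ?_, fun j hj => ?_⟩
  · rw [PiLp.smul_apply, smul_eq_mul, abs_mul]
    exact mul_le_mul_of_nonneg_left h1 (abs_nonneg a)
  · rw [PiLp.smul_apply, smul_eq_mul, abs_mul, h2 j hj]

/-- SN-G2 -/
theorem exists_psi (n : ℕ) : ∃ (ψ : E n → ℝ) (B : ℝ), Psi ψ B := by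
  have hopen : IsOpen ((NN n)ᶜ) := (NN_closed (n := n)).isOpen_compl
  obtain ⟨f, hsupp, hf, hrange⟩ := hopen.exists_contDiff_support_eq (n := ⊤)
  have hf' : ContDiff ℝ ∞ f := hf
  have h01 : ∀ x, 0 ≤ f x ∧ f x ≤ 1 := fun x => hrange (mem_range_self x)
  have hψ : ContDiff ℝ ∞ fun x => 1 - f x := contDiff_const.sub hf'
  have hd1 : ContDiff ℝ ∞ (fderiv ℝ fun x => 1 - f x) := hψ.fderiv_right le_rfl
  have hd2 : ContDiff ℝ ∞ (fderiv ℝ (fderiv ℝ fun x => 1 - f x)) := hd1.fderiv_right le_rfl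
  have hbd : ∀ g : E n → ℝ, Continuous g → ∃ B, ∀ x ∈ Metric.closedBall (0 : E n) 1, g x ≤ B := by
    intro g hg
    obtain ⟨B, hB⟩ := (isCompact_closedBall (0 : E n) 1).bddAbove_image hg.continuousOn
    exact ⟨B, fun x hx => hB (mem_image_of_mem g hx)⟩
  obtain ⟨B1, hB1⟩ := hbd _ hd1.continuous.norm
  obtain ⟨B2, hB2⟩ := hbd _ ((continuous_norm (E := E n →L[ℝ] E n →L[ℝ] ℝ)).comp hd2.continuous)
  refine ⟨fun x => 1 - f x, max 1 (max B1 B2), hψ, fun x => ?_, fun x => ?_, fun x => ?_,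
    le_max_left _ _, fun x hx => ?_, fun x hx => ?_⟩
  · linarith [(h01 x).2]
  · linarith [(h01 x).1]
  · have h1 : (1 - f x = 1) ↔ f x = 0 := by constructor <;> intro h <;> linarith
    rw [h1, ← Function.notMem_support, hsupp, notMem_compl_iff]
  · exact (hB1 x (mem_closedBall_zero_iff.2 hx)).trans
      ((le_max_left _ _).trans (le_max_right _ _))
  · exact (hB2 x (mem_closedBall_zero_iff.2 hx)).trans
      ((le_max_right _ _).trans (le_max_right _ _))

end SN
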