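import Pool.Agent.helper71.SN.Defs

/-! SN-O3 -/

noncomputable section

namespace SN

open KBR Set Filter Topology
open scoped ContDiff RealInnerProductSpace

variable {n : ℕ}

/-- the case of an interval with `A > 0` inside -/
theorem O3_main {a b : ℝ} (hab : a < b) {A B C K Q Q' Q'' : ℝ → ℝ}
    (hAc : ContinuousOn A (Icc a b))
    (hA : ∀ t ∈ Ioo a b, HasDerivAt A (2 * B t) t)
    (hB : ∀ t ∈ Ioo a b, HasDerivAt B (C t - K t * A t) t)
    (hpos : ∀ t ∈ Ioo a b, 0 < A t) (hC : ∀ t ∈ Ioo a b, B t ^ 2 ≤ A t * C t)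
    (hQ1 : ∀ t ∈ Ioo a b, HasDerivAt Q (Q' t) t)
    (hQ2 : ∀ t ∈ Ioo a b, HasDerivAt Q' (Q'' t) t)
    (hQ2c : ContinuousOn Q' (Icc a b))
    (hQ : ∀ t ∈ Ioo a b, 0 ≤ Q t)
    (hsub : ∀ t ∈ Ioo a b, Q'' t + K t * Q t < 0)
    (h0 : A a = 0) (hT : A b = 0) : False := by
  set y : ℝ → ℝ := fun t => Real.sqrt (A t) with hy
  have hyc : ContinuousOn y (Icc a b) := hAc.sqrt
  have hyp : ∀ t ∈ Ioo a b, 0 < y t := fun t ht => Real.sqrt_pos.2 (hpos t ht)
  have hysq : ∀ t ∈ Ioo a b, y t ^ 2 = A t := fun t ht => Real.sq_sqrt (hpos t ht).le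
  have hyd : ∀ t ∈ Ioo a b, HasDerivAt y (B t / y t) t := by
    intro t ht
    have h1 := (hA t ht).sqrt (hpos t ht).ne'
    refine h1.congr_deriv ?_
    have h2 := hyp t ht
    change 2 * B t / (2 * y t) = B t / y t
    field_simp
  set W : ℝ → ℝ := fun t => B t / y t * Q t - y t * Q' t with hW
  have hWd : ∀ t ∈ Ioo a b, HasDerivAt W
      (((C t - K t * A t) * y t - B t * (B t / y t)) / y t ^ 2 * Q t + B t / y t * Q' t -
        (B t / y t * Q' t + y t * Q'' t)) t := by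
    intro t ht
    have h1 := hyd t ht
    have h2 := hyp t ht
    exact (((hB t ht).div h1 h2.ne').mul (hQ1 t ht)).sub (h1.mul (hQ2 t ht))
  have hWpos : ∀ t ∈ Ioo a b, 0 <
      ((C t - K t * A t) * y t - B t * (B t / y t)) / y t ^ 2 * Q t + B t / y t * Q' t -
        (B t / y t * Q' t + y t * Q'' t) := by
    intro t ht
    have h2 := hyp t ht
    have h3 := hysq t ht
    have h4 := hC t ht
    have h5 := hQ t ht
    have h6 := hsub t ht
    have e : ((C t - K t * A t) * y t - B t * (B t / y t)) / y t ^ 2 * Q t + B t / y t * Q' t -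
        (B t / y t * Q' t + y t * Q'' t) =
        (A t * C t - B t ^ 2) * Q t / y t ^ 3 - y t * (Q'' t + K t * Q t) := by
      rw [← h3]
      field_simp
      ring
    rw [e]
    have h7 : 0 ≤ (A t * C t - B t ^ 2) * Q t / y t ^ 3 :=
      div_nonneg (mul_nonneg (by linarith) h5) (by positivity)
    have h8 : 0 < y t * -(Q'' t + K t * Q t) := mul_pos h2 (by linarith)
    linarith
  have hmono : StrictMonoOn W (Ioo a b) := by
    refine strictMonoOn_of_deriv_pos (convex_Ioo a b)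
      (fun t ht => (hWd t ht).continuousAt.continuousWithinAt) ?_
    intro t ht
    rw [interior_Ioo] at ht
    rw [(hWd t ht).deriv]
    exact hWpos t ht
  -- two inner points
  set m₁ : ℝ := a + (b - a) / 3 with hm1
  set m₂ : ℝ := a + 2 * (b - a) / 3 with hm2
  have hm1m : m₁ ∈ Ioo a b := ⟨by rw [hm1]; linarith, by rw [hm1]; linarith⟩
  have hm2m : m₂ ∈ Ioo a b := ⟨by rw [hm2]; linarith, by rw [hm2]; linarith⟩
  have hm12 : m₁ < m₂ := by rw [hm1, hm2]; linarith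
  have hlt : W m₁ < W m₂ := hmono hm1m hm2m hm12
  have hPc : ContinuousOn (fun t => y t * Q' t) (Icc a b) := hyc.mul hQ2c
  have hya : y a = 0 := by simp [hy, h0]
  have hyb : y b = 0 := by simp [hy, hT]
  -- left end
  have hleft : 0 ≤ W m₁ := by
    refine le_of_forall_pos_le_add fun ε hε => ?_
    have h1 := Metric.continuousWithinAt_iff.1 (hPc a (left_mem_Icc.2 hab.le)) ε hε
    obtain ⟨δ, hδ, h2⟩ := h1
    set s₁ : ℝ := min m₁ (a + δ / 2) with hs1
    have hs1a : a < s₁ := lt_min hm1m.1 (by linarith)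
    have hs1m : s₁ ≤ m₁ := min_le_left _ _
    have hs1d : s₁ ≤ a + δ / 2 := min_le_right _ _
    obtain ⟨s, hs, hs2⟩ := exists_hasDerivAt_eq_slope y (fun t => B t / y t) hs1a
      (hyc.mono (Icc_subset_Icc le_rfl (by linarith [hm1m.2])))
      (fun t ht => hyd t ⟨ht.1, by linarith [ht.2, hm1m.2]⟩)
    have hsm : s ∈ Ioo a b := ⟨hs.1, by linarith [hs.2, hm1m.2]⟩
    have h3 : 0 < B s / y s := by
      rw [hs2, hya, sub_zero]
      exact div_pos (hyp s₁ ⟨hs1a, by linarith [hm1m.2]⟩) (by linarith)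
    have h4 := h2 (x := s) ⟨hsm.1.le, hsm.2.le⟩ (by
      rw [Real.dist_eq, abs_of_pos (by linarith [hs.1])]; linarith [hs.2])
    simp only [hya, zero_mul, dist_zero_right, Real.norm_eq_abs] at h4
    have h5 : W s < W m₁ := hmono hsm hm1m (by linarith [hs.2])
    have h6 : 0 ≤ B s / y s * Q s := mul_nonneg h3.le (hQ s hsm)
    have h7 : W s = B s / y s * Q s - y s * Q' s := rfl
    have h8 := (abs_lt.1 h4).2
    linarith
  have hright : W m₂ ≤ 0 := by
    refine le_of_forall_pos_le_add fun ε hε => ?_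
    have h1 := Metric.continuousWithinAt_iff.1 (hPc b (right_mem_Icc.2 hab.le)) ε hε
    obtain ⟨δ, hδ, h2⟩ := h1
    set s₁ : ℝ := max m₂ (b - δ / 2) with hs1
    have hs1b : s₁ < b := max_lt hm2m.2 (by linarith)
    have hs1m : m₂ ≤ s₁ := le_max_left _ _
    have hs1d : b - δ / 2 ≤ s₁ := le_max_right _ _
    obtain ⟨s, hs, hs2⟩ := exists_hasDerivAt_eq_slope y (fun t => B t / y t) hs1b
      (hyc.mono (Icc_subset_Icc (by linarith [hm2m.1]) le_rfl))
      (fun t ht => hyd t ⟨by linarith [ht.1, hm2m.1], ht.2⟩)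
    have hsm : s ∈ Ioo a b := ⟨by linarith [hs.1, hm2m.1], hs.2⟩
    have h3 : B s / y s < 0 := by
      rw [hs2, hyb, zero_sub]
      exact div_neg_of_neg_of_pos (by linarith [hyp s₁ ⟨by linarith [hm2m.1], hs1b⟩]) (by linarith)
    have h4 := h2 (x := s) ⟨hsm.1.le, hsm.2.le⟩ (by
      rw [Real.dist_eq, abs_of_neg (by linarith [hs.2])]; linarith [hs.1])
    simp only [hyb, zero_mul, dist_zero_right, Real.norm_eq_abs] at h4
    have h5 : W m₂ < W s := hmono hm2m hsm (by linarith [hs.1])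
    have h6 : B s / y s * Q s ≤ 0 := mul_nonpos_of_nonpos_of_nonneg h3.le (hQ s hsm)
    have h7 : W s = B s / y s * Q s - y s * Q' s := rfl
    have h8 := (abs_lt.1 h4).1
    linarith
  linarith

/-- SN-O3 -/
theorem od_conj {T : ℝ} {A B C K Q Q' Q'' : ℝ → ℝ}
    (hA : ∀ t ∈ Icc 0 T, HasDerivWithinAt A (2 * B t) (Icc 0 T) t)
    (hB : ∀ t ∈ Icc 0 T, HasDerivWithinAt B (C t - K t * A t) (Icc 0 T) t)
    (hA0 : ∀ t ∈ Icc 0 T, 0 ≤ A t) (hC : ∀ t ∈ Icc 0 T, B t ^ 2 ≤ A t * C t)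
    (hQ1 : ∀ t ∈ Icc 0 T, HasDerivWithinAt Q (Q' t) (Icc 0 T) t)
    (hQ2 : ∀ t ∈ Icc 0 T, HasDerivWithinAt Q' (Q'' t) (Icc 0 T) t)
    (hQ : ∀ t ∈ Icc 0 T, 0 ≤ Q t)
    (hsub : ∀ t ∈ Icc 0 T, 0 < A t → Q'' t + K t * Q t < 0)
    (h0 : A 0 = 0) (hT : A T = 0) : ∀ t ∈ Icc 0 T, A t = 0 := by
  intro t ht
  by_contra hne
  have hAt : 0 < A t := lt_of_le_of_ne (hA0 t ht) (Ne.symm hne)
  have hAc : ContinuousOn A (Icc 0 T) := fun s hs => (hA s hs).continuousWithinAt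
  have hQc : ContinuousOn Q' (Icc 0 T) := fun s hs => (hQ2 s hs).continuousWithinAt
  -- last zero before t
  have hL : IsCompact (Icc 0 t ∩ A ⁻¹' {0}) := by
    refine isCompact_Icc.of_isClosed_subset ?_ inter_subset_left
    exact (hAc.mono (Icc_subset_Icc le_rfl ht.2)).preimage_isClosed_of_isClosed isClosed_Icc
      isClosed_singleton
  have hR : IsCompact (Icc t T ∩ A ⁻¹' {0}) := by
    refine isCompact_Icc.of_isClosed_subset ?_ inter_subset_left
    exact (hAc.mono (Icc_subset_Icc ht.1 le_rfl)).preimage_isClosed_of_isClosed isClosed_Icc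
      isClosed_singleton
  obtain ⟨a, ha⟩ := hL.exists_isGreatest ⟨0, ⟨le_rfl, ht.1⟩, h0⟩
  obtain ⟨b, hb⟩ := hR.exists_isLeast ⟨T, ⟨ht.2, le_rfl⟩, hT⟩
  have ha0 : A a = 0 := ha.1.2
  have hb0 : A b = 0 := hb.1.2
  have hat : a < t := lt_of_le_of_ne ha.1.1.2 (fun h => by rw [h] at ha0; linarith)
  have htb : t < b := lt_of_le_of_ne hb.1.1.1 (fun h => by rw [← h] at hb0; linarith)
  have hsubs : Ioo a b ⊆ Ioo 0 T := fun s hs => ⟨by linarith [hs.1, ha.1.1.1], by linarith [hs.2, hb.1.1.2]⟩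
  have hcl : Icc a b ⊆ Icc 0 T := Icc_subset_Icc ha.1.1.1 hb.1.1.2
  have hpos : ∀ s ∈ Ioo a b, 0 < A s := by
    intro s hs
    refine lt_of_le_of_ne (hA0 s (Ioo_subset_Icc_self (hsubs hs))) (fun h => ?_)
    rcases le_total s t with h1 | h1
    · have := ha.2 ⟨⟨(hsubs hs).1.le, h1⟩, h.symm⟩
      linarith [hs.1]
    · have := hb.2 ⟨⟨h1, (hsubs hs).2.le⟩, h.symm⟩
      linarith [hs.2]
  have hn : ∀ s ∈ Ioo a b, Icc 0 T ∈ 𝓝 s := fun s hs => Icc_mem_nhds (hsubs hs).1 (hsubs hs).2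
  have hm : ∀ s ∈ Ioo a b, s ∈ Icc 0 T := fun s hs => Ioo_subset_Icc_self (hsubs hs)
  exact O3_main (hat.trans htb) (hAc.mono hcl) (fun s hs => (hA s (hm s hs)).hasDerivAt (hn s hs))
    (fun s hs => (hB s (hm s hs)).hasDerivAt (hn s hs)) hpos (fun s hs => hC s (hm s hs))
    (fun s hs => (hQ1 s (hm s hs)).hasDerivAt (hn s hs))
    (fun s hs => (hQ2 s (hm s hs)).hasDerivAt (hn s hs)) (hQc.mono hcl)
    (fun s hs => hQ s (hm s hs)) (fun s hs => hsub s (hm s hs) (hpos s hs)) ha0 hb0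

end SN
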