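import Pool.Agent.helper71.SN.J1
import Pool.Agent.helper71.SN.O3

/-! SN-J2 -/

noncomputable section

namespace SN

open KBR Set Filter Topology
open scoped ContDiff RealInnerProductSpace

variable {n : ℕ}

theorem j2_inner_grad (L : E n → ℝ) (x u : E n) : ⟪gradient L x, u⟫ = fderiv ℝ L x u := by
  unfold gradient
  exact InnerProductSpace.toDual_symm_apply

theorem j2_diffL {L : E n → ℝ} (hL : ContDiff ℝ ∞ L) : Differentiable ℝ L :=
  hL.differentiable (by simp)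

theorem j2_diffD {L : E n → ℝ} (hL : ContDiff ℝ ∞ L) : Differentiable ℝ (fderiv ℝ L) :=
  (hL.fderiv_right (m := 1) (by norm_cast)).differentiable (by simp)

theorem j2_diffG {L : E n → ℝ} (hL : ContDiff ℝ ∞ L) : Differentiable ℝ (gradient L) := by
  have h : gradient L = fun x => (InnerProductSpace.toDual ℝ (E n)).symm (fderiv ℝ L x) := rfl
  rw [h]
  exact (InnerProductSpace.toDual ℝ (E n)).symm.toContinuousLinearEquiv.differentiable.comp (j2_diffD hL)

theorem j2_inner_dgrad {L : E n → ℝ} (hL : ContDiff ℝ ∞ L) (x j u : E n) :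
    ⟪fderiv ℝ (gradient L) x j, u⟫ = fderiv ℝ (fderiv ℝ L) x j u := by
  have h1 : HasFDerivAt (fun y => ⟪gradient L y, u⟫)
      ((innerSL ℝ u).comp (fderiv ℝ (gradient L) x)) x := by
    have h := (innerSL ℝ u).hasFDerivAt.comp x ((j2_diffG hL) x).hasFDerivAt
    refine h.congr_of_eventuallyEq (Filter.Eventually.of_forall fun y => ?_)
    simp
  have h2 : HasFDerivAt (fun y => ⟪gradient L y, u⟫)
      ((fderiv ℝ (fderiv ℝ L) x).flip u) x := by
    have h := ((j2_diffD hL) x).hasFDerivAt.clm_apply (hasFDerivAt_const u x)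
    refine (h.congr_fderiv ?_).congr_of_eventuallyEq (Filter.Eventually.of_forall fun y => j2_inner_grad L y u)
    ext w
    simp
  have h3 := h1.unique h2
  have h4 := DFunLike.congr_fun h3 j
  simp only [ContinuousLinearMap.comp_apply, innerSL_apply_apply, ContinuousLinearMap.flip_apply] at h4
  rw [real_inner_comm]
  exact h4

theorem j2_jacc {L : E n → ℝ} (hL : ContDiff ℝ ∞ L) (x v j w : E n) :
    jacc L x v j w = -(2 * (fderiv ℝ L x w + fderiv ℝ (fderiv ℝ L) x j v)) • v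
      + (-(2 * fderiv ℝ L x v)) • w + (2 * ⟪v, w⟫) • gradient L x
      + (‖v‖ ^ 2) • fderiv ℝ (gradient L) x j := by
  have h1 : HasFDerivAt (fun p : E n × E n => fderiv ℝ L p.1)
      ((fderiv ℝ (fderiv ℝ L) x).comp (ContinuousLinearMap.fst ℝ (E n) (E n))) (x, v) :=
    ((j2_diffD hL) x).hasFDerivAt.comp (x, v) hasFDerivAt_fst
  have h2 : HasFDerivAt (fun p : E n × E n => p.2) (ContinuousLinearMap.snd ℝ (E n) (E n)) (x, v) :=
    hasFDerivAt_snd
  have h3 := ((h1.clm_apply h2).const_mul 2).neg.smul h2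
  have h4 := h2.norm_sq
  have h5 : HasFDerivAt (fun p : E n × E n => gradient L p.1)
      ((fderiv ℝ (gradient L) x).comp (ContinuousLinearMap.fst ℝ (E n) (E n))) (x, v) := by
    have h : HasFDerivAt (gradient L) (fderiv ℝ (gradient L) x) ((x, v) : E n × E n).1 := ((j2_diffG hL) x).hasFDerivAt
    exact h.comp (x, v) hasFDerivAt_fst
  have h6 := h3.add (h4.smul h5)
  have h7 : HasFDerivAt (fun p : E n × E n => gacc L p.1 p.2) _ (x, v) := h6
  unfold jacc
  rw [h7.fderiv]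
  simp only [add_apply, smul_apply, ContinuousLinearMap.smulRight_apply, neg_apply, Pi.neg_apply, ContinuousLinearMap.comp_apply, ContinuousLinearMap.coe_fst',
    ContinuousLinearMap.coe_snd', ContinuousLinearMap.flip_apply, innerSL_apply_apply, smul_eq_mul, nsmul_eq_mul,
    Nat.cast_ofNat]
  module

/-- derivative of the conformal factor -/
theorem j2_dE {L : E n → ℝ} (hL : ContDiff ℝ ∞ L) {T : ℝ} {c v : ℝ → E n} (hg : CGeod L T c v) {t : ℝ} (ht : t ∈ Icc 0 T) :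
    HasDerivWithinAt (fun s => Real.exp (2 * L (c s)))
      (Real.exp (2 * L (c t)) * (2 * fderiv ℝ L (c t) (v t))) (Icc 0 T) t :=
  ((hess_along1 (hL.of_le (by norm_cast)) hg t ht).const_mul 2).exp

/-- derivative of `DL(u)` along the geodesic -/
theorem j2_dD {L : E n → ℝ} (hL : ContDiff ℝ ∞ L) {T : ℝ} {c v : ℝ → E n} (hg : CGeod L T c v) {t : ℝ} (ht : t ∈ Icc 0 T)
    {u : ℝ → E n} {u' : E n} (hu : HasDerivWithinAt u u' (Icc 0 T) t) :
    HasDerivWithinAt (fun s => fderiv ℝ L (c s) (u s))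
      (fderiv ℝ (fderiv ℝ L) (c t) (v t) (u t) + fderiv ℝ L (c t) u') (Icc 0 T) t := by
  have h1 : HasDerivWithinAt (fun s => fderiv ℝ L (c s)) (fderiv ℝ (fderiv ℝ L) (c t) (v t)) (Icc 0 T) t :=
    ((j2_diffD hL) (c t)).hasFDerivAt.comp_hasDerivWithinAt t (hg.vel t ht)
  exact h1.clm_apply hu

theorem j2_symm {L : E n → ℝ} (hL : ContDiff ℝ ∞ L) (x u w : E n) :
    fderiv ℝ (fderiv ℝ L) x u w = fderiv ℝ (fderiv ℝ L) x w u :=
  (((hL.of_le (by norm_cast) : ContDiff ℝ 2 L).contDiffAt (x := x)).isSymmSndFDerivAt (by simp)).eq u w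

/-- the pointwise identity for the derivative of `B` -/
theorem j2_alg {Ev a2 j2 l2 w2 av aj Hvv HJJ JW vW R : ℝ} (hE : Ev * a2 = 1) (hj : j2 ≠ 0)
    (hR : R = -Ev⁻¹ * (Hvv / a2 + HJJ / j2 + l2 - av ^ 2 / a2 - aj ^ 2 / j2)) :
    Ev * (w2 + 2 * av * JW + 2 * vW * aj + a2 * HJJ + Hvv * j2 + a2 * l2 * j2) =
      Ev * (w2 + av ^ 2 * j2 + aj ^ 2 * a2 + 2 * av * JW + 2 * aj * vW) - R * (Ev * j2) := by
  have hEv : Ev ≠ 0 := left_ne_zero_of_mul_eq_one hE
  have ha : a2 ≠ 0 := right_ne_zero_of_mul_eq_one hE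
  have h1 : Ev = a2⁻¹ := eq_inv_of_mul_eq_one_left hE
  subst hR
  rw [h1]
  field_simp
  ring

/-- SN-J2: no conjugate points, given a nonnegative supersolution of the Jacobi equation -/
theorem no_conj {L : E n → ℝ} (hL : ContDiff ℝ ∞ L) {T : ℝ} (hT : 0 < T) {c v : ℝ → E n}
    (hg : UGeod L T c v) {Q Q' Q'' : ℝ → ℝ}
    (hQ1 : ∀ t ∈ Icc 0 T, HasDerivWithinAt Q (Q' t) (Icc 0 T) t)
    (hQ2 : ∀ t ∈ Icc 0 T, HasDerivWithinAt Q' (Q'' t) (Icc 0 T) t)
    (hQ : ∀ t ∈ Icc 0 T, 0 ≤ Q t)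
    (hsub : ∀ t ∈ Icc 0 T, ∀ w, w ≠ 0 → ⟪v t, w⟫ = 0 → Q'' t + sec L (c t) (v t) w * Q t < 0)
    {J W : ℝ → E n} (hJ : Jac L T c v J W) (h0 : J 0 = 0) (h1 : J T = 0) :
    ∀ t ∈ Icc 0 T, J t = 0 := by
  have hgc : CGeod L T c v := hg.toCGeod
  set D := fun t => fderiv ℝ L (c t) with hD
  set H := fun t => fderiv ℝ (fderiv ℝ L) (c t) with hH
  set Ef := fun t => Real.exp (2 * L (c t)) with hEf
  have hEpos : ∀ t, 0 < Ef t := fun t => Real.exp_pos _
  have hEv : ∀ t ∈ Icc 0 T, Ef t * ‖v t‖ ^ 2 = 1 := hg.unit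
  have hdE : ∀ t ∈ Icc 0 T, HasDerivWithinAt Ef (Ef t * (2 * D t (v t))) (Icc 0 T) t := fun t ht => j2_dE hL hgc ht
  have hgr : ∀ t u, ⟪gradient L (c t), u⟫ = D t u := fun t u => j2_inner_grad L (c t) u
  have hgr' : ∀ t u, ⟪u, gradient L (c t)⟫ = D t u := fun t u => by rw [real_inner_comm]; exact hgr t u
  have hdg : ∀ t u w, ⟪w, fderiv ℝ (gradient L) (c t) u⟫ = H t u w := fun t u w => by
    rw [real_inner_comm]; exact j2_inner_dgrad hL (c t) u w
  have hsym : ∀ t u w, H t u w = H t w u := fun t u w => j2_symm hL (c t) u w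
  have hacc : ∀ t u, ⟪u, gacc L (c t) (v t)⟫ = -(2 * D t (v t)) * ⟪u, v t⟫ + ‖v t‖ ^ 2 * D t u := by
    intro t u
    unfold gacc
    rw [inner_add_right, inner_smul_right, inner_smul_right, hgr']
  have hjac : ∀ t u, ⟪u, jacc L (c t) (v t) (J t) (W t)⟫ =
      -(2 * (D t (W t) + H t (J t) (v t))) * ⟪u, v t⟫ + (-(2 * D t (v t))) * ⟪u, W t⟫ + (2 * ⟪v t, W t⟫) * D t u
        + ‖v t‖ ^ 2 * H t (J t) u := by
    intro t u
    rw [j2_jacc hL, inner_add_right, inner_add_right, inner_add_right, inner_smul_right, inner_smul_right,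
      inner_smul_right, inner_smul_right, hgr', hdg]
  -- the tangential part
  have hN2 : ∀ t ∈ Icc 0 T, HasDerivWithinAt (fun s => Ef s * ⟪v s, W s⟫ + D s (J s)) 0 (Icc 0 T) t := by
    intro t ht
    have h1 := ((hdE t ht).mul ((hgc.acc t ht).inner ℝ (hJ.d2 t ht))).add (j2_dD hL hgc ht (hJ.d1 t ht))
    refine h1.congr_deriv ?_
    rw [hjac t (v t), real_inner_comm (W t) (gacc L (c t) (v t)), hacc t (W t), real_inner_self_eq_norm_sq,
      real_inner_comm (v t) (W t)]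
    have h2 := hEv t ht
    have h3 := hsym t (v t) (J t)
    simp only [hD, hH] at h3 ⊢
    linear_combination (-fderiv ℝ (fderiv ℝ L) (c t) (J t) (v t) - fderiv ℝ L (c t) (W t)) * h2 + h3
  have hN1 : ∀ t ∈ Icc 0 T, HasDerivWithinAt (fun s => Ef s * ⟪v s, J s⟫) (Ef t * ⟪v t, W t⟫ + D t (J t)) (Icc 0 T) t := by
    intro t ht
    have h1 := (hdE t ht).mul ((hgc.acc t ht).inner ℝ (hJ.d1 t ht))
    refine h1.congr_deriv ?_
    rw [real_inner_comm (J t) (gacc L (c t) (v t)), hacc t (J t), real_inner_comm (v t) (J t)]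
    have h2 := hEv t ht
    simp only [hD] at h2 ⊢
    linear_combination (fderiv ℝ L (c t) (J t)) * h2
  have hN2c : ∀ t ∈ Icc 0 T, Ef t * ⟪v t, W t⟫ + D t (J t) = Ef 0 * ⟪v 0, W 0⟫ + D 0 (J 0) := by
    intro t ht
    have h := (convex_Icc (0 : ℝ) T).is_const_of_fderivWithin_eq_zero (𝕜 := ℝ)
      (f := fun s => Ef s * ⟪v s, W s⟫ + D s (J s))
      (fun s hs => (hN2 s hs).differentiableWithinAt)
      (fun s hs => ?_) ht (left_mem_Icc.2 hT.le)
    · exact h
    · have h1 := (hN2 s hs).hasFDerivWithinAt.fderivWithin ((uniqueDiffOn_Icc hT) s hs)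
      rw [h1]
      ext
      simp
  set m := Ef 0 * ⟪v 0, W 0⟫ + D 0 (J 0) with hm
  have hN1c : ∀ t ∈ Icc 0 T, Ef t * ⟪v t, J t⟫ - m * t = Ef 0 * ⟪v 0, J 0⟫ - m * 0 := by
    intro t ht
    have hd : ∀ s ∈ Icc 0 T, HasDerivWithinAt (fun s => Ef s * ⟪v s, J s⟫ - m * s) 0 (Icc 0 T) s := by
      intro s hs
      have h1 := (hN1 s hs).sub ((hasDerivWithinAt_id s (Icc 0 T)).const_mul m)
      refine h1.congr_deriv ?_
      rw [hN2c s hs]
      ring
    have h := (convex_Icc (0 : ℝ) T).is_const_of_fderivWithin_eq_zero (𝕜 := ℝ)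
      (f := fun s => Ef s * ⟪v s, J s⟫ - m * s)
      (fun s hs => (hd s hs).differentiableWithinAt)
      (fun s hs => ?_) ht (left_mem_Icc.2 hT.le)
    · exact h
    · have h1 := (hd s hs).hasFDerivWithinAt.fderivWithin ((uniqueDiffOn_Icc hT) s hs)
      rw [h1]
      ext
      simp
  have hm0 : m = 0 := by
    have h := hN1c T (right_mem_Icc.2 hT.le)
    rw [h0, h1] at h
    simp only [inner_zero_right, mul_zero, zero_sub, sub_zero] at h
    have h2 : m * T = 0 := by linarith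
    exact (mul_eq_zero.1 h2).resolve_right hT.ne'
  have horth : ∀ t ∈ Icc 0 T, ⟪v t, J t⟫ = 0 := by
    intro t ht
    have h := hN1c t ht
    rw [h0, hm0] at h
    simp only [inner_zero_right, mul_zero, zero_mul, sub_zero] at h
    exact (mul_eq_zero.1 h).resolve_left (hEpos t).ne'
  -- the normal part
  have hA : ∀ t ∈ Icc 0 T, HasDerivWithinAt (fun s => Ef s * ‖J s‖ ^ 2)
      (2 * (Ef t * (⟪J t, W t⟫ + D t (v t) * ‖J t‖ ^ 2))) (Icc 0 T) t := by
    intro t ht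
    have h1 := (hdE t ht).mul ((hJ.d1 t ht).norm_sq)
    refine h1.congr_deriv ?_
    ring
  have hB : ∀ t ∈ Icc 0 T, HasDerivWithinAt (fun s => Ef s * (⟪J s, W s⟫ + D s (v s) * ‖J s‖ ^ 2))
      (Ef t * ‖W t + (D t (v t)) • J t + (D t (J t)) • v t‖ ^ 2 - sec L (c t) (v t) (J t) * (Ef t * ‖J t‖ ^ 2))
      (Icc 0 T) t := by
    intro t ht
    have h1 := (hdE t ht).mul ((((hJ.d1 t ht).inner ℝ (hJ.d2 t ht))).add
      ((j2_dD hL hgc ht (hgc.acc t ht)).mul ((hJ.d1 t ht).norm_sq)))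
    refine h1.congr_deriv ?_
    have hov := horth t ht
    have hov' : ⟪J t, v t⟫ = 0 := by rw [real_inner_comm]; exact hov
    have hda : fderiv ℝ L (c t) (gacc L (c t) (v t)) = -2 * (D t (v t)) ^ 2 + ‖v t‖ ^ 2 * ‖gradient L (c t)‖ ^ 2 := by
      have h2 := hacc t (gradient L (c t))
      rw [hgr t, hgr t] at h2
      have h3 : D t (gradient L (c t)) = ‖gradient L (c t)‖ ^ 2 := by
        rw [← hgr t, real_inner_self_eq_norm_sq]
      rw [h3] at h2
      simp only [hD] at h2 ⊢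
      rw [h2]
      ring
    have hnorm : ‖W t + (D t (v t)) • J t + (D t (J t)) • v t‖ ^ 2 =
        ‖W t‖ ^ 2 + (D t (v t)) ^ 2 * ‖J t‖ ^ 2 + (D t (J t)) ^ 2 * ‖v t‖ ^ 2 + 2 * D t (v t) * ⟪J t, W t⟫
          + 2 * D t (J t) * ⟪v t, W t⟫ := by
      rw [← real_inner_self_eq_norm_sq, ← real_inner_self_eq_norm_sq, ← real_inner_self_eq_norm_sq,
        ← real_inner_self_eq_norm_sq]
      simp only [inner_add_left, inner_add_right, inner_smul_left, inner_smul_right, RCLike.conj_to_real]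
      rw [hov, hov', real_inner_comm (J t) (W t), real_inner_comm (v t) (W t)]
      ring
    simp only [Pi.add_apply, Pi.mul_apply]
    rw [hjac t (J t), hov', hda, hnorm]
    by_cases hJ0 : J t = 0
    · rw [hJ0]
      simp only [inner_zero_left, norm_zero, map_zero, zero_apply]
      rw [real_inner_self_eq_norm_sq]
      ring
    · have hj : ‖J t‖ ^ 2 ≠ 0 := by positivity
      have hR : sec L (c t) (v t) (J t) = -(Ef t)⁻¹ * (H t (v t) (v t) / ‖v t‖ ^ 2 + H t (J t) (J t) / ‖J t‖ ^ 2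
          + ‖gradient L (c t)‖ ^ 2 - (D t (v t)) ^ 2 / ‖v t‖ ^ 2 - (D t (J t)) ^ 2 / ‖J t‖ ^ 2) := by
        unfold sec
        rw [Real.exp_neg]
      have h4 := j2_alg (w2 := ‖W t‖ ^ 2) (JW := ⟪J t, W t⟫) (vW := ⟪v t, W t⟫) (hEv t ht) hj hR
      rw [← h4, real_inner_self_eq_norm_sq]
      simp only [hD, hH]
      ring
  have hconj := od_conj (T := T) (A := fun s => Ef s * ‖J s‖ ^ 2)
    (B := fun s => Ef s * (⟪J s, W s⟫ + D s (v s) * ‖J s‖ ^ 2))
    (C := fun s => Ef s * ‖W s + (D s (v s)) • J s + (D s (J s)) • v s‖ ^ 2)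
    (K := fun s => sec L (c s) (v s) (J s)) hA hB (fun t ht => by have := hEpos t; positivity)
    (fun t ht => ?_) hQ1 hQ2 hQ (fun t ht hpos => ?_) (by simp [h0]) (by simp [h1])
  · intro t ht
    have h := hconj t ht
    have h2 := (mul_eq_zero.1 h).resolve_left (hEpos t).ne'
    rwa [sq_eq_zero_iff, norm_eq_zero] at h2
  · have h2 : ⟪J t, W t⟫ + D t (v t) * ‖J t‖ ^ 2 = ⟪J t, W t + (D t (v t)) • J t + (D t (J t)) • v t⟫ := by
      rw [inner_add_right, inner_add_right, inner_smul_right, inner_smul_right, real_inner_self_eq_norm_sq,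
        real_inner_comm (v t) (J t), horth t ht]
      ring
    have h3 := abs_real_inner_le_norm (J t) (W t + (D t (v t)) • J t + (D t (J t)) • v t)
    have h4 : ⟪J t, W t + (D t (v t)) • J t + (D t (J t)) • v t⟫ ^ 2 ≤
        ‖J t‖ ^ 2 * ‖W t + (D t (v t)) • J t + (D t (J t)) • v t‖ ^ 2 := by
      rw [← mul_pow, ← sq_abs]
      exact pow_le_pow_left₀ (abs_nonneg _) h3 2
    rw [h2]
    have h5 := mul_le_mul_of_nonneg_left h4 (sq_nonneg (Ef t))
    linarith
  · have h2 : J t ≠ 0 := by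
      intro h
      rw [h] at hpos
      simp at hpos
    exact hsub t ht (J t) h2 (horth t ht)

end SN
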