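import Pool.Agent.helper71.SN.S1
import Pool.Agent.helper71.SN.G2

/-! SN-N1 -/

noncomputable section

namespace SN

open KBR Set Filter Topology
open scoped ContDiff RealInnerProductSpace

variable {n : ℕ}

variable {τ B ε zb zn : ℝ} {μ μ₁ μ₂ Q Q₁ Q₂ : ℝ → ℝ} {ψ : E n → ℝ}

private theorem n1_pp (κ : ℝ) (hκ : 0 < κ) (x : E n) :
    HasFDerivAt (pp (n := n) κ) (-(pp κ x ^ 2) • (κ • (2 • innerSL ℝ x))) x := by
  have h1 : HasFDerivAt (fun y : E n => 1 + κ * ‖y‖ ^ 2) (κ • (2 • innerSL ℝ x)) x :=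
    ((hasStrictFDerivAt_norm_sq x).hasFDerivAt.const_mul κ).const_add 1
  have hne : (1 + κ * ‖x‖ ^ 2) ≠ 0 := by positivity
  have h2 := (hasDerivAt_inv hne).comp_hasFDerivAt x h1
  have h3 : -((1 + κ * ‖x‖ ^ 2) ^ 2)⁻¹ = -(pp κ x ^ 2) := by
    rw [pp, inv_pow]
  rw [h3] at h2
  exact h2

private theorem n1_zz (κ : ℝ) (hκ : 0 < κ) (x v : E n) :
    fderiv ℝ (zz κ) x v = -(4 * κ * pp κ x ^ 2) * ⟪x, v⟫ := by
  have h : HasFDerivAt (zz (n := n) κ) ((2 : ℝ) • (-(pp κ x ^ 2) • (κ • (2 • innerSL ℝ x)))) x :=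
    ((n1_pp κ hκ x).const_mul 2).sub_const 1
  rw [h.fderiv]
  simp only [smul_apply, smul_eq_mul, innerSL_apply_apply, nsmul_eq_mul]
  push_cast
  ring

private theorem n1_LR (κ : ℝ) (hκ : 0 < κ) (x v : E n) :
    fderiv ℝ (LR κ) x v = -(2 * κ * pp κ x) * ⟪x, v⟫ := by
  have hp : 0 < pp κ x := pp_pos hκ x
  have hs : 0 < Real.sqrt κ := Real.sqrt_pos.2 hκ
  have h0 : HasFDerivAt (fun y : E n => 2 * Real.sqrt κ * pp κ y)
      ((2 * Real.sqrt κ) • (-(pp κ x ^ 2) • (κ • (2 • innerSL ℝ x)))) x :=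
    (n1_pp κ hκ x).const_mul _
  have h : HasFDerivAt (LR (n := n) κ) ((2 * Real.sqrt κ * pp κ x)⁻¹ •
      ((2 * Real.sqrt κ) • (-(pp κ x ^ 2) • (κ • (2 • innerSL ℝ x))))) x :=
    h0.log (by positivity)
  rw [h.fderiv]
  simp only [smul_apply, smul_eq_mul, innerSL_apply_apply, nsmul_eq_mul]
  push_cast
  field_simp

/-- the gradient is radial on the net -/
private theorem n1_rad (h : Par τ B ε zb zn μ μ₁ μ₂ Q Q₁ Q₂ ψ) {x : E n} (hx : x ∈ NN n) :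
    ψ (XX (kap zb) x) = 1 ∧ fderiv ℝ ψ (XX (kap zb) x) = 0 ∧
    ∃ l : ℝ, ∀ v, fderiv ℝ (LL (kap zb) μ Q ψ) x v = l * ⟪x, v⟫ := by
  have hκ := kap_pos h
  have hX : XX (kap zb) x ∈ NN n := NN_smul hx _
  have h1 : ψ (XX (kap zb) x) = 1 := (h.psi.one_iff _).2 hX
  have h2 : fderiv ℝ ψ (XX (kap zb) x) = 0 := by
    apply IsLocalMax.fderiv_eq_zero
    refine Filter.Eventually.of_forall fun y => ?_
    rw [h1]
    exact h.psi.le_one y
  refine ⟨h1, h2, -(2 * kap zb * pp (kap zb) x) +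
    (μ₁ (zz (kap zb) x) - Q₁ (zz (kap zb) x)) * (-(4 * kap zb * pp (kap zb) x ^ 2)), fun v => ?_⟩
  rw [fderiv_LL hκ h.dat, lamD, h1, h2, n1_zz _ hκ, n1_LR _ hκ]
  simp only [zero_apply]
  ring

/-- SN-N1: the net is geodesic -/
theorem netL (h : Par τ B ε zb zn μ μ₁ μ₂ Q Q₁ Q₂ ψ) :
    ∃ κ r ρ : ℝ, NetL (LL (kap zb) μ Q ψ) κ r ρ := by
  have hκ := kap_pos h
  have hzb := h.prof.zb_pos
  have hzbn := h.prof.zb_lt
  have hzn := h.prof.zn_lt
  have hκ1 : kap zb ≤ 1 := by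
    rw [kap, div_le_one (by linarith)]
    linarith
  have hκe : kap zb * (1 + zb) = 1 - zb := by
    rw [kap]
    field_simp
  set R2 : ℝ := (1 - zn) / ((1 + zn) * kap zb) with hR2
  have hden : 0 < (1 + zn) * kap zb := mul_pos (by linarith) hκ
  have hR2pos : 0 < R2 := div_pos (by linarith) hden
  have hR2e : R2 * ((1 + zn) * kap zb) = 1 - zn := div_mul_cancel₀ _ hden.ne'
  have hR2lt : R2 < 1 := by
    rw [hR2, div_lt_one hden]
    have h1 : (1 + zn) * kap zb * (1 + zb) = (1 + zn) * (1 - zb) := by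
      rw [mul_assoc, hκe]
    nlinarith
  have hR2ge : 1 / 4 ≤ R2 := by
    rw [hR2, le_div_iff₀ hden]
    nlinarith
  have hrsq : Real.sqrt R2 ^ 2 = R2 := Real.sq_sqrt hR2pos.le
  have hrpos : 0 < Real.sqrt R2 := Real.sqrt_pos.2 hR2pos
  have hgrad : ∀ x : E n, ∀ l : ℝ, (∀ v, fderiv ℝ (LL (kap zb) μ Q ψ) x v = l * ⟪x, v⟫) →
      gradient (LL (kap zb) μ Q ψ) x = l • x := by
    intro x l hl
    refine ext_inner_right ℝ fun v => ?_
    rw [gradient, InnerProductSpace.toDual_symm_apply, hl, inner_smul_left]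
    rfl
  refine ⟨kap zb, Real.sqrt R2, 1 / 2, ?_, ?_, ?_, ?_, ?_, hκ, hκ1, by norm_num, ?_, ?_⟩
  · exact LL_smooth hκ h.dat
  · intro x hx _
    obtain ⟨-, -, l, hl⟩ := n1_rad h hx
    exact ⟨l, hgrad x l hl⟩
  · exact hrpos
  · rw [Real.sqrt_lt' one_pos]
    simpa using hR2lt
  · intro x hx hxr
    obtain ⟨h1, h2, l, hl⟩ := n1_rad h hx
    rw [hgrad x l hl]
    have hx2 : ‖x‖ ^ 2 = R2 := by rw [hxr, hrsq]
    have hz : zz (kap zb) x = zn := by
      rw [zz, pp, hx2]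
      have h3 : (1 + kap zb * R2) * (1 + zn) = 2 := by
        nlinarith
      have h4 : (1 + kap zb * R2)⁻¹ = (1 + zn) / 2 := by
        rw [inv_eq_iff_eq_inv, inv_div, eq_div_iff (by linarith)]
        exact h3
      rw [h4]
      ring
    have hrad : 1 + fderiv ℝ (LL (kap zb) μ Q ψ) x x = 0 := by
      have h3 := round_rad_L hκ x
      have h4 := round_rad_z hκ x
      have h5 := h.prof.net
      rw [fderiv_LL hκ h.dat, lamD, h1, h2, h4]
      rw [hz] at h3 ⊢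
      simp only [zero_apply]
      linarith
    rw [hl, real_inner_self_eq_norm_sq, hx2] at hrad
    have hl' : l = -(1 / Real.sqrt R2 ^ 2) := by
      rw [hrsq]
      field_simp
      linarith
    rw [hl']
  · rw [Real.le_sqrt (by norm_num) hR2pos.le]
    linarith
  · intro x hx
    have hx2 : ‖x‖ ^ 2 < 1 / 4 := by
      have := norm_nonneg x
      nlinarith
    have hz : 1 / 2 ≤ zz (kap zb) x := by
      rw [zz, pp]
      have h3 : 1 + kap zb * ‖x‖ ^ 2 ≤ 5 / 4 := by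
        have := sq_nonneg ‖x‖
        nlinarith
      have h3' : 0 < 1 + kap zb * ‖x‖ ^ 2 := by positivity
      have h4 : (5 / 4 : ℝ)⁻¹ ≤ (1 + kap zb * ‖x‖ ^ 2)⁻¹ := inv_anti₀ h3' h3
      norm_num at h4
      linarith
    obtain ⟨h5, h6⟩ := h.prof.zero _ hz
    rw [LL, h5, h6]
    ring

end SN
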