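import Pool.Agent.helper71.SN.Defs

/-! SN-O1 -/

noncomputable section

namespace SN

open KBR Set Filter Topology
open scoped ContDiff RealInnerProductSpace

variable {n : ℕ}

/-- SN-O1 -/
theorem od_length {q q' q'' χ : ℝ → ℝ} {ε τ : ℝ} (hε : 0 < ε)
    (h1 : ∀ t ∈ Icc 0 Real.pi, HasDerivWithinAt q (q' t) (Icc 0 Real.pi) t)
    (h2 : ∀ t ∈ Icc 0 Real.pi, HasDerivWithinAt q' (q'' t) (Icc 0 Real.pi) t)
    (h0 : 0 ≤ q 0) (hπ : 0 ≤ q Real.pi) (hχ : Continuous χ)
    (hineq : ∀ t ∈ Icc 0 Real.pi, q'' t + q t ≤ -(ε * (χ t - τ)))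
    (hc : 2 * τ < ∫ t in (0 : ℝ)..Real.pi, χ t * Real.sin t) : False := by
  have hcont : Continuous (fun s => (χ s - τ) * Real.sin s) :=
    (hχ.sub continuous_const).mul Real.continuous_sin
  set F : ℝ → ℝ := fun t => q' t * Real.sin t - q t * Real.cos t +
    ε * ∫ s in (0 : ℝ)..t, (χ s - τ) * Real.sin s with hF
  have hd : ∀ t ∈ Icc 0 Real.pi, HasDerivWithinAt F
      ((q'' t + q t) * Real.sin t + ε * ((χ t - τ) * Real.sin t)) (Icc 0 Real.pi) t := by
    intro t ht
    have e1 := (h2 t ht).mul (Real.hasDerivAt_sin t).hasDerivWithinAt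
    have e2 := (h1 t ht).mul (Real.hasDerivAt_cos t).hasDerivWithinAt
    have e3 : HasDerivWithinAt (fun t => ∫ s in (0 : ℝ)..t, (χ s - τ) * Real.sin s)
        ((χ t - τ) * Real.sin t) (Icc 0 Real.pi) t :=
      (intervalIntegral.integral_hasDerivAt_right (hcont.intervalIntegrable _ _)
        (hcont.stronglyMeasurableAtFilter _ _) hcont.continuousAt).hasDerivWithinAt
    have e4 := (e1.sub e2).add (e3.const_mul ε)
    refine e4.congr_deriv ?_
    ring
  have hanti : AntitoneOn F (Icc 0 Real.pi) := by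
    refine antitoneOn_of_hasDerivWithinAt_nonpos (convex_Icc 0 Real.pi)
      (fun t ht => (hd t ht).continuousWithinAt)
      (fun t ht => (hd t (interior_subset ht)).mono interior_subset) ?_
    intro t ht
    have ht' := interior_subset ht
    have hs : 0 ≤ Real.sin t := Real.sin_nonneg_of_nonneg_of_le_pi ht'.1 ht'.2
    have := mul_le_mul_of_nonneg_right (hineq t ht') hs
    linarith
  have h3 := hanti ⟨le_rfl, Real.pi_pos.le⟩ ⟨Real.pi_pos.le, le_rfl⟩ Real.pi_pos.le
  have h4 : ∫ s in (0 : ℝ)..Real.pi, (χ s - τ) * Real.sin s =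
      (∫ s in (0 : ℝ)..Real.pi, χ s * Real.sin s) - 2 * τ := by
    have : (fun s => (χ s - τ) * Real.sin s) = fun s => χ s * Real.sin s - τ * Real.sin s := by
      funext s; ring
    have c1 : Continuous (fun s => χ s * Real.sin s) := hχ.mul Real.continuous_sin
    have c2 : Continuous (fun s => τ * Real.sin s) := continuous_const.mul Real.continuous_sin
    rw [this, intervalIntegral.integral_sub (c1.intervalIntegrable _ _)
      (c2.intervalIntegrable _ _), intervalIntegral.integral_const_mul, integral_sin]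
    simp; ring
  simp only [hF, h4, Real.sin_pi, Real.cos_pi, Real.sin_zero, Real.cos_zero,
    intervalIntegral.integral_same] at h3
  have h5 : 0 < ε * ((∫ s in (0 : ℝ)..Real.pi, χ s * Real.sin s) - 2 * τ) :=
    mul_pos hε (by linarith)
  linarith

end SN
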