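import Pool.Agent.helper71.SN.Defs

/-! SN-O2 -/

noncomputable section

namespace SN

open KBR Set Filter Topology
open scoped ContDiff RealInnerProductSpace

variable {n : ℕ}

theorem O2_sin_conv (g : ℝ → ℝ) (hg : Continuous g) (t a b : ℝ) :
    Real.sin t * (∫ s in a..b, Real.cos s * g s) - Real.cos t * (∫ s in a..b, Real.sin s * g s) =
      ∫ s in a..b, Real.sin (t - s) * g s := by
  have i1 : IntervalIntegrable (fun s => Real.sin t * (Real.cos s * g s)) MeasureTheory.volume a b :=
    (by fun_prop : Continuous fun s => Real.sin t * (Real.cos s * g s)).intervalIntegrable _ _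
  have i2 : IntervalIntegrable (fun s => Real.cos t * (Real.sin s * g s)) MeasureTheory.volume a b :=
    (by fun_prop : Continuous fun s => Real.cos t * (Real.sin s * g s)).intervalIntegrable _ _
  rw [← intervalIntegral.integral_const_mul, ← intervalIntegral.integral_const_mul,
    ← intervalIntegral.integral_sub i1 i2]
  refine intervalIntegral.integral_congr fun s _ => ?_
  simp only [Real.sin_sub]
  ring

theorem O2_int_sin (t : ℝ) : ∫ s in (0 : ℝ)..t, Real.sin (t - s) = 1 - Real.cos t := by
  rw [intervalIntegral.integral_comp_sub_left (fun x => Real.sin x) t, sub_self, sub_zero,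
    integral_sin, Real.cos_zero]

theorem O2_int_sin' (t : ℝ) : ∫ s in t..Real.pi, Real.sin (s - t) = 1 + Real.cos t := by
  rw [intervalIntegral.integral_comp_sub_right (fun x => Real.sin x) t, sub_self,
    integral_sin, Real.cos_zero, Real.cos_pi_sub]
  ring

/-- lower bound of a sine convolution -/
theorem O2_low {g w : ℝ → ℝ} (hg : Continuous g) (hw : Continuous w) {a b m : ℝ} (hab : a ≤ b)
    (hm : ∀ s, m ≤ g s) (hw0 : ∀ s ∈ Icc a b, 0 ≤ w s) :
    m * (∫ s in a..b, w s) ≤ ∫ s in a..b, w s * g s := by
  rw [← intervalIntegral.integral_const_mul]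
  refine intervalIntegral.integral_mono_on hab
    ((by fun_prop : Continuous fun s => m * w s).intervalIntegrable _ _)
    ((by fun_prop : Continuous fun s => w s * g s).intervalIntegrable _ _) ?_
  intro s hs
  have := mul_le_mul_of_nonneg_left (hm s) (hw0 s hs)
  linarith

/-- SN-O2 -/
theorem od_aux {χ : ℝ → ℝ} {τ : ℝ} (hχ : Continuous χ) (h0 : ∀ t, 0 ≤ χ t) (h1 : ∀ t, χ t ≤ 1)
    (hτ : 0 ≤ τ) (hc : 4 * τ ≤ ∫ t in (0 : ℝ)..Real.pi, χ t * Real.sin t) :
    ∃ h h' : ℝ → ℝ, (∀ t, HasDerivAt h (h' t) t) ∧
      (∀ t, HasDerivAt h' (χ t - 2 * τ - h t) t) ∧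
      ∀ t ∈ Icc 0 Real.pi, 0 ≤ h t ∧ h t ≤ 5 := by
  have hpi := Real.pi_pos
  set g : ℝ → ℝ := fun t => χ t - 2 * τ with hg
  have hgc : Continuous g := by fun_prop
  set Cc : ℝ → ℝ := fun t => ∫ s in (0 : ℝ)..t, Real.cos s * g s with hCc
  set Dd : ℝ → ℝ := fun t => ∫ s in (0 : ℝ)..t, Real.sin s * g s with hDd
  have hCd : ∀ t, HasDerivAt Cc (Real.cos t * g t) t := fun t =>
    intervalIntegral.integral_hasDerivAt_right
      ((by fun_prop : Continuous fun s => Real.cos s * g s).intervalIntegrable _ _)
      ((by fun_prop : Continuous fun s => Real.cos s * g s).stronglyMeasurableAtFilter _ _)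
      (by fun_prop : Continuous fun s => Real.cos s * g s).continuousAt
  have hDDd : ∀ t, HasDerivAt Dd (Real.sin t * g t) t := fun t =>
    intervalIntegral.integral_hasDerivAt_right
      ((by fun_prop : Continuous fun s => Real.sin s * g s).intervalIntegrable _ _)
      ((by fun_prop : Continuous fun s => Real.sin s * g s).stronglyMeasurableAtFilter _ _)
      (by fun_prop : Continuous fun s => Real.sin s * g s).continuousAt
  set al : ℝ := Dd Real.pi / 2 with hal
  set be : ℝ := 1 + 2 * τ with hbe
  -- the integral of χ sin
  have hsin2 : ∫ t in (0 : ℝ)..Real.pi, Real.sin t = 2 := by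
    rw [integral_sin, Real.cos_zero, Real.cos_pi]; norm_num
  have hI2 : ∫ t in (0 : ℝ)..Real.pi, χ t * Real.sin t ≤ 2 := by
    rw [← hsin2]
    refine intervalIntegral.integral_mono_on hpi.le
      ((by fun_prop : Continuous fun s => χ s * Real.sin s).intervalIntegrable _ _)
      (Real.continuous_sin.intervalIntegrable _ _) ?_
    intro s hs
    have := Real.sin_nonneg_of_nonneg_of_le_pi hs.1 hs.2
    nlinarith [h1 s]
  have hDpi : Dd Real.pi = (∫ t in (0 : ℝ)..Real.pi, χ t * Real.sin t) - 4 * τ := by
    have e : Dd Real.pi = (∫ t in (0 : ℝ)..Real.pi, χ t * Real.sin t) -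
        2 * τ * ∫ t in (0 : ℝ)..Real.pi, Real.sin t := by
      rw [← intervalIntegral.integral_const_mul, ← intervalIntegral.integral_sub
        ((by fun_prop : Continuous fun s => χ s * Real.sin s).intervalIntegrable _ _)
        ((by fun_prop : Continuous fun s => 2 * τ * Real.sin s).intervalIntegrable _ _)]
      refine intervalIntegral.integral_congr fun s _ => ?_
      simp only [hg]
      ring
    rw [e, hsin2]; ring
  have hal0 : 0 ≤ al := by rw [hal, hDpi]; linarith
  have hal1 : al ≤ 1 - 2 * τ := by rw [hal, hDpi]; linarith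
  have hτ1 : 2 * τ ≤ 1 := by linarith
  have hglow : ∀ s, -(2 * τ) ≤ g s := fun s => by simp only [hg]; linarith [h0 s]
  have hgup : ∀ s, -1 ≤ -g s := fun s => by simp only [hg]; linarith [h1 s]
  refine ⟨fun t => al * Real.cos t + be * Real.sin t + Real.sin t * Cc t - Real.cos t * Dd t,
    fun t => -(al * Real.sin t) + be * Real.cos t + Real.cos t * Cc t + Real.sin t * Dd t, ?_, ?_, ?_⟩
  · intro t
    have h2 := ((((Real.hasDerivAt_cos t).const_mul al).add ((Real.hasDerivAt_sin t).const_mul be)).add
      ((Real.hasDerivAt_sin t).mul (hCd t))).sub ((Real.hasDerivAt_cos t).mul (hDDd t))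
    refine h2.congr_deriv ?_
    ring
  · intro t
    have h2 := (((((Real.hasDerivAt_sin t).const_mul al).neg).add
      ((Real.hasDerivAt_cos t).const_mul be)).add
      ((Real.hasDerivAt_cos t).mul (hCd t))).add ((Real.hasDerivAt_sin t).mul (hDDd t))
    refine h2.congr_deriv ?_
    have h3 := Real.sin_sq_add_cos_sq t
    have e : χ t - 2 * τ = g t * (Real.sin t ^ 2 + Real.cos t ^ 2) := by rw [h3, mul_one]
    rw [e]
    ring
  · intro t ht
    have hst : 0 ≤ Real.sin t := Real.sin_nonneg_of_nonneg_of_le_pi ht.1 ht.2
    have hconv := O2_sin_conv g hgc t 0 t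
    have hw1 : ∀ s ∈ Icc 0 t, 0 ≤ Real.sin (t - s) := fun s hs =>
      Real.sin_nonneg_of_nonneg_of_le_pi (by linarith [hs.2]) (by linarith [hs.1, ht.2])
    have hlow := O2_low (w := fun s => Real.sin (t - s)) hgc (by fun_prop) ht.1 hglow hw1
    have hup := O2_low (g := fun s => -g s) (w := fun s => Real.sin (t - s)) hgc.neg (by fun_prop)
      ht.1 hgup hw1
    rw [O2_int_sin] at hlow hup
    have e1 : ∫ s in (0 : ℝ)..t, Real.sin (t - s) * -g s = -∫ s in (0 : ℝ)..t, Real.sin (t - s) * g s := by
      rw [← intervalIntegral.integral_neg]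
      refine intervalIntegral.integral_congr fun s _ => ?_
      ring
    rw [e1] at hup
    have hc1 := Real.cos_le_one t
    have hc2 := Real.neg_one_le_cos t
    have hs1 := Real.sin_le_one t
    simp only []
    have hC1 : Cc t = ∫ s in (0 : ℝ)..t, Real.cos s * g s := rfl
    have hD1 : Dd t = ∫ s in (0 : ℝ)..t, Real.sin s * g s := rfl
    rw [← hC1, ← hD1] at hconv
    constructor
    · rcases le_total t (Real.pi / 2) with hle | hle
      · have hct : 0 ≤ Real.cos t := Real.cos_nonneg_of_neg_pi_div_two_le_of_le (by linarith [ht.1]) hle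
        have h3 : 1 - Real.cos t ≤ Real.sin t := by
          nlinarith [Real.sin_sq_add_cos_sq t, mul_nonneg hst hct]
        have h4 : 0 ≤ al * Real.cos t := mul_nonneg hal0 hct
        have h5 : 2 * τ * (1 - Real.cos t) ≤ 2 * τ * Real.sin t :=
          mul_le_mul_of_nonneg_left h3 (by linarith)
        have h6 : be * Real.sin t = Real.sin t + 2 * τ * Real.sin t := by rw [hbe]; ring
        linarith
      · have hct : Real.cos t ≤ 0 := Real.cos_nonpos_of_pi_div_two_le_of_le hle (by linarith [ht.2])
        have h3 : 1 + Real.cos t ≤ Real.sin t := by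
          nlinarith [Real.sin_sq_add_cos_sq t, mul_nonneg hst (neg_nonneg.2 hct)]
        -- tail representation
        have hCs : Cc Real.pi - Cc t = ∫ s in t..Real.pi, Real.cos s * g s := by
          rw [hC1]
          exact intervalIntegral.integral_interval_sub_left
            ((by fun_prop : Continuous fun s => Real.cos s * g s).intervalIntegrable _ _)
            ((by fun_prop : Continuous fun s => Real.cos s * g s).intervalIntegrable _ _)
        have hDs : Dd Real.pi - Dd t = ∫ s in t..Real.pi, Real.sin s * g s := by
          rw [hD1]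
          exact intervalIntegral.integral_interval_sub_left
            ((by fun_prop : Continuous fun s => Real.sin s * g s).intervalIntegrable _ _)
            ((by fun_prop : Continuous fun s => Real.sin s * g s).intervalIntegrable _ _)
        have hconv2 := O2_sin_conv g hgc t t Real.pi
        rw [← hCs, ← hDs] at hconv2
        have hw2 : ∀ s ∈ Icc t Real.pi, 0 ≤ Real.sin (s - t) := fun s hs =>
          Real.sin_nonneg_of_nonneg_of_le_pi (by linarith [hs.1]) (by linarith [hs.2, ht.1])
        have hlow2 := O2_low (w := fun s => Real.sin (s - t)) hgc (by fun_prop) ht.2 hglow hw2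
        rw [O2_int_sin'] at hlow2
        have e2 : ∫ s in t..Real.pi, Real.sin (s - t) * g s =
            -∫ s in t..Real.pi, Real.sin (t - s) * g s := by
          rw [← intervalIntegral.integral_neg]
          refine intervalIntegral.integral_congr fun s _ => ?_
          rw [show s - t = -(t - s) by ring, Real.sin_neg]
          ring
        rw [e2] at hlow2
        -- C(π) ≥ -1
        have hCpi : -1 ≤ Cc Real.pi := by
          have e3 : Cc Real.pi = (∫ s in (0 : ℝ)..Real.pi, Real.cos s * χ s) -
              2 * τ * ∫ s in (0 : ℝ)..Real.pi, Real.cos s := by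
            rw [← intervalIntegral.integral_const_mul, ← intervalIntegral.integral_sub
              ((by fun_prop : Continuous fun s => Real.cos s * χ s).intervalIntegrable _ _)
              ((by fun_prop : Continuous fun s => 2 * τ * Real.cos s).intervalIntegrable _ _)]
            refine intervalIntegral.integral_congr fun s _ => ?_
            simp only [hg]
            ring
          have e4 : ∫ s in (0 : ℝ)..Real.pi, Real.cos s = 0 := by
            rw [integral_cos, Real.sin_pi, Real.sin_zero]; ring
          have e5 : (∫ s in (0 : ℝ)..Real.pi / 2, Real.cos s * χ s) +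
              ∫ s in Real.pi / 2..Real.pi, Real.cos s * χ s =
              ∫ s in (0 : ℝ)..Real.pi, Real.cos s * χ s :=
            intervalIntegral.integral_add_adjacent_intervals
              ((by fun_prop : Continuous fun s => Real.cos s * χ s).intervalIntegrable _ _)
              ((by fun_prop : Continuous fun s => Real.cos s * χ s).intervalIntegrable _ _)
          have e6 : 0 ≤ ∫ s in (0 : ℝ)..Real.pi / 2, Real.cos s * χ s := by
            refine intervalIntegral.integral_nonneg (by linarith) fun s hs => ?_
            exact mul_nonneg (Real.cos_nonneg_of_neg_pi_div_two_le_of_le (by linarith [hs.1]) hs.2) (h0 s)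
          have e7 : ∫ s in Real.pi / 2..Real.pi, Real.cos s ≤
              ∫ s in Real.pi / 2..Real.pi, Real.cos s * χ s := by
            refine intervalIntegral.integral_mono_on (by linarith)
              (Real.continuous_cos.intervalIntegrable _ _)
              ((by fun_prop : Continuous fun s => Real.cos s * χ s).intervalIntegrable _ _) ?_
            intro s hs
            have := Real.cos_nonpos_of_pi_div_two_le_of_le hs.1 (by linarith [hs.2])
            nlinarith [h1 s]
          have e8 : ∫ s in Real.pi / 2..Real.pi, Real.cos s = -1 := by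
            rw [integral_cos, Real.sin_pi, Real.sin_pi_div_two]; ring
          rw [e3, e4]
          linarith
        have h4 : al * Real.cos t ≤ 0 := mul_nonpos_of_nonneg_of_nonpos hal0 hct
        have h5 : 2 * τ * (1 + Real.cos t) ≤ 2 * τ * Real.sin t :=
          mul_le_mul_of_nonneg_left h3 (by linarith)
        have h6 : 0 ≤ Real.sin t * (Cc Real.pi + 1) := mul_nonneg hst (by linarith)
        have h7 : Dd Real.pi = 2 * al := by rw [hal]; ring
        rw [h7] at hconv2
        have h8 : be * Real.sin t = Real.sin t + 2 * τ * Real.sin t := by rw [hbe]; ring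
        nlinarith
    · have h3 : al * Real.cos t ≤ al := by nlinarith
      have h4 : be * Real.sin t ≤ be := by
        have : 0 ≤ be := by rw [hbe]; linarith
        nlinarith
      have h5 : be = 1 + 2 * τ := rfl
      linarith

end SN
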