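import Pool.Agent.helper71.SN.Defs2

/-! SN-P1 -/

noncomputable section

namespace SN

open KBR Set Filter Topology
open scoped ContDiff RealInnerProductSpace

variable {n : ℕ}

/-- a smooth decreasing function, `1` at `0` and `0` from `1` on -/
def P1P (y : ℝ) : ℝ := Real.exp 2 * expNegInvGlue ((1 - y) / 2)

/-- its derivative -/
def P1D (y : ℝ) : ℝ := Real.exp 2 * (((1 - y) / 2)⁻¹ ^ 2 * expNegInvGlue ((1 - y) / 2) * (-1 / 2))

/-- minus the primitive -/
def P1q (y : ℝ) : ℝ := (∫ u in (0 : ℝ)..1, P1P u) - ∫ u in (0 : ℝ)..y, P1P u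

theorem P1P_smooth : ContDiff ℝ ∞ P1P := by
  unfold P1P
  exact contDiff_const.mul (expNegInvGlue.contDiff.comp (by fun_prop))

theorem P1P_deriv (y : ℝ) : HasDerivAt P1P (P1D y) y := by
  have h1 : HasDerivAt expNegInvGlue (((1 - y) / 2)⁻¹ ^ 2 * expNegInvGlue ((1 - y) / 2)) ((1 - y) / 2) := by
    have := expNegInvGlue.hasDerivAt_polynomial_eval_inv_mul 1 ((1 - y) / 2)
    simpa using this
  have h2 : HasDerivAt (fun y : ℝ => (1 - y) / 2) (-1 / 2) y := by
    have := ((hasDerivAt_id y).const_sub 1).div_const 2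
    simpa using this
  exact (h1.comp y h2).const_mul (Real.exp 2)

theorem P1_zero {y : ℝ} (hy : 1 ≤ y) : P1P y = 0 ∧ P1D y = 0 := by
  have h : expNegInvGlue ((1 - y) / 2) = 0 := expNegInvGlue.zero_of_nonpos (by linarith)
  constructor
  · rw [P1P, h, mul_zero]
  · rw [P1D, h]
    ring

/-- formulas on `[0, 1)` -/
theorem P1_formula {y : ℝ} (h0 : 0 ≤ y) (h1 : y < 1) : ∃ w : ℝ, 0 ≤ w ∧ P1P y = Real.exp (-w) ∧
    P1D y = -(Real.exp (-w) * (w + 2) ^ 2 / 2) ∧ y * (w + 2) = w := by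
  have hx : 0 < (1 - y) / 2 := by linarith
  have hf : expNegInvGlue ((1 - y) / 2) = Real.exp (-((1 - y) / 2)⁻¹) := by
    unfold expNegInvGlue
    rw [if_neg (not_le.2 hx)]
  have e1 : P1P y = Real.exp (-(((1 - y) / 2)⁻¹ - 2)) := by
    rw [P1P, hf, ← Real.exp_add]
    congr 1
    ring
  refine ⟨((1 - y) / 2)⁻¹ - 2, ?_, e1, ?_, ?_⟩
  · have : (1 / 2 : ℝ)⁻¹ ≤ ((1 - y) / 2)⁻¹ := inv_anti₀ hx (by linarith)
    norm_num at this ⊢
    linarith
  · rw [P1D, ← mul_assoc, ← e1, P1P]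
    ring
  · have h1y : (1 - y) ≠ 0 := by linarith
    field_simp
    ring

theorem P1P_nonneg (y : ℝ) : 0 ≤ P1P y :=
  mul_nonneg (Real.exp_pos _).le (expNegInvGlue.nonneg _)

theorem P1P_pos {y : ℝ} (h : y < 1) : 0 < P1P y :=
  mul_pos (Real.exp_pos _) (expNegInvGlue.pos_of_pos (by linarith))

theorem P1D_nonpos (y : ℝ) : P1D y ≤ 0 := by
  rw [P1D]
  have : 0 ≤ Real.exp 2 * (((1 - y) / 2)⁻¹ ^ 2 * expNegInvGlue ((1 - y) / 2)) :=
    mul_nonneg (Real.exp_pos _).le (mul_nonneg (sq_nonneg _) (expNegInvGlue.nonneg _))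
  nlinarith

theorem P1_exp {w : ℝ} (hw : 0 ≤ w) : Real.exp (-w) * (1 + w + w ^ 2 / 2) ≤ 1 := by
  have h1 := Real.quadratic_le_exp_of_nonneg hw
  have h2 : Real.exp (-w) * Real.exp w = 1 := by
    rw [← Real.exp_add]
    simp
  calc _ ≤ Real.exp (-w) * Real.exp w := mul_le_mul_of_nonneg_left h1 (Real.exp_pos _).le
    _ = 1 := h2

theorem P1P_le {y : ℝ} (h0 : 0 ≤ y) : P1P y ≤ 1 := by
  rcases lt_or_ge y 1 with h | h
  · obtain ⟨w, hw, e1, _, _⟩ := P1_formula h0 h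
    rw [e1]
    exact Real.exp_le_one_iff.2 (by linarith)
  · rw [(P1_zero h).1]
    norm_num

theorem P1D_ge {y : ℝ} (h0 : 0 ≤ y) : -2 ≤ P1D y := by
  rcases lt_or_ge y 1 with h | h
  · obtain ⟨w, hw, _, e2, _⟩ := P1_formula h0 h
    have h1 := P1_exp hw
    have h2 := Real.exp_pos (-w)
    rw [e2]
    nlinarith [mul_nonneg h2.le (sq_nonneg w)]
  · rw [(P1_zero h).2]
    norm_num

theorem P1_comb {y : ℝ} (h0 : 0 ≤ y) : P1P y - y * P1D y ≤ 1 := by
  rcases lt_or_ge y 1 with h | h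
  · obtain ⟨w, hw, e1, e2, e3⟩ := P1_formula h0 h
    have h1 := P1_exp hw
    have h4 : P1P y - y * P1D y = Real.exp (-w) * (1 + (y * (w + 2)) * (w + 2) / 2) := by
      rw [e1, e2]
      ring
    rw [h4, e3]
    calc _ = Real.exp (-w) * (1 + w + w ^ 2 / 2) := by ring
      _ ≤ 1 := h1
  · rw [(P1_zero h).1, (P1_zero h).2]
    norm_num

theorem P1P_ge {y : ℝ} (h0 : 0 ≤ y) : 1 - 2 * y ≤ P1P y := by
  have hmono : MonotoneOn (fun u => P1P u + 2 * u) (Ici (0 : ℝ)) := by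
    refine monotoneOn_of_deriv_nonneg (convex_Ici 0) ?_ ?_ ?_
    · exact (P1P_smooth.continuous.add (by fun_prop)).continuousOn
    · intro u _
      exact ((P1P_deriv u).differentiableAt.add (by fun_prop)).differentiableWithinAt
    · intro u hu
      rw [interior_Ici] at hu
      have h1 : HasDerivAt (fun u => P1P u + 2 * u) (P1D u + 2 * 1) u :=
        (P1P_deriv u).add ((hasDerivAt_id u).const_mul 2)
      rw [h1.deriv]
      have := P1D_ge (le_of_lt hu)
      linarith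
  have h1 := hmono (mem_Ici.2 le_rfl) (mem_Ici.2 h0) h0
  have h2 : P1P 0 = 1 := by
    obtain ⟨w, _, e1, _, e3⟩ := P1_formula le_rfl (zero_lt_one' ℝ)
    have : w = 0 := by linarith
    rw [e1, this]
    simp
  simp only [mul_zero, add_zero] at h1
  linarith

theorem P1P_zero' : P1P 0 = 1 := by
  obtain ⟨w, _, e1, _, e3⟩ := P1_formula le_rfl (zero_lt_one' ℝ)
  have : w = 0 := by linarith
  rw [e1, this]
  simp

theorem P1q_deriv (y : ℝ) : HasDerivAt P1q (-P1P y) y := by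
  have h := (P1P_smooth.continuous.integral_hasStrictDerivAt 0 y).hasDerivAt
  exact h.const_sub _

theorem P1q_smooth : ContDiff ℝ ∞ P1q := by
  rw [contDiff_infty_iff_deriv]
  refine ⟨fun y => (P1q_deriv y).differentiableAt, ?_⟩
  have : deriv P1q = fun y => -P1P y := funext fun y => (P1q_deriv y).deriv
  rw [this]
  exact P1P_smooth.neg

theorem P1q_eq (y : ℝ) : P1q y = ∫ u in y..1, P1P u := by
  have hc : Continuous P1P := P1P_smooth.continuous
  rw [P1q, sub_eq_iff_eq_add, add_comm]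
  exact (intervalIntegral.integral_add_adjacent_intervals (hc.intervalIntegrable _ _)
    (hc.intervalIntegrable _ _)).symm

theorem P1q_zero {y : ℝ} (hy : 1 ≤ y) : P1q y = 0 := by
  rw [P1q_eq, intervalIntegral.integral_symm, neg_eq_zero]
  rw [intervalIntegral.integral_congr (g := fun _ => (0 : ℝ))]
  · simp
  · intro u hu
    rw [uIcc_of_le hy] at hu
    exact (P1_zero hu.1).1

theorem P1q_nonneg (y : ℝ) : 0 ≤ P1q y := by
  rcases le_total 1 y with h | h
  · rw [P1q_zero h]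
  · rw [P1q_eq]
    exact intervalIntegral.integral_nonneg h fun u _ => P1P_nonneg u

theorem P1q_le {y : ℝ} (h0 : 0 ≤ y) : P1q y ≤ 1 := by
  rcases le_total 1 y with h | h
  · rw [P1q_zero h]
    norm_num
  · rw [P1q_eq]
    have hc : Continuous P1P := P1P_smooth.continuous
    have h1 : ∫ u in y..1, P1P u ≤ ∫ u in y..1, (1 : ℝ) := by
      refine intervalIntegral.integral_mono_on h (hc.intervalIntegrable _ _)
        (continuous_const.intervalIntegrable _ _) fun u hu => P1P_le (h0.trans hu.1)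
    rw [intervalIntegral.integral_const] at h1
    simp at h1
    linarith

/-- scaled versions -/
theorem P1_scaled (A S a : ℝ) (hS : 0 < S) :
    ContDiff ℝ ∞ (fun z => A * S * P1q ((z - a) / S)) ∧
    (∀ z, HasDerivAt (fun z => A * S * P1q ((z - a) / S)) (-(A * P1P ((z - a) / S))) z) ∧
    (∀ z, HasDerivAt (fun z => -(A * P1P ((z - a) / S))) (-(A / S * P1D ((z - a) / S))) z) := by
  have hl : ∀ z : ℝ, HasDerivAt (fun z : ℝ => (z - a) / S) (1 / S) z := fun z =>
    ((hasDerivAt_id z).sub_const a).div_const S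
  refine ⟨?_, fun z => ?_, fun z => ?_⟩
  · exact contDiff_const.mul (P1q_smooth.comp (by fun_prop))
  · have h := ((P1q_deriv ((z - a) / S)).comp z (hl z)).const_mul (A * S)
    refine h.congr_deriv ?_
    field_simp
  · have h := (((P1P_deriv ((z - a) / S)).comp z (hl z)).const_mul A).neg
    refine h.congr_deriv ?_
    field_simp

/-- the parameters -/
theorem P1_params (τ B : ℝ) (hτ : 0 < τ) (hτ1 : τ ≤ 1 / 100) (hB : 1 ≤ B) (e : ℝ) (he : 0 < e) :
    ∃ ε S A : ℝ, 0 < ε ∧ ε ≤ e ∧ 0 < S ∧ 16 * (B * S) = τ ∧ 16 * S ≤ τ ∧ ε ≤ S ∧ 12 * (ε / S) ≤ τ ∧ 0 < A ∧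
      A * ((1 - ε ^ 2) * P1P (ε / S)) = ε ∧ A ≤ ε * (1 + τ / 2) := by
  have hB0 : 0 < B := by linarith
  obtain ⟨S, hS⟩ : ∃ S, S = τ / (16 * B) := ⟨_, rfl⟩
  have hSpos : 0 < S := by rw [hS]; positivity
  have hBS : 16 * (B * S) = τ := by
    rw [hS]
    field_simp
  have hS16 : 16 * S ≤ τ := by nlinarith
  obtain ⟨ε, hε⟩ : ∃ ε, ε = min e (τ * S / 12) := ⟨_, rfl⟩
  have hεe : ε ≤ e := by rw [hε]; exact min_le_left _ _
  have hεS : ε ≤ τ * S / 12 := by rw [hε]; exact min_le_right _ _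
  have hεpos : 0 < ε := by rw [hε]; exact lt_min he (by positivity)
  have hεS' : ε / S ≤ τ / 12 := by
    rw [div_le_iff₀ hSpos]
    linarith
  have hSlt : S ≤ 1 / 1600 := by linarith
  have hεleS : ε ≤ S := by nlinarith
  have hdiv : 0 < ε / S := div_pos hεpos hSpos
  obtain ⟨p, hp⟩ : ∃ p, p = P1P (ε / S) := ⟨_, rfl⟩
  have hp2 : 1 - 2 * (ε / S) ≤ p := by rw [hp]; exact P1P_ge hdiv.le
  have hppos : 0 < p := by linarith
  have hε2 : ε ^ 2 ≤ ε / S := by
    rw [le_div_iff₀ hSpos]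
    have h1 : ε * S ≤ 1 := by nlinarith
    have h2 : ε * (ε * S) ≤ ε * 1 := mul_le_mul_of_nonneg_left h1 hεpos.le
    linarith [h2, (by ring : ε ^ 2 * S = ε * (ε * S))]
  have hd : 0 < (1 - ε ^ 2) * p := mul_pos (by linarith) hppos
  refine ⟨ε, S, ε / ((1 - ε ^ 2) * p), hεpos, hεe, hSpos, hBS, hS16, hεleS, by linarith,
    div_pos hεpos hd, ?_, ?_⟩
  · rw [← hp]
    exact div_mul_cancel₀ _ hd.ne'
  · rw [div_le_iff₀ hd]
    have h3 : (1 - ε ^ 2) * (1 - 2 * (ε / S)) ≤ (1 - ε ^ 2) * p :=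
      mul_le_mul_of_nonneg_left hp2 (by linarith)
    have h4 : 1 - τ / 4 ≤ (1 - ε ^ 2) * (1 - 2 * (ε / S)) := by
      have : (1 - ε ^ 2) * (1 - 2 * (ε / S)) = 1 - ε ^ 2 - 2 * (ε / S) + 2 * (ε ^ 2 * (ε / S)) := by ring
      rw [this]
      have h5 : 0 ≤ ε ^ 2 * (ε / S) := by positivity
      linarith
    have h5 : 1 ≤ (1 + τ / 2) * (1 - τ / 4) := by
      have : (1 + τ / 2) * (1 - τ / 4) = 1 + τ / 4 * (1 - τ / 2) := by ring
      rw [this]
      have : 0 ≤ τ / 4 * (1 - τ / 2) := mul_nonneg (by linarith) (by linarith)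
      linarith
    have h6 : (1 + τ / 2) * (1 - τ / 4) ≤ (1 + τ / 2) * ((1 - ε ^ 2) * p) :=
      mul_le_mul_of_nonneg_left (h4.trans h3) (by linarith)
    calc ε = ε * 1 := (mul_one _).symm
      _ ≤ ε * ((1 + τ / 2) * ((1 - ε ^ 2) * p)) := mul_le_mul_of_nonneg_left (h5.trans h6) hεpos.le
      _ = _ := by ring

/-- SN-P1: existence of the profile functions -/
theorem exists_prof (τ B : ℝ) (hτ : 0 < τ) (hτ1 : τ ≤ 1 / 100) (hB : 1 ≤ B) (e : ℝ) (he : 0 < e) :
    ∃ (ε zb zn : ℝ) (μ μ₁ μ₂ Q Q₁ Q₂ : ℝ → ℝ), ε ≤ e ∧ Prof τ B ε zb zn μ μ₁ μ₂ Q Q₁ Q₂ := by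
  have hB0 : 0 < B := by linarith
  obtain ⟨ε, S, A, hεpos, hεe, hSpos, hBS, hS16, hεleS, hεS', hApos, hAeq, hAle⟩ :=
    P1_params τ B hτ hτ1 hB e he
  have hSlt : S ≤ 1 / 1600 := by linarith
  have hετ : ε ≤ τ := by linarith
  have hε1 : ε < 1 / 100 := by linarith
  have hA2 : A ≤ 2 * ε := by
    have : ε * (1 + τ / 2) ≤ ε * 2 := mul_le_mul_of_nonneg_left (by linarith) hεpos.le
    linarith
  have hεt : 0 < ε * τ := by positivity
  have hAS : A * S ≤ ε * τ / 8 := by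
    have h1 : A * S ≤ 2 * ε * S := mul_le_mul_of_nonneg_right hA2 hSpos.le
    have h2 : ε * (16 * S) ≤ ε * τ := mul_le_mul_of_nonneg_left hS16 hεpos.le
    linarith
  have hAB : A * (B * S) ≤ ε * τ / 8 := by
    have h0 : 0 ≤ B * S := by positivity
    have h1 : A * (B * S) ≤ 2 * ε * (B * S) := mul_le_mul_of_nonneg_right hA2 h0
    have h2 : ε * (16 * (B * S)) = ε * τ := by rw [hBS]
    linarith
  obtain ⟨σ, hσ⟩ : ∃ σ, σ = ε * τ / 4 := ⟨_, rfl⟩
  have hσpos : 0 < σ := by rw [hσ]; positivity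
  obtain ⟨β, hβ⟩ : ∃ β, β = ε * τ := ⟨_, rfl⟩
  have hβpos : 0 < β := by rw [hβ]; exact hεt
  obtain ⟨zb, hzb⟩ : ∃ zb, zb = ε - σ := ⟨_, rfl⟩
  have hσε : σ ≤ ε / 400 := by
    have : ε * τ ≤ ε * (1 / 100) := mul_le_mul_of_nonneg_left hτ1 hεpos.le
    rw [hσ]
    linarith
  have hzbpos : 0 < zb := by rw [hzb]; linarith
  have hzb1 : zb ≤ 1 := by linarith
  obtain ⟨m1, m2, m3⟩ := P1_scaled β σ zb hσpos
  obtain ⟨k1, k2, k3⟩ := P1_scaled A S 0 hSpos
  simp only [sub_zero] at k1 k2 k3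
  refine ⟨ε, zb, ε, fun z => β * σ * P1q ((z - zb) / σ), fun z => -(β * P1P ((z - zb) / σ)),
    fun z => -(β / σ * P1D ((z - zb) / σ)), fun z => A * S * P1q (z / S), fun z => -(A * P1P (z / S)),
    fun z => -(A / S * P1D (z / S)), hεe, ?_⟩
  have hmz : ∀ z ∈ Icc zb 1, 0 ≤ (z - zb) / σ := fun z hz => div_nonneg (by linarith [hz.1]) hσpos.le
  have hqz : ∀ z ∈ Icc zb 1, 0 ≤ z / S := fun z hz => div_nonneg (by linarith [hz.1]) hSpos.le
  refine ⟨m1, k1, m2, m3, k2, k3, hεpos, hετ, hzbpos, ?_, ?_, by linarith, ?_, ?_, ?_, ?_, ?_, ?_, ?_, ?_,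
    ?_, ?_, ?_, ?_⟩
  · rw [hzb, hσ]
    linarith
  · rw [hzb]
    linarith
  · intro z hz
    have h1 := P1q_nonneg ((z - zb) / σ)
    have h2 := P1q_le (hmz z hz)
    rw [abs_of_nonneg (by positivity)]
    calc β * σ * P1q ((z - zb) / σ) ≤ β * σ * 1 := mul_le_mul_of_nonneg_left h2 (by positivity)
      _ = β * σ := mul_one _
      _ ≤ β * 1 := mul_le_mul_of_nonneg_left (by linarith) hβpos.le
      _ = ε * τ := by rw [hβ, mul_one]
  · intro z hz
    have h1 := P1P_nonneg ((z - zb) / σ)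
    have h2 := P1P_le (hmz z hz)
    rw [abs_neg, abs_of_nonneg (by positivity)]
    calc β * P1P ((z - zb) / σ) ≤ β * 1 := mul_le_mul_of_nonneg_left h2 hβpos.le
      _ = ε * τ := by rw [hβ, mul_one]
  · intro z _
    have h1 := P1D_nonpos ((z - zb) / σ)
    have h2 : 0 < β / σ := div_pos hβpos hσpos
    have h3 : β / σ * P1D ((z - zb) / σ) ≤ 0 := mul_nonpos_of_nonneg_of_nonpos h2.le h1
    show -(ε * τ) ≤ -(β / σ * P1D ((z - zb) / σ))
    linarith
  · intro z _
    exact mul_nonneg (by positivity) (P1q_nonneg _)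
  · intro z hz
    have h2 := P1q_le (hqz z hz)
    calc A * S * P1q (z / S) ≤ A * S * 1 := mul_le_mul_of_nonneg_left h2 (by positivity)
      _ ≤ ε * τ := by linarith
  · intro z hz
    have h1 := P1P_nonneg (z / S)
    have h2 := P1P_le (hqz z hz)
    rw [abs_neg, abs_of_nonneg (by positivity)]
    rcases le_total z S with h | h
    · have hz0 : 0 ≤ z := by linarith [hz.1]
      calc z * (A * P1P (z / S)) ≤ z * (A * 1) :=
            mul_le_mul_of_nonneg_left (mul_le_mul_of_nonneg_left h2 hApos.le) hz0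
        _ = A * z := by ring
        _ ≤ A * S := mul_le_mul_of_nonneg_left h hApos.le
        _ ≤ ε * τ := by linarith
    · rw [(P1_zero ((one_le_div hSpos).2 h)).1, mul_zero, mul_zero]
      positivity
  · intro z hz
    have h1 := P1D_nonpos (z / S)
    have h2 := P1D_ge (hqz z hz)
    have h3 : 0 < A / S := div_pos hApos hSpos
    rw [abs_neg, abs_mul, abs_of_pos h3, abs_of_nonpos h1]
    calc A / S * -P1D (z / S) ≤ A / S * 2 := mul_le_mul_of_nonneg_left (by linarith) h3.le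
      _ ≤ τ := by
        have h4 : A / S ≤ 2 * (ε / S) := by
          rw [← mul_div_assoc]
          exact div_le_div_of_nonneg_right hA2 hSpos.le
        linarith
  · intro z hz
    have hz0 : 0 ≤ z := by linarith [hz.1]
    have hz1 : z ≤ 1 := hz.2
    have h1 := P1D_nonpos (z / S)
    have h0 := P1P_nonneg (z / S)
    have h3 : 0 < A / S := div_pos hApos hSpos
    have h4 := P1_comb (hqz z hz)
    show |-(A * P1P (z / S))| + z * |-(A / S * P1D (z / S))| ≤ ε * (1 - z ^ 2 / 4) + ε * τ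
    rw [abs_neg, abs_neg, abs_mul (A / S), abs_of_pos h3, abs_of_nonpos h1, abs_of_nonneg (by positivity)]
    rcases le_total z S with h | h
    · have h5 : A * P1P (z / S) + z * (A / S * -P1D (z / S)) = A * (P1P (z / S) - z / S * P1D (z / S)) := by
        field_simp
        ring
      rw [h5]
      have h6 : z ^ 2 / 4 ≤ τ / 2 := by
        have : z * z ≤ S * 1 := mul_le_mul h hz1 hz0 hSpos.le
        nlinarith only [this, hS16, hτ]
      have h7 : ε * (z ^ 2 / 4) ≤ ε * (τ / 2) := mul_le_mul_of_nonneg_left h6 hεpos.le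
      calc A * (P1P (z / S) - z / S * P1D (z / S)) ≤ A * 1 := mul_le_mul_of_nonneg_left h4 hApos.le
        _ ≤ ε * (1 + τ / 2) := by linarith
        _ ≤ ε * (1 - z ^ 2 / 4) + ε * τ := by linarith
    · rw [(P1_zero ((one_le_div hSpos).2 h)).1, (P1_zero ((one_le_div hSpos).2 h)).2]
      have : 0 ≤ 1 - z ^ 2 / 4 := by nlinarith only [hz0, hz1]
      simp only [mul_zero, neg_zero, add_zero]
      positivity
  · have h1 : (ε - zb) / σ = 1 := by
      rw [hzb]
      have : ε - (ε - σ) = σ := by ring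
      rw [this, div_self hσpos.ne']
    show ε = (1 - ε ^ 2) * (-(β * P1P ((ε - zb) / σ)) - -(A * P1P (ε / S)))
    rw [h1, (P1_zero le_rfl).1]
    linarith
  · have h1 : (zb - zb) / σ = 0 := by
      rw [sub_self, zero_div]
    have hzb0 : 0 ≤ zb / S := div_nonneg hzbpos.le hSpos.le
    have h2 := P1q_le hzb0
    have h3 := P1P_le hzb0
    have h3' := P1P_nonneg (zb / S)
    show B * (A * S * P1q (zb / S)) < zb - (1 - zb ^ 2) * (-(β * P1P ((zb - zb) / σ)) - -(A * P1P (zb / S)))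
    rw [h1, P1P_zero']
    have h4 : B * (A * S * P1q (zb / S)) ≤ ε * τ / 8 := by
      calc B * (A * S * P1q (zb / S)) ≤ B * (A * S * 1) :=
            mul_le_mul_of_nonneg_left (mul_le_mul_of_nonneg_left h2 (by positivity)) hB0.le
        _ = A * (B * S) := by ring
        _ ≤ ε * τ / 8 := hAB
    have h5 : A * P1P (zb / S) ≤ A * 1 := mul_le_mul_of_nonneg_left h3 hApos.le
    have h6 : -(β * 1) - -(A * P1P (zb / S)) ≤ ε * (1 - τ / 2) := by
      rw [hβ]
      linarith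
    have h7 : (1 - zb ^ 2) * (-(β * 1) - -(A * P1P (zb / S))) ≤ ε * (1 - τ / 2) := by
      have h8 : 0 ≤ 1 - zb ^ 2 := by nlinarith only [hzbpos, hzb1]
      have h9 : 0 ≤ ε * (1 - τ / 2) := by
        have : 0 ≤ 1 - τ / 2 := by linarith
        positivity
      calc _ ≤ (1 - zb ^ 2) * (ε * (1 - τ / 2)) := mul_le_mul_of_nonneg_left h6 h8
        _ ≤ 1 * (ε * (1 - τ / 2)) := mul_le_mul_of_nonneg_right (by linarith [sq_nonneg zb]) h9
        _ = _ := one_mul _
    have h11 : zb = ε - ε * τ / 4 := by rw [hzb, hσ]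
    linarith
  · have h3' := P1P_nonneg (zb / S)
    show -(A * P1P (zb / S)) ≤ 0
    have : 0 ≤ A * P1P (zb / S) := mul_nonneg hApos.le h3'
    linarith
  · intro z hz
    constructor
    · show β * σ * P1q ((z - zb) / σ) = 0
      rw [P1q_zero, mul_zero]
      rw [one_le_div hσpos, hzb]
      linarith
    · show A * S * P1q (z / S) = 0
      rw [P1q_zero, mul_zero]
      rw [one_le_div hSpos]
      linarith

end SN
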