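import Pool.Agent.helper71.SN.C1
import Pool.Agent.helper71.SN.G3
import Pool.Agent.helper71.SN.O1
import Pool.Agent.helper71.SN.O2
import Pool.Agent.helper71.SN.J2
import Pool.Agent.helper71.SN.P1
import Pool.Agent.helper71.SN.N1

/-! SN-M1: lengths are less than `π`, no conjugate points -/

noncomputable section

namespace SN

open KBR Set Filter Topology
open scoped ContDiff RealInnerProductSpace

variable {n : ℕ}

lemma UGeod.restrict {L : E n → ℝ} {T T' : ℝ} {c v : ℝ → E n} (hg : UGeod L T c v) (h : T' ≤ T) :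
    UGeod L T' c v := by
  have hs : Icc (0 : ℝ) T' ⊆ Icc 0 T := Icc_subset_Icc_right h
  exact ⟨⟨fun t ht => hg.mem t (hs ht), fun t ht => (hg.vel t (hs ht)).mono hs,
    fun t ht => (hg.acc t (hs ht)).mono hs⟩, fun t ht => hg.unit t (hs ht)⟩

section

variable {κ : ℝ}

lemma XX_le (hκ : 0 < κ) (x : E n) : ‖XX κ x‖ ≤ 1 := by
  have h := round_sphere hκ x
  nlinarith [sq_nonneg (zz κ x), norm_nonneg (XX κ x)]

lemma zz_abs_le (hκ : 0 < κ) (x : E n) : |zz κ x| ≤ 1 := by
  have h := round_sphere hκ x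
  rw [abs_le_one_iff_mul_self_le_one]
  nlinarith [sq_nonneg (‖XX κ x‖)]

end

lemma ON.circ_le {a b : E n × ℝ} (h : ON a b) (t : ℝ) :
    ‖(circ a b t).1‖ ≤ 1 ∧ |(circ a b t).2| ≤ 1 := by
  have h1 := h.circ_norm t
  constructor
  · nlinarith [sq_nonneg ((circ a b t).2), norm_nonneg ((circ a b t).1)]
  · rw [abs_le_one_iff_mul_self_le_one]
    nlinarith [sq_nonneg (‖(circ a b t).1‖)]

lemma circ_cont (a b : E n × ℝ) : Continuous (circ a b) := by
  unfold circ
  exact (Real.continuous_cos.smul continuous_const).add (Real.continuous_sin.smul continuous_const)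

/-- SN-M1: lengths are less than `π`, no conjugate points -/
theorem exists_good (hn : 3 ≤ n) : ∃ (L : E n → ℝ) (κ r ρ : ℝ), Good L ∧ NetL L κ r ρ := by
  obtain ⟨ψ, B, hψ⟩ := exists_psi n
  obtain ⟨c₀, hc₀, hcI⟩ := exists_c hn hψ
  obtain ⟨m, hm⟩ : ∃ m, m = min c₀ 1 := ⟨_, rfl⟩
  have hm0 : 0 < m := by rw [hm]; exact lt_min hc₀ one_pos
  have hm1 : m ≤ 1 := by rw [hm]; exact min_le_right _ _
  have hmc : m ≤ c₀ := by rw [hm]; exact min_le_left _ _
  have hB := hψ.one_le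
  obtain ⟨δ, hδ, hδu⟩ := chi_unif hψ (m / 100) (by positivity)
  obtain ⟨τ, hτ⟩ : ∃ τ, τ = m / (10000 * (1 + B)) := ⟨_, rfl⟩
  have hτ0 : 0 < τ := by rw [hτ]; positivity
  have hτB : 100 * (1 + B) * τ = m / 100 := by
    rw [hτ]; field_simp; ring
  have hτ1 : τ ≤ 1 / 100 := by nlinarith
  obtain ⟨ε, zb, zn, μ, μ₁, μ₂, Q, Q₁, Q₂, hεe, hP⟩ :=
    exists_prof τ B hτ0 hτ1 hB (min (δ / 50) (1 / 100)) (lt_min (by positivity) (by norm_num))
  have hε := hP.ε_pos
  have hεδ : 50 * ε ≤ δ := by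
    have := hεe.trans (min_le_left _ _)
    linarith
  have hε1 : ε ≤ 1 / 100 := hεe.trans (min_le_right _ _)
  have h : Par τ B ε zb zn μ μ₁ μ₂ Q Q₁ Q₂ ψ := ⟨hP, hψ, hτ0, by rw [hτB]; linarith⟩
  have hκ := kap_pos h
  obtain ⟨κ', r, ρ, hnet⟩ := netL h
  have hL := hnet.smooth
  have hz2 : ContDiff ℝ 2 (zz (n := n) (kap zb)) := (zz_smooth hκ).of_le (WithTop.coe_le_coe.2 le_top)
  -- closeness of `chi`
  have hclose : ∀ T, 0 ≤ T → T ≤ Real.pi → ∀ c v, UGeod (LL (kap zb) μ Q ψ) T c v →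
      ∃ a b : E n × ℝ, ON a b ∧ ∀ t ∈ Icc 0 T,
        |chi ψ (XX (kap zb) (c t), zz (kap zb) (c t)) - chi ψ (circ a b t)| ≤ m / 100 := by
    intro T hT0 hT c v hg
    obtain ⟨a, b, hab, hcl⟩ := close_circ h hT0 hT hg
    refine ⟨a, b, hab, fun t ht => hδu _ _ (XX_le hκ _) (zz_abs_le hκ _) (hab.circ_le t).1
      (hab.circ_le t).2 ?_ ?_⟩
    · exact (hcl t ht).1.trans hεδ
    · exact (hcl t ht).2.trans hεδ
  have hlen : ∀ T c v, UGeod (LL (kap zb) μ Q ψ) T c v → T < Real.pi := by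
    intro T c v hg
    by_contra hT
    have hg' := hg.restrict (not_lt.mp hT)
    obtain ⟨a, b, hab, hcl⟩ := hclose Real.pi Real.pi_pos.le le_rfl c v hg'
    have hχ : Continuous (fun t => chi ψ (circ a b t)) := (chi_cont hψ).comp (circ_cont a b)
    refine od_length (q := fun t => zz (kap zb) (c t) - zb)
      (q' := fun t => fderiv ℝ (zz (kap zb)) (c t) (v t))
      (q'' := fun t => hess (LL (kap zb) μ Q ψ) (zz (kap zb)) (c t) (v t))
      (χ := fun t => chi ψ (circ a b t)) (τ := m / 50) hε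
      (fun t ht => (hess_along1 hz2 hg'.toCGeod t ht).sub_const zb)
      (fun t ht => hess_along2 hz2 hg'.toCGeod t ht) ?_ ?_ hχ ?_ ?_
    · have := (zz_mem h (hg'.mem 0 ⟨le_rfl, Real.pi_pos.le⟩)).1
      show 0 ≤ zz (kap zb) (c 0) - zb
      linarith
    · have := (zz_mem h (hg'.mem Real.pi ⟨Real.pi_pos.le, le_rfl⟩)).1
      show 0 ≤ zz (kap zb) (c Real.pi) - zb
      linarith
    · intro t ht
      have h1 := est_b' h (hg'.mem t ht) (hg'.unit t ht)
      rw [hτB] at h1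
      have h2 := abs_le.mp (hcl t ht)
      refine h1.trans ?_
      have : ε * (chi ψ (circ a b t) - m / 50) ≤
          ε * (chi ψ (XX (kap zb) (c t), zz (kap zb) (c t)) - m / 100) :=
        mul_le_mul_of_nonneg_left (by linarith [h2.1]) hε.le
      linarith
    · have := hcI a b hab
      linarith
  refine ⟨LL (kap zb) μ Q ψ, κ', r, ρ, ⟨hL, fun x hx => est_bd h hx, hlen, ?_, ?_⟩, hnet⟩
  · intro T c v J W hT hg hJ hJ0 hJT
    have hTπ := hlen T c v hg
    obtain ⟨a, b, hab, hcl⟩ := hclose T hT.le hTπ.le c v hg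
    have hχ : Continuous (fun t => chi ψ (circ a b t)) := (chi_cont hψ).comp (circ_cont a b)
    have hsq : ∀ t, (circ a b t).2 ^ 2 ≤ 4 := fun t => by
      have := (hab.circ_le t).2
      have h3 : (circ a b t).2 ^ 2 ≤ 1 := by
        rw [← sq_abs]; exact pow_le_one₀ (abs_nonneg _) this
      linarith
    obtain ⟨h₁, h₁', hd1, hd2, hb⟩ := od_aux (τ := m / 8) hχ (fun t => chi_nonneg hψ _ (hsq t))
      (fun t => chi_le hψ _ (hsq t)) (by positivity) (by
        have := hcI a b hab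
        linarith)
    refine no_conj hL hT hg
      (Q := fun t => (zz (kap zb) (c t) - zb) + ε * h₁ t)
      (Q' := fun t => fderiv ℝ (zz (kap zb)) (c t) (v t) + ε * h₁' t)
      (Q'' := fun t => hess (LL (kap zb) μ Q ψ) (zz (kap zb)) (c t) (v t) +
        ε * (chi ψ (circ a b t) - 2 * (m / 8) - h₁ t))
      (fun t ht => ((hess_along1 hz2 hg.toCGeod t ht).sub_const zb).add
        ((hd1 t).hasDerivWithinAt.const_mul ε))
      (fun t ht => (hess_along2 hz2 hg.toCGeod t ht).add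
        ((hd2 t).hasDerivWithinAt.const_mul ε)) ?_ ?_ hJ hJ0 hJT
    · intro t ht
      have h1 := (zz_mem h (hg.mem t ht)).1
      have h2 := (hb t ⟨ht.1, ht.2.trans hTπ.le⟩).1
      have h3 : 0 ≤ ε * h₁ t := mul_nonneg hε.le h2
      show 0 ≤ (zz (kap zb) (c t) - zb) + ε * h₁ t
      linarith
    · intro t ht w hw hvw
      have h1 := est_b h (hg.mem t ht) (hg.unit t ht) hw hvw
      have h2 := est_c h (hg.mem t ht) (hg.unit t ht) hw hvw
      rw [hτB] at h1 h2
      have h3 := abs_le.mp (hcl t ht)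
      obtain ⟨h4, h5⟩ := hb t ⟨ht.1, ht.2.trans hTπ.le⟩
      set K := sec (LL (kap zb) μ Q ψ) (c t) (v t) w with hK
      set χp := chi ψ (XX (kap zb) (c t), zz (kap zb) (c t)) with hχp
      set χ0 := chi ψ (circ a b t) with hχ0
      have h6 : (K - 1) * h₁ t ≤ m / 20 := by
        have : (K - 1) * h₁ t ≤ (m / 100) * h₁ t := mul_le_mul_of_nonneg_right (by linarith) h4
        have : (m / 100) * h₁ t ≤ (m / 100) * 5 := mul_le_mul_of_nonneg_left h5 (by positivity)
        linarith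
      have h7 : hess (LL (kap zb) μ Q ψ) (zz (kap zb)) (c t) (v t) +
          ε * (χ0 - 2 * (m / 8) - h₁ t) + K * (zz (kap zb) (c t) - zb + ε * h₁ t) ≤
          ε * (-(χp - m / 100) + (χ0 - m / 4) + (K - 1) * h₁ t) := by
        have : hess (LL (kap zb) μ Q ψ) (zz (kap zb)) (c t) (v t) +
          ε * (χ0 - 2 * (m / 8) - h₁ t) + K * (zz (kap zb) (c t) - zb + ε * h₁ t) =
          (hess (LL (kap zb) μ Q ψ) (zz (kap zb)) (c t) (v t) + K * (zz (kap zb) (c t) - zb)) +
          ε * ((χ0 - m / 4) + (K - 1) * h₁ t) := by ring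
        rw [this]
        nlinarith
      refine h7.trans_lt ?_
      refine mul_neg_of_pos_of_neg hε ?_
      linarith [h3.1]
  · intro T c v hT hg
    exact no_loop h (by linarith) hT (hlen T c v hg).le hg

end SN
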