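import Pool.Agent.helper71.SN.H5
import Pool.Agent.helper71.SN.M1
import Pool.Agent.helper71.SN.E4

/-! SN-Fin: assembly -/

noncomputable section

namespace SN

open KBR Set Filter Topology
open scoped ContDiff RealInnerProductSpace

variable {n : ℕ}

/-- every strictly convex function gives a convex foliation -/
theorem StrictConvexFn.fol (hn : 0 < n) {Γ : E n → E n → E n → E n} {f : E n → ℝ}
    (h : StrictConvexFn Γ f) : ∃ a, ConvexFoliation Γ f a := by
  have hcomp : IsCompact (M n) := isCompact_closedBall 0 1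
  have hne : (M n).Nonempty := ⟨0, Metric.mem_closedBall_self zero_le_one⟩
  obtain ⟨x₀, hx₀, hmin⟩ := hcomp.exists_isMinOn hne h.cont
  refine ⟨f x₀, h.cont, fun x hx _ => h.smooth x hx, fun x hx _ v hv _ => h.pos x hx v hv, ?_⟩
  rw [Set.eq_empty_iff_forall_notMem]
  intro x hx
  -- `x` is an interior point of the ball
  have hsub : {x ∈ M n | f x ≤ f x₀} ⊆ M n := fun y hy => hy.1
  have hxb : ‖x‖ < 1 := by
    have h1 : x ∈ interior (M n) := interior_mono hsub hx
    unfold M at h1
    rw [interior_closedBall _ one_ne_zero] at h1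
    simpa using h1
  -- near `x` the function is constant
  have hev : f =ᶠ[𝓝 x] fun _ => f x₀ := by
    filter_upwards [mem_interior_iff_mem_nhds.1 hx] with y hy
    exact le_antisymm hy.2 (hmin hy.1)
  have h1 : fderiv ℝ f x = 0 := by
    rw [hev.fderiv_eq]
    simp
  have h2 : fderiv ℝ f =ᶠ[𝓝 x] fun _ => 0 := by
    refine hev.fderiv.trans ?_
    filter_upwards with y
    simp
  have h3 : fderiv ℝ (fderiv ℝ f) x = 0 := by
    rw [h2.fderiv_eq]
    simp
  set v : E n := EuclideanSpace.single ⟨0, hn⟩ 1 with hv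
  have hv0 : v ≠ 0 := by
    intro h0
    have h4 := congrFun (congrArg (fun u : E n => (u : Fin n → ℝ)) h0) ⟨0, hn⟩
    rw [hv] at h4
    simp at h4
  have h5 := h.pos x hxb v hv0
  unfold Hess at h5
  rw [h1, h3] at h5
  simp at h5

/-- the theorem -/
theorem main (n : ℕ) (hn : 3 ≤ n) : ∃ (G : Fld n) (Γ : E n → E n → E n → E n),
    Simple G Γ ∧ (¬ ∃ f, StrictConvexFn Γ f) ∧ (¬ ∃ f a, ConvexFoliation Γ f a) := by
  obtain ⟨L, κ, r, ρ, hg, hnet⟩ := exists_good hn
  have key : ¬ ∃ f a, ConvexFoliation (cGam L) f a := by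
    rintro ⟨f, a, hf⟩
    have h1 : QC L f a := ⟨hf.cont, hf.smooth, fun x hx ha v hv hfv => by
      rw [← Hess_cGam]; exact hf.convex x hx ha v hv hfv⟩
    have h2 := no_foliation hn hnet f a h1
    rw [hf.thin] at h2
    exact Set.not_nonempty_empty h2
  refine ⟨cG L, cGam L, ⟨cG_isMet hg.smooth, cGam_chr hg.smooth, convexBd_of hg.smooth hg.conv,
    exp_diffeo hg⟩, ?_, key⟩
  rintro ⟨f, hf⟩
  obtain ⟨a, ha⟩ := StrictConvexFn.fol (by omega) hf
  exact key ⟨f, a, ha⟩

end SN
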