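import Pool.Agent.helper71.SN.Fin

/-! # The theorem with the bound for the lengths of the geodesics -/

noncomputable section

namespace SN

open KBR Set Filter Topology
open scoped ContDiff RealInnerProductSpace

variable {n : ℕ}

/-- all unit speed geodesics in `M` have length less than `π` (in particular `g` is nontrapping) -/
def LenLtPi (G : Fld n) : Prop :=
  ∀ T c v, Geod G T c v → (∀ t ∈ Icc 0 T, gm G (c t) (v t) (v t) = 1) → T < Real.pi

/-- the theorem, with the bound for the lengths -/
theorem main2 (n : ℕ) (hn : 3 ≤ n) : ∃ (G : Fld n) (Γ : E n → E n → E n → E n),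
    Simple G Γ ∧ LenLtPi G ∧ (¬ ∃ f, StrictConvexFn Γ f) ∧ (¬ ∃ f a, ConvexFoliation Γ f a) := by
  obtain ⟨L, κ, r, ρ, hg, hnet⟩ := exists_good hn
  have key : ¬ ∃ f a, ConvexFoliation (cGam L) f a := by
    rintro ⟨f, a, hf⟩
    have h1 : QC L f a := ⟨hf.cont, hf.smooth, fun x hx ha v hv hfv => by
      rw [← Hess_cGam]; exact hf.convex x hx ha v hv hfv⟩
    have h2 := no_foliation hn hnet f a h1
    rw [hf.thin] at h2
    exact Set.not_nonempty_empty h2
  refine ⟨cG L, cGam L, ⟨cG_isMet hg.smooth, cGam_chr hg.smooth, convexBd_of hg.smooth hg.conv,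
    exp_diffeo hg⟩, ?_, ?_, key⟩
  · intro T c v h hu
    refine hg.len T c v ⟨(geod_iff hg.smooth).1 h, fun t ht => ?_⟩
    have h1 := hu t ht
    simp only [gm, cG, ContinuousLinearMap.smul_apply, ContinuousLinearMap.id_apply,
      real_inner_smul_left, real_inner_self_eq_norm_sq] at h1
    exact h1
  · rintro ⟨f, hf⟩
    obtain ⟨a, ha⟩ := StrictConvexFn.fol (by omega) hf
    exact key ⟨f, a, ha⟩

end SN
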