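import Pool.Agent.helper71.SN.Defs2

/-! SN-G1 -/

noncomputable section

namespace SN

open KBR Set Filter Topology
open scoped ContDiff RealInnerProductSpace

variable {n : ℕ}

/-- a nonzero sinusoid has at most one zero in `[0, π)` -/
theorem sinus_sub {A B : ℝ} (h : ¬ (A = 0 ∧ B = 0)) :
    {t : ℝ | t ∈ Ico (0 : ℝ) Real.pi ∧ Real.cos t * A + Real.sin t * B = 0}.Subsingleton := by
  rintro t ⟨ht, e1⟩ t' ⟨ht', e2⟩
  have h1 : Real.sin (t - t') * B = 0 := by
    rw [Real.sin_sub]
    linear_combination Real.cos t' * e1 - Real.cos t * e2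
  have h2 : Real.sin (t - t') * A = 0 := by
    rw [Real.sin_sub]
    linear_combination Real.sin t * e2 - Real.sin t' * e1
  have h3 : Real.sin (t - t') = 0 := by
    by_contra hne
    exact h ⟨(mul_eq_zero.1 h2).resolve_left hne, (mul_eq_zero.1 h1).resolve_left hne⟩
  have h4 : t - t' = 0 :=
    (Real.sin_eq_zero_iff_of_lt_of_lt (by linarith [ht.1, ht'.2]) (by linarith [ht.2, ht'.1])).1 h3
  linarith

/-- a sinusoid has a zero in `[0, π]` -/
theorem sinus_zero (A B : ℝ) : ∃ t ∈ Icc (0 : ℝ) Real.pi, Real.cos t * A + Real.sin t * B = 0 := by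
  have hc : ContinuousOn (fun t : ℝ => Real.cos t * A + Real.sin t * B) (Icc 0 Real.pi) := by
    fun_prop
  rcases le_total 0 A with hA | hA
  · have := intermediate_value_Icc' Real.pi_pos.le hc
    have h0 : (0 : ℝ) ∈ Icc ((fun t : ℝ => Real.cos t * A + Real.sin t * B) Real.pi)
        ((fun t : ℝ => Real.cos t * A + Real.sin t * B) 0) := by
      simp [hA]
    obtain ⟨t, ht, he⟩ := this h0
    exact ⟨t, ht, he⟩
  · have := intermediate_value_Icc Real.pi_pos.le hc
    have h0 : (0 : ℝ) ∈ Icc ((fun t : ℝ => Real.cos t * A + Real.sin t * B) 0)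
        ((fun t : ℝ => Real.cos t * A + Real.sin t * B) Real.pi) := by
      simp [hA]
    obtain ⟨t, ht, he⟩ := this h0
    exact ⟨t, ht, he⟩

theorem circ_ne_zero {a b : E n} (ha : ‖a‖ = 1) (hb : ‖b‖ = 1) (hab : ⟪a, b⟫ = 0) (t : ℝ) :
    Real.cos t • a + Real.sin t • b ≠ 0 := by
  intro h
  have h1 : ⟪a, Real.cos t • a + Real.sin t • b⟫ = Real.cos t := by
    rw [inner_add_right, inner_smul_right, inner_smul_right, hab, real_inner_self_eq_norm_sq, ha]
    simp
  have h2 : ⟪b, Real.cos t • a + Real.sin t • b⟫ = Real.sin t := by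
    rw [inner_add_right, inner_smul_right, inner_smul_right, real_inner_comm, hab,
      real_inner_self_eq_norm_sq, hb]
    simp
  rw [h, inner_zero_right] at h1 h2
  have := Real.sin_sq_add_cos_sq t
  rw [← h1, ← h2] at this
  norm_num at this

/-- two coordinates of a nonzero point of the net do not vanish simultaneously -/
theorem NN_two_zero {x : E n} (hx : x ∈ NN n) {j k : Fin n} (hjk : j ≠ k) (hj : x j = 0)
    (hk : x k = 0) : x = 0 := by
  obtain ⟨i, m, h1, h2⟩ := hx
  have hm : m = 0 := by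
    by_cases hji : j = i
    · have := h2 k (fun h => hjk (hji.trans h.symm))
      rw [hk, abs_zero] at this
      exact this.symm
    · have := h2 j hji
      rw [hj, abs_zero] at this
      exact this.symm
  ext l
  by_cases hl : l = i
  · rw [hm] at h1
    rw [hl]
    simpa using abs_nonpos_iff.1 h1
  · have := h2 l hl
    rw [hm] at this
    simpa using this

/-- SN-G1: a great semicircle is not contained in the cone over the edges of the cube -/
theorem semi (hn : 3 ≤ n) {a b : E n} (ha : ‖a‖ = 1) (hb : ‖b‖ = 1) (hab : ⟪a, b⟫ = 0) :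
    ∃ t ∈ Icc (0 : ℝ) Real.pi, Real.cos t • a + Real.sin t • b ∉ NN n := by
  by_contra hcon
  push Not at hcon
  -- coordinates
  have hco : ∀ (t : ℝ) (j : Fin n), (Real.cos t • a + Real.sin t • b) j =
      Real.cos t * a j + Real.sin t * b j := by
    intro t j
    simp
  -- no two coordinates are proportional with factor `σ`
  have key : ∀ (j k : Fin n), j ≠ k → ∀ σ : ℝ, ¬ (a j - σ * a k = 0 ∧ b j - σ * b k = 0) := by
    rintro j k hjk σ ⟨e1, e2⟩
    obtain ⟨t, ht, h0⟩ := sinus_zero (a k) (b k)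
    have hk : (Real.cos t • a + Real.sin t • b) k = 0 := by rw [hco]; exact h0
    have hj : (Real.cos t • a + Real.sin t • b) j = 0 := by
      rw [hco]
      linear_combination Real.cos t * e1 + Real.sin t * e2 + σ * h0
    exact circ_ne_zero ha hb hab t (NN_two_zero (hcon t ht) hjk hj hk)
  let i0 : Fin n := ⟨0, by omega⟩
  let i1 : Fin n := ⟨1, by omega⟩
  let i2 : Fin n := ⟨2, by omega⟩
  have h01 : i0 ≠ i1 := by simp [i0, i1]
  have h02 : i0 ≠ i2 := by simp [i0, i2]
  have h12 : i1 ≠ i2 := by simp [i1, i2]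
  -- zero sets
  let Z : Fin n → Fin n → ℝ → Set ℝ := fun j k σ => {t : ℝ | t ∈ Ico (0 : ℝ) Real.pi ∧
    Real.cos t * (a j - σ * a k) + Real.sin t * (b j - σ * b k) = 0}
  have hZ : ∀ j k, j ≠ k → ∀ σ, (Z j k σ).Finite := fun j k hjk σ =>
    (sinus_sub (key j k hjk σ)).finite
  have hfin : (Z i0 i1 1 ∪ Z i0 i1 (-1) ∪ (Z i0 i2 1 ∪ Z i0 i2 (-1)) ∪
      (Z i1 i2 1 ∪ Z i1 i2 (-1))).Finite :=
    ((((hZ _ _ h01 _).union (hZ _ _ h01 _)).union ((hZ _ _ h02 _).union (hZ _ _ h02 _))).union
      ((hZ _ _ h12 _).union (hZ _ _ h12 _)))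
  have hinf : (Ico (0 : ℝ) Real.pi).Infinite := Ico_infinite Real.pi_pos
  apply hinf
  refine hfin.subset ?_
  intro t ht
  obtain ⟨i, m, h1, h2⟩ := hcon t ⟨ht.1, ht.2.le⟩
  -- two coordinates different from `i` have the same absolute value
  have hpair : ∀ j k, j ≠ i → k ≠ i → t ∈ Z j k 1 ∪ Z j k (-1) := by
    intro j k hj hk
    have e1 := h2 j hj
    rw [← h2 k hk, hco, hco] at e1
    rcases abs_eq_abs.1 e1 with e | e
    · left
      refine ⟨ht, ?_⟩
      linear_combination e
    · right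
      refine ⟨ht, ?_⟩
      linear_combination e
  by_cases hi0 : i0 = i
  · right
    exact hpair _ _ (fun h => h01 (hi0.trans h.symm)) (fun h => h02 (hi0.trans h.symm))
  · left
    by_cases hi1 : i1 = i
    · right
      exact hpair _ _ hi0 (fun h => h12 (hi1.trans h.symm))
    · left
      exact hpair _ _ hi0 hi1

end SN
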