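import Pool.Agent.helper71.SN.Defs2
import Pool.Agent.helper71.SN.G2
import Pool.Agent.helper71.SN.J1

/-! SN-H1 -/

noncomputable section

namespace SN

open KBR Set Filter Topology
open scoped ContDiff RealInnerProductSpace

variable {n : ℕ}

variable {L f : E n → ℝ} {κ r ρ a : ℝ}

/-- a function with `g' = 0`, `g'' > 0` at `0` is not maximal at `0` on a right neighbourhood, and
neither is one with `g' > 0` -/
theorem h1_calc {g g' : ℝ → ℝ} {D : ℝ} (h1 : ∀ᶠ s in 𝓝 (0 : ℝ), HasDerivAt g (g' s) s)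
    (h2 : HasDerivAt g' D 0) (hD : g' 0 = 0 → 0 < D) (hmax : ∀ᶠ s in 𝓝[>] (0 : ℝ), g s ≤ g 0) :
    g' 0 < 0 := by
  by_contra hcon
  rw [not_lt] at hcon
  -- `g' > 0` on a right neighbourhood
  have hpos : ∀ᶠ s in 𝓝[>] (0 : ℝ), 0 < g' s := by
    rcases hcon.eq_or_lt with h0 | h0
    · have hD' := hD h0.symm
      have hs := hasDerivAt_iff_tendsto_slope.1 h2
      have hs' : Tendsto (slope g' 0) (𝓝[>] (0 : ℝ)) (𝓝 D) :=
        hs.mono_left (nhdsWithin_mono _ (fun x hx => ne_of_gt hx))
      filter_upwards [hs'.eventually (lt_mem_nhds hD'), self_mem_nhdsWithin] with s hs1 hs2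
      rw [slope_def_field, ← h0, sub_zero, sub_zero] at hs1
      have hs3 : (0 : ℝ) < s := hs2
      exact (div_pos_iff_of_pos_right hs3).1 hs1
    · exact (h2.continuousAt.eventually (lt_mem_nhds h0)).filter_mono nhdsWithin_le_nhds
  obtain ⟨δ₁, hδ₁, H1⟩ := Metric.eventually_nhds_iff.1 h1
  obtain ⟨δ₂, hδ₂, H2⟩ := mem_nhdsGT_iff_exists_Ioo_subset.1 hpos
  obtain ⟨δ₃, hδ₃, H3⟩ := mem_nhdsGT_iff_exists_Ioo_subset.1 hmax
  have hδ₂' : (0 : ℝ) < δ₂ := hδ₂
  have hδ₃' : (0 : ℝ) < δ₃ := hδ₃
  obtain ⟨s, hs0, hs1, hs2, hs3⟩ : ∃ s : ℝ, 0 < s ∧ s < δ₁ ∧ s < δ₂ ∧ s < δ₃ := by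
    refine ⟨min δ₁ (min δ₂ δ₃) / 2, ?_, ?_, ?_, ?_⟩
    · positivity
    · have := min_le_left δ₁ (min δ₂ δ₃)
      have h0 : 0 < min δ₁ (min δ₂ δ₃) := by positivity
      linarith
    · have := (min_le_right δ₁ (min δ₂ δ₃)).trans (min_le_left _ _)
      have h0 : 0 < min δ₁ (min δ₂ δ₃) := by positivity
      linarith
    · have := (min_le_right δ₁ (min δ₂ δ₃)).trans (min_le_right _ _)
      have h0 : 0 < min δ₁ (min δ₂ δ₃) := by positivity
      linarith
  have hd : ∀ t ∈ Icc 0 s, HasDerivAt g (g' t) t := by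
    intro t ht
    apply H1
    rw [Real.dist_eq, sub_zero, abs_of_nonneg ht.1]
    linarith [ht.2]
  obtain ⟨t, ht, he⟩ := exists_hasDerivAt_eq_slope g g' hs0
    (fun t ht => (hd t ht).continuousAt.continuousWithinAt) (fun t ht => hd t ⟨ht.1.le, ht.2.le⟩)
  have ht2 : 0 < g' t := H2 ⟨ht.1, ht.2.trans hs2⟩
  have ht3 : g s ≤ g 0 := H3 ⟨hs0, hs3⟩
  rw [he, sub_zero] at ht2
  have := (div_pos_iff_of_pos_right hs0).1 ht2
  linarith

/-- at a maximum point of `f` on the net with value above `a`, the derivative of `f` is negative in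
all admissible directions -/
theorem h1_arc (hL : NetL L κ r ρ) (hf : QC L f a) {p : E n} (hp : p ∈ NN n) (hpr : ‖p‖ = r)
    (hpa : a < f p) (hmax : ∀ x ∈ NN n, ‖x‖ = r → f x ≤ f p) {w : E n} (hw : w ≠ 0)
    (hpw : ⟪p, w⟫ = 0) (hadm : ∀ᶠ t in 𝓝[>] (0 : ℝ), p + t • w ∈ NN n) : fderiv ℝ f p w < 0 := by
  have hr := hL.r_pos
  have hr1 := hL.r_lt
  have hp1 : ‖p‖ < 1 := by rw [hpr]; exact hr1
  have hwn : 0 < ‖w‖ := norm_pos_iff.2 hw
  set lam : ℝ := r / ‖w‖ with hlam
  have hlam0 : 0 < lam := div_pos hr hwn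
  set v : E n := lam • w with hv
  have hvn : ‖v‖ = r := by
    rw [hv, norm_smul, Real.norm_eq_abs, abs_of_pos hlam0, hlam]
    field_simp
  have hpv : ⟪p, v⟫ = 0 := by rw [hv, inner_smul_right, hpw, mul_zero]
  have hv0 : v ≠ 0 := by
    rw [← norm_pos_iff, hvn]; exact hr
  -- the arc
  set c : ℝ → E n := fun s => Real.cos s • p + Real.sin s • v with hc
  set c' : ℝ → E n := fun s => -Real.sin s • p + Real.cos s • v with hc'
  have hcd : ∀ s, HasDerivAt c (c' s) s := by
    intro s
    exact ((Real.hasDerivAt_cos s).smul_const p).add ((Real.hasDerivAt_sin s).smul_const v)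
  have hcd' : HasDerivAt c' (-p) 0 := by
    have h1 := ((Real.hasDerivAt_sin 0).neg.smul_const p).add
      ((Real.hasDerivAt_cos 0).smul_const v)
    have e : -p = -Real.cos 0 • p + -Real.sin 0 • v := by simp
    rw [e]
    exact h1
  have hc0 : c 0 = p := by simp [hc]
  have hc'0 : c' 0 = v := by simp [hc']
  have hcn : ∀ s, ‖c s‖ = r := by
    intro s
    have h1 : ‖c s‖ ^ 2 = r ^ 2 := by
      rw [hc]
      simp only
      rw [norm_add_sq_real, norm_smul, norm_smul, inner_smul_left, inner_smul_right, hpv, hpr, hvn,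
        mul_pow, mul_pow, Real.norm_eq_abs, Real.norm_eq_abs, sq_abs, sq_abs]
      have := Real.sin_sq_add_cos_sq s
      simp only [mul_zero, add_zero]
      linear_combination r ^ 2 * this
    exact (pow_left_inj₀ (norm_nonneg _) hr.le (by norm_num)).1 h1
  have hf2 := hf.smooth p hp1 hpa
  -- `f` is differentiable near `p`, and so is its derivative at `p`
  have hdf : ∀ᶠ x in 𝓝 p, DifferentiableAt ℝ f x := by
    have := hf2.eventually (by simp)
    filter_upwards [this] with x hx
    exact hx.differentiableAt (by norm_num)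
  have hddf : DifferentiableAt ℝ (fderiv ℝ f) p :=
    (hf2.fderiv_right (m := 1) (by norm_num)).differentiableAt (by norm_num)
  have hccont : ContinuousAt c 0 := (hcd 0).continuousAt
  have h1 : ∀ᶠ s in 𝓝 (0 : ℝ), HasDerivAt (fun s => f (c s)) (fderiv ℝ f (c s) (c' s)) s := by
    have h2 : ∀ᶠ s in 𝓝 (0 : ℝ), DifferentiableAt ℝ f (c s) := by
      apply hccont.eventually
      rw [hc0]
      exact hdf
    filter_upwards [h2] with s hs
    exact hs.hasFDerivAt.comp_hasDerivAt s (hcd s)
  have h2 : HasDerivAt (fun s => fderiv ℝ f (c s) (c' s))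
      (fderiv ℝ (fderiv ℝ f) p v v + fderiv ℝ f p (-p)) 0 := by
    have e1 : HasDerivAt (fun s => fderiv ℝ f (c s)) (fderiv ℝ (fderiv ℝ f) p v) 0 := by
      have h3 : HasFDerivAt (fderiv ℝ f) (fderiv ℝ (fderiv ℝ f) p) (c 0) := by
        rw [hc0]; exact hddf.hasFDerivAt
      have h4 := h3.comp_hasDerivAt 0 (hcd 0)
      rw [hc'0] at h4
      exact h4
    have e2 := e1.clm_apply hcd'
    rw [hc0, hc'0] at e2
    exact e2
  have hgacc : gacc L p v = -p := by
    have hg := hL.geo p hp hpr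
    have hfd : fderiv ℝ L p v = 0 := by
      have h3 : ⟪gradient L p, v⟫ = fderiv ℝ L p v := by
        unfold gradient
        exact InnerProductSpace.toDual_symm_apply
      rw [← h3, hg, inner_smul_left, hpv, mul_zero]
    unfold gacc
    rw [hfd, hg, hvn, mul_zero, neg_zero, zero_smul, zero_add, smul_smul]
    have : r ^ 2 * -(1 / r ^ 2) = -1 := by field_simp
    rw [this, neg_one_smul]
  have h3 := h1_calc h1 h2 (by
    intro h0
    simp only [hc0, hc'0] at h0
    have := hf.convex p hp1 hpa v hv0 h0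
    unfold hess at this
    rw [hgacc] at this
    exact this) (by
    have ht : Tendsto (fun s : ℝ => Real.tan s * lam) (𝓝[>] (0 : ℝ)) (𝓝[>] (0 : ℝ)) := by
      apply tendsto_nhdsWithin_of_tendsto_nhds_of_eventually_within
      · have : ContinuousAt (fun s : ℝ => Real.tan s * lam) 0 := by
          apply ContinuousAt.mul _ continuousAt_const
          rw [Real.continuousAt_tan]
          simp
        have h5 := this.tendsto
        simp only [Real.tan_zero, zero_mul] at h5
        exact h5.mono_left nhdsWithin_le_nhds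
      · have : Ioo (0 : ℝ) (Real.pi / 2) ∈ 𝓝[>] (0 : ℝ) :=
          Ioo_mem_nhdsGT (by positivity)
        filter_upwards [this] with s hs
        exact mul_pos (Real.tan_pos_of_pos_of_lt_pi_div_two hs.1 hs.2) hlam0
    have hI : Ioo (0 : ℝ) (Real.pi / 2) ∈ 𝓝[>] (0 : ℝ) := Ioo_mem_nhdsGT (by positivity)
    filter_upwards [ht.eventually hadm, hI] with s hs hs2
    have hcos : 0 < Real.cos s := Real.cos_pos_of_mem_Ioo ⟨by linarith [hs2.1, Real.pi_pos], hs2.2⟩
    simp only [hc0]
    apply hmax _ _ (hcn s)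
    have e : c s = Real.cos s • (p + (Real.tan s * lam) • w) := by
      simp only [hc, hv]
      rw [smul_add, smul_smul, smul_smul, Real.tan_eq_sin_div_cos]
      congr 2
      field_simp
    rw [e]
    exact NN_smul hs _)
  simp only [hc0, hc'0] at h3
  rw [hv, map_smul, smul_eq_mul] at h3
  by_contra hcon
  rw [not_lt] at hcon
  have := mul_nonneg hlam0.le hcon
  linarith

theorem h1_third (hn : 3 ≤ n) (i k : Fin n) : ∃ j, j ≠ i ∧ j ≠ k := by
  by_contra hcon
  push Not at hcon
  have h1 : (Finset.univ : Finset (Fin n)) ⊆ {i, k} := by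
    intro j _
    by_cases hj : j = i
    · simp [hj]
    · simp [hcon j hj]
  have h2 := Finset.card_le_card h1
  have h3 : ({i, k} : Finset (Fin n)).card ≤ 2 := Finset.card_le_two
  rw [Finset.card_univ, Fintype.card_fin] at h2
  omega

/-- the tangential part of `σ e_k` -/
def h1_w (p : E n) (r σ : ℝ) (k : Fin n) : E n :=
  σ • EuclideanSpace.single k (1 : ℝ) - (σ * p k / r ^ 2) • p

theorem h1_w_apply (p : E n) (r σ : ℝ) (k j : Fin n) :
    h1_w p r σ k j = σ * (if j = k then 1 else 0) - σ * p k / r ^ 2 * p j := by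
  unfold h1_w
  simp

theorem h1_w_perp {p : E n} {r : ℝ} (hr : 0 < r) (hp : ‖p‖ = r) (σ : ℝ) (k : Fin n) :
    ⟪p, h1_w p r σ k⟫ = 0 := by
  unfold h1_w
  rw [inner_sub_right, inner_smul_right, inner_smul_right, real_inner_self_eq_norm_sq, hp]
  have : ⟪p, EuclideanSpace.single k (1 : ℝ)⟫ = p k := by
    rw [EuclideanSpace.inner_single_right]
    simp
  rw [this]
  field_simp
  ring

theorem h1_w_ne {p : E n} {r σ : ℝ} (hσ : σ ≠ 0) {k j : Fin n} (hjk : j ≠ k)
    (hj : p j ≠ 0) : h1_w p r σ k ≠ 0 := by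
  intro h
  have e1 : h1_w p r σ k j = 0 := by rw [h]; rfl
  have e2 : h1_w p r σ k k = 0 := by rw [h]; rfl
  rw [h1_w_apply, if_neg hjk] at e1
  rw [h1_w_apply, if_pos rfl] at e2
  have h3 : σ * p k / r ^ 2 = 0 := by
    have : σ * p k / r ^ 2 * p j = 0 := by linarith
    exact (mul_eq_zero.1 this).resolve_right hj
  rw [h3] at e2
  apply hσ
  linarith

theorem h1_w_add (p : E n) (r σ t : ℝ) (k j : Fin n) :
    (p + t • h1_w p r σ k) j = (1 - t * (σ * p k / r ^ 2)) * p j + t * σ * (if j = k then 1 else 0) := by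
  have : (p + t • h1_w p r σ k) j = p j + t * h1_w p r σ k j := by simp
  rw [this, h1_w_apply]
  ring

/-- membership in the net of the perturbed point -/
theorem h1_w_mem {p : E n} {r σ t m : ℝ} {k : Fin n} (hj : ∀ j, j ≠ k → |p j| = m)
    (hk : |(1 - t * (σ * p k / r ^ 2)) * p k + t * σ| ≤ |1 - t * (σ * p k / r ^ 2)| * m) :
    p + t • h1_w p r σ k ∈ NN n := by
  refine ⟨k, |1 - t * (σ * p k / r ^ 2)| * m, ?_, ?_⟩
  · rw [h1_w_add, if_pos rfl, mul_one]
    exact hk
  · intro j hjk
    rw [h1_w_add, if_neg hjk, mul_zero, add_zero, abs_mul, hj j hjk]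

/-- SN-H1: a function with convex level sets above `a` is at most `a` on the net -/
theorem net_le (hn : 3 ≤ n) (hL : NetL L κ r ρ) (hf : QC L f a) :
    ∀ x ∈ NN n, ‖x‖ = r → f x ≤ a := by
  have hr := hL.r_pos
  have hr1 := hL.r_lt
  intro x₀ hx₀ hx₀r
  -- a maximum point on the net
  have hcomp : IsCompact (NN n ∩ {x : E n | ‖x‖ = r}) := by
    have h1 : IsCompact (Metric.closedBall (0 : E n) 1) := isCompact_closedBall _ _
    refine h1.of_isClosed_subset (NN_closed.inter (isClosed_eq continuous_norm continuous_const)) ?_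
    rintro x ⟨-, hx⟩
    have hx' : ‖x‖ = r := hx
    rw [Metric.mem_closedBall, dist_zero_right, hx']
    exact hr1.le
  have hsub : NN n ∩ {x : E n | ‖x‖ = r} ⊆ M n := by
    rintro x ⟨-, hx⟩
    have hx' : ‖x‖ = r := hx
    show x ∈ M n
    unfold M
    rw [Metric.mem_closedBall, dist_zero_right, hx']
    exact hr1.le
  obtain ⟨p, ⟨hp, hpr⟩, hmax⟩ := hcomp.exists_isMaxOn ⟨x₀, hx₀, hx₀r⟩ (hf.cont.mono hsub)
  have hpr' : ‖p‖ = r := hpr
  have hmax' : ∀ x ∈ NN n, ‖x‖ = r → f x ≤ f p := fun x hx hxr => hmax ⟨hx, hxr⟩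
  refine (hmax' x₀ hx₀ hx₀r).trans ?_
  by_contra hcon
  rw [not_le] at hcon
  obtain ⟨i, m, hi, hj⟩ := hp
  have hp : p ∈ NN n := ⟨i, m, hi, hj⟩
  have hm : 0 < m := by
    by_contra hm
    rw [not_lt] at hm
    have : p = 0 := by
      ext l
      by_cases hl : l = i
      · rw [hl]
        simpa using abs_nonpos_iff.1 (hi.trans hm)
      · simpa using abs_nonpos_iff.1 ((hj l hl).le.trans hm)
    rw [this, norm_zero] at hpr'
    linarith
  rcases hi.lt_or_eq with hlt | heq
  · -- the point is on an edge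
    obtain ⟨j, hji, -⟩ := h1_third hn i i
    have hpj : p j ≠ 0 := by
      intro h0
      have := hj j hji
      rw [h0, abs_zero] at this
      linarith
    have key : ∀ σ : ℝ, σ ≠ 0 → fderiv ℝ f p (h1_w p r σ i) < 0 := by
      intro σ hσ
      refine h1_arc hL hf hp hpr' hcon hmax' (h1_w_ne hσ hji hpj) (h1_w_perp hr hpr' σ i) ?_
      have hct : ContinuousAt (fun t : ℝ => |1 - t * (σ * p i / r ^ 2)| * m -
          |(1 - t * (σ * p i / r ^ 2)) * p i + t * σ|) 0 := by
        fun_prop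
      have h0 : (0 : ℝ) < (fun t : ℝ => |1 - t * (σ * p i / r ^ 2)| * m -
          |(1 - t * (σ * p i / r ^ 2)) * p i + t * σ|) 0 := by
        simp
        exact hlt
      have h1 := (hct.eventually (lt_mem_nhds h0)).filter_mono
        (nhdsWithin_le_nhds (s := Ioi (0 : ℝ)))
      filter_upwards [h1] with t ht
      apply h1_w_mem hj
      linarith
    have k1 := key 1 one_ne_zero
    have k2 := key (-1) (by norm_num)
    have e : h1_w p r (-1) i = -h1_w p r 1 i := by
      unfold h1_w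
      module
    rw [e, map_neg] at k2
    linarith
  · -- the point is a vertex
    have hall : ∀ k, |p k| = m := by
      intro k
      by_cases hk : k = i
      · rw [hk]; exact heq
      · exact hj k hk
    have hsq : ∀ k, p k ^ 2 = m ^ 2 := by
      intro k
      rw [← sq_abs, hall k]
    have hne : ∀ k, p k ≠ 0 := by
      intro k h0
      have := hall k
      rw [h0, abs_zero] at this
      linarith
    have hrn : r ^ 2 = n * m ^ 2 := by
      rw [← hpr', EuclideanSpace.norm_sq_eq]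
      simp only [Real.norm_eq_abs, sq_abs, hsq]
      simp
    have key : ∀ k : Fin n, fderiv ℝ f p (h1_w p r (-(p k / m)) k) < 0 := by
      intro k
      obtain ⟨j, hjk, -⟩ := h1_third hn k k
      have hσ : -(p k / m) ≠ 0 := neg_ne_zero.2 (div_ne_zero (hne k) hm.ne')
      refine h1_arc hL hf hp hpr' hcon hmax' (h1_w_ne hσ hjk (hne j)) (h1_w_perp hr hpr' _ k) ?_
      have hI : Ioo (0 : ℝ) m ∈ 𝓝[>] (0 : ℝ) := Ioo_mem_nhdsGT hm
      filter_upwards [hI] with t ht
      apply h1_w_mem (m := m) (fun j _ => hall j)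
      have e1 : 1 - t * (-(p k / m) * p k / r ^ 2) = 1 + t * (m / r ^ 2) := by
        have := hsq k
        field_simp
        linear_combination t * this
      rw [e1]
      have hβ : 1 ≤ 1 + t * (m / r ^ 2) := by
        have : 0 ≤ t * (m / r ^ 2) := mul_nonneg ht.1.le (div_nonneg hm.le (sq_nonneg r))
        linarith
      have e2 : (1 + t * (m / r ^ 2)) * p k + t * (-(p k / m)) =
          p k * ((1 + t * (m / r ^ 2)) - t / m) := by ring
      rw [e2, abs_mul, hall k, abs_of_pos (by linarith : 0 < 1 + t * (m / r ^ 2)), mul_comm]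
      refine mul_le_mul_of_nonneg_right ?_ hm.le
      have h3 : 0 < t / m := div_pos ht.1 hm
      have h4 : t / m < 1 := (div_lt_one hm).2 ht.2
      rw [abs_le]
      constructor <;> linarith
    have hsum : ∑ k, h1_w p r (-(p k / m)) k = 0 := by
      ext j
      have : (∑ k, h1_w p r (-(p k / m)) k) j = ∑ k, h1_w p r (-(p k / m)) k j := by
        simp
      rw [this]
      simp only [h1_w_apply]
      rw [Finset.sum_sub_distrib]
      have e1 : ∑ k : Fin n, -(p k / m) * (if j = k then (1 : ℝ) else 0) = -(p j / m) := by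
        simp
      have e2 : ∀ k : Fin n, -(p k / m) * p k / r ^ 2 * p j = -(m / r ^ 2 * p j) := by
        intro k
        have := hsq k
        field_simp
        linear_combination -(p j) * this
      rw [e1]
      simp only [e2]
      rw [Finset.sum_const, Finset.card_univ, Fintype.card_fin, nsmul_eq_mul, hrn]
      have hn0 : (n : ℝ) ≠ 0 := by
        have : n ≠ 0 := by omega
        exact_mod_cast this
      simp
      field_simp
      ring
    have h5 : ∑ k : Fin n, fderiv ℝ f p (h1_w p r (-(p k / m)) k) < 0 := by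
      apply Finset.sum_neg
      · intro k _
        exact key k
      · exact ⟨i, Finset.mem_univ i⟩
    rw [← map_sum, hsum, map_zero] at h5
    exact lt_irrefl _ h5

end SN
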