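import Pool.Agent.helper71.SN.Defs2

/-! SN-H2 -/

noncomputable section

namespace SN

open KBR Set Filter Topology
open scoped ContDiff RealInnerProductSpace

variable {n : ℕ}

variable {L f : E n → ℝ} {a : ℝ}

/-- SN-H2: maximum principle along a curve with the same image as a geodesic -/
theorem max_pre (hL : ContDiff ℝ ∞ L) (hf : QC L f a) {c v w : ℝ → E n} {β : ℝ → ℝ}
    (hc : ∀ t ∈ Icc (0 : ℝ) 1, HasDerivAt c (v t) t) (hv : ∀ t ∈ Icc (0 : ℝ) 1, HasDerivAt v (w t) t)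
    (hw : ∀ t ∈ Icc (0 : ℝ) 1, w t = gacc L (c t) (v t) + β t • v t)
    (hv0 : ∀ t ∈ Icc (0 : ℝ) 1, v t ≠ 0) (hm : ∀ t ∈ Icc (0 : ℝ) 1, ‖c t‖ < 1)
    (h0 : f (c 0) ≤ a) (h1 : f (c 1) ≤ a) : ∀ t ∈ Icc (0 : ℝ) 1, f (c t) ≤ a := by
  by_contra hcon
  push Not at hcon
  obtain ⟨s, hs, hsa⟩ := hcon
  have hcc : ContinuousOn c (Icc 0 1) := fun t ht => (hc t ht).continuousAt.continuousWithinAt
  have hgc : ContinuousOn (fun t => f (c t)) (Icc 0 1) :=
    hf.cont.comp hcc (fun t ht => by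
      have := hm t ht
      simpa [M] using this.le)
  obtain ⟨t0, ht0, hmax⟩ := isCompact_Icc.exists_isMaxOn ⟨s, hs⟩ hgc
  have hfa : a < f (c t0) := lt_of_lt_of_le hsa (hmax hs)
  have hne0 : t0 ≠ 0 := fun h => by rw [h] at hfa; linarith
  have hne1 : t0 ≠ 1 := fun h => by rw [h] at hfa; linarith
  have hIoo : t0 ∈ Ioo (0 : ℝ) 1 :=
    ⟨lt_of_le_of_ne ht0.1 (Ne.symm hne0), lt_of_le_of_ne ht0.2 hne1⟩
  have hf2 : ContDiffAt ℝ 2 f (c t0) := hf.smooth _ (hm t0 ht0) hfa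
  have hd : ∀ᶠ x in 𝓝 (c t0), HasFDerivAt f (fderiv ℝ f x) x := by
    have h1 : ContDiffAt ℝ 1 f (c t0) := hf2.of_le (by norm_num)
    have h2 := h1.eventually (by simp)
    filter_upwards [h2] with x hx
    exact (hx.differentiableAt (by norm_num)).hasFDerivAt
  have hdd : HasFDerivAt (fderiv ℝ f) (fderiv ℝ (fderiv ℝ f) (c t0)) (c t0) := by
    have h1 : ContDiffAt ℝ 1 (fderiv ℝ f) (c t0) :=
      hf2.fderiv_right (m := 1) (by norm_num)
    exact (h1.differentiableAt (by norm_num)).hasFDerivAt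
  have hct : ContinuousAt c t0 := (hc t0 ht0).continuousAt
  have hg1 : ∀ᶠ t in 𝓝 t0, HasDerivAt (fun t => f (c t)) (fderiv ℝ f (c t) (v t)) t := by
    filter_upwards [hct.eventually hd, isOpen_Ioo.mem_nhds hIoo] with t h1 h2
    exact h1.comp_hasDerivAt t (hc t (Ioo_subset_Icc_self h2))
  have hg2 : HasDerivAt (fun t => fderiv ℝ f (c t) (v t))
      (fderiv ℝ (fderiv ℝ f) (c t0) (v t0) (v t0) + fderiv ℝ f (c t0) (w t0)) t0 := by
    have h1 : HasDerivAt (fun t => fderiv ℝ f (c t)) (fderiv ℝ (fderiv ℝ f) (c t0) (v t0)) t0 :=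
      hdd.comp_hasDerivAt t0 (hc t0 ht0)
    exact h1.clm_apply (hv t0 ht0)
  have hloc : IsLocalMax (fun t => f (c t)) t0 := by
    have : Icc (0 : ℝ) 1 ∈ 𝓝 t0 := Icc_mem_nhds hIoo.1 hIoo.2
    exact hmax.isLocalMax this
  have hz : fderiv ℝ f (c t0) (v t0) = 0 := hloc.hasDerivAt_eq_zero hg1.self_of_nhds
  have hpos : 0 < fderiv ℝ (fderiv ℝ f) (c t0) (v t0) (v t0) + fderiv ℝ f (c t0) (w t0) := by
    have h := hf.convex (c t0) (hm t0 ht0) hfa (v t0) (hv0 t0 ht0) hz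
    rw [hw t0 ht0, map_add, map_smul, hz]
    simpa [hess] using h
  -- the derivative is positive on the right of `t0`
  have hgt : ∀ᶠ t in 𝓝[>] t0, 0 < fderiv ℝ f (c t) (v t) := by
    have h := hg2.hasDerivWithinAt (s := Ioi t0)
    have h2 := (hasDerivWithinAt_iff_tendsto_slope' (by simp)).1 h
    have h3 := h2.eventually (lt_mem_nhds hpos)
    filter_upwards [h3, self_mem_nhdsWithin] with t h4 h5
    have h5' : t0 < t := h5
    rw [slope_def_field, hz, sub_zero] at h4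
    exact (div_pos_iff_of_pos_right (by linarith)).1 h4
  obtain ⟨δ, hδ, hδ'⟩ : ∃ δ > t0, ∀ t ∈ Ioc t0 δ, 0 < fderiv ℝ f (c t) (v t) ∧
      HasDerivAt (fun t => f (c t)) (fderiv ℝ f (c t) (v t)) t := by
    have h := hgt.and (hg1.filter_mono nhdsWithin_le_nhds)
    obtain ⟨u, hu, hu'⟩ := mem_nhdsGT_iff_exists_Ioc_subset.1 h
    exact ⟨u, hu, fun t ht => hu' ht⟩
  have hmx : ∀ᶠ t in 𝓝 t0, f (c t) ≤ f (c t0) := hloc
  set δ' := min δ 1 with hδ'def
  have hδ0 : t0 < δ' := lt_min hδ hIoo.2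
  have hcont : ContinuousOn (fun t => f (c t)) (Icc t0 δ') := by
    refine hgc.mono (Icc_subset_Icc ht0.1 (min_le_right _ _))
  obtain ⟨ξ, hξ, hξ'⟩ := exists_hasDerivAt_eq_slope (fun t => f (c t))
    (fun t => fderiv ℝ f (c t) (v t)) hδ0 hcont (fun t ht =>
      (hδ' t ⟨ht.1, ht.2.le.trans (min_le_left _ _)⟩).2)
  have hp := (hδ' ξ ⟨hξ.1, hξ.2.le.trans (min_le_left _ _)⟩).1
  rw [hξ'] at hp
  have h6 : 0 < f (c δ') - f (c t0) := (div_pos_iff_of_pos_right (by linarith)).1 hp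
  have h7 : f (c δ') ≤ f (c t0) := hmax ⟨ht0.1.trans hδ0.le, min_le_right _ _⟩
  linarith

end SN
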