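import Pool.Agent.helper71.SN.H1
import Pool.Agent.helper71.SN.H2

/-! SN-H3 -/

noncomputable section

namespace SN

open KBR Set Filter Topology
open scoped ContDiff RealInnerProductSpace

variable {n : ℕ}

variable {L f : E n → ℝ} {κ r ρ a : ℝ}

theorem NN_smul' {x : E n} (hx : x ∈ NN n) (a : ℝ) : a • x ∈ NN n := by
  obtain ⟨i, m, h1, h2⟩ := hx
  refine ⟨i, |a| * m, ?_, fun j hj => ?_⟩
  · rw [PiLp.smul_apply, smul_eq_mul, abs_mul]
    exact mul_le_mul_of_nonneg_left h1 (abs_nonneg a)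
  · rw [PiLp.smul_apply, smul_eq_mul, abs_mul, h2 j hj]

/-- SN-H3: the cone over the net -/
theorem cone_le (hn : 3 ≤ n) (hL : NetL L κ r ρ) (hf : QC L f a) :
    ∀ x ∈ NN n, ‖x‖ ≤ r → f x ≤ a := by
  intro x hx hxr
  have hr : 0 < r := hL.r_pos
  -- a point `p` of the net with `x = s p`, `0 ≤ s ≤ 1`
  obtain ⟨p, s, hp, hpr, hxs, hs0, hs1⟩ : ∃ (p : E n) (s : ℝ), p ∈ NN n ∧ ‖p‖ = r ∧
      x = s • p ∧ 0 ≤ s ∧ s ≤ 1 := by
    by_cases hx0 : x = 0
    · set p0 : E n := WithLp.toLp 2 (fun _ => (1 : ℝ)) with hp0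
      have hi : (0 : ℕ) < n := by omega
      have hp0N : p0 ∈ NN n := by
        refine ⟨⟨0, hi⟩, 1, ?_, fun j _ => ?_⟩
        · simp [hp0]
        · simp [hp0]
      have hp0ne : p0 ≠ 0 := by
        intro h
        have := congrArg (fun y : E n => y ⟨0, hi⟩) h
        simp [hp0] at this
      have hnorm : 0 < ‖p0‖ := norm_pos_iff.2 hp0ne
      refine ⟨(r / ‖p0‖) • p0, 0, NN_smul' hp0N _, ?_, ?_, le_rfl, zero_le_one⟩
      · rw [norm_smul, Real.norm_eq_abs, abs_of_nonneg (by positivity)]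
        field_simp
      · rw [zero_smul, hx0]
    · have hnorm : 0 < ‖x‖ := norm_pos_iff.2 hx0
      refine ⟨(r / ‖x‖) • x, ‖x‖ / r, NN_smul' hx _, ?_, ?_, by positivity, ?_⟩
      · rw [norm_smul, Real.norm_eq_abs, abs_of_nonneg (by positivity)]
        field_simp
      · rw [smul_smul]
        have : ‖x‖ / r * (r / ‖x‖) = 1 := by field_simp
        rw [this, one_smul]
      · rw [div_le_one hr]; exact hxr
  have hp0 : p ≠ 0 := by
    intro h; rw [h, norm_zero] at hpr; linarith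
  -- the reparametrisation function
  have hβ : ∀ t : ℝ, ∃ b : ℝ, t ∈ Icc (0 : ℝ) 1 →
      (0 : E n) = gacc L ((2 * t - 1) • p) ((2 : ℝ) • p) + b • ((2 : ℝ) • p) := by
    intro t
    by_cases ht : t ∈ Icc (0 : ℝ) 1
    · have hle : ‖(2 * t - 1) • p‖ ≤ 1 := by
        rw [norm_smul, Real.norm_eq_abs, hpr]
        have h1 : |2 * t - 1| ≤ 1 := abs_le.2 ⟨by linarith [ht.1], by linarith [ht.2]⟩
        have := hL.r_lt
        nlinarith [abs_nonneg (2 * t - 1)]
      obtain ⟨l, hl⟩ := hL.grad _ (NN_smul' hp (2 * t - 1)) hle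
      refine ⟨2 * fderiv ℝ L ((2 * t - 1) • p) ((2 : ℝ) • p) -
        ‖(2 : ℝ) • p‖ ^ 2 * (l * (2 * t - 1)) / 2, fun _ => ?_⟩
      rw [gacc, hl]
      module
    · exact ⟨0, fun h => absurd h ht⟩
  choose β hβ using hβ
  have key := max_pre (c := fun t => (2 * t - 1) • p) (v := fun _ => (2 : ℝ) • p)
    (w := fun _ => (0 : E n)) (β := β) hL.smooth hf
    (fun t _ => by
      have h1 : HasDerivAt (fun t : ℝ => 2 * t - 1) 2 t := by
        simpa using ((hasDerivAt_id t).const_mul (2 : ℝ)).sub_const 1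
      exact h1.smul_const p)
    (fun t _ => hasDerivAt_const t _)
    (fun t ht => hβ t ht)
    (fun t _ => smul_ne_zero two_ne_zero hp0)
    (fun t ht => by
      show ‖(2 * t - 1) • p‖ < 1
      rw [norm_smul, Real.norm_eq_abs, hpr]
      have h1 : |2 * t - 1| ≤ 1 := abs_le.2 ⟨by linarith [ht.1], by linarith [ht.2]⟩
      have := hL.r_lt
      nlinarith [abs_nonneg (2 * t - 1)])
    (by
      have : (2 * (0 : ℝ) - 1) • p = (-1 : ℝ) • p := by norm_num
      show f ((2 * (0 : ℝ) - 1) • p) ≤ a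
      rw [this]
      refine net_le hn hL hf _ (NN_smul' hp _) ?_
      rw [norm_smul]; simp [hpr])
    (by
      have : (2 * (1 : ℝ) - 1) • p = p := by norm_num
      show f ((2 * (1 : ℝ) - 1) • p) ≤ a
      rw [this]
      exact net_le hn hL hf _ hp hpr)
  have h2 := key ((1 + s) / 2) ⟨by linarith, by linarith⟩
  have h3 : (2 * ((1 + s) / 2) - 1) • p = x := by
    rw [hxs]; congr 1; ring
  have h4 : f ((2 * ((1 + s) / 2) - 1) • p) ≤ a := h2
  rwa [h3] at h4

end SN
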