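import Pool.Agent.helper71.SN.Defs2

/-! SN-R1 -/

noncomputable section

namespace SN

open KBR Set Filter Topology
open scoped ContDiff RealInnerProductSpace

variable {n : ℕ}

variable {κ : ℝ}

theorem r1_den (hκ : 0 < κ) (x : E n) : 0 < 1 + κ * ‖x‖ ^ 2 := by
  have := mul_nonneg hκ.le (sq_nonneg ‖x‖)
  linarith

/-- SN-R1 -/
theorem pp_pos (hκ : 0 < κ) (x : E n) : 0 < pp κ x := by
  unfold pp
  exact inv_pos.2 (r1_den hκ x)

theorem r1_pk (hκ : 0 < κ) (x : E n) : κ * pp κ x * ‖x‖ ^ 2 = 1 - pp κ x := by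
  have h : pp κ x * (1 + κ * ‖x‖ ^ 2) = 1 := inv_mul_cancel₀ (r1_den hκ x).ne'
  linarith

theorem r1_pp_smooth (hκ : 0 < κ) : ContDiff ℝ ∞ (pp (n := n) κ) := by
  unfold pp
  exact (contDiff_const.add (contDiff_const.mul (contDiff_norm_sq ℝ))).inv
    fun x => (r1_den hκ x).ne'

theorem zz_smooth (hκ : 0 < κ) : ContDiff ℝ ∞ (zz (n := n) κ) := by
  unfold zz
  exact (contDiff_const.mul (r1_pp_smooth hκ)).sub contDiff_const

theorem XX_smooth (hκ : 0 < κ) : ContDiff ℝ ∞ (XX (n := n) κ) := by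
  unfold XX
  exact (contDiff_const.mul (r1_pp_smooth hκ)).smul contDiff_id

theorem r1_a (hκ : 0 < κ) : 0 < 2 * Real.sqrt κ := by
  have := Real.sqrt_pos.2 hκ
  linarith

theorem r1_aa (hκ : 0 < κ) : (2 * Real.sqrt κ) ^ 2 = 4 * κ := by
  rw [mul_pow, Real.sq_sqrt hκ.le]
  ring

theorem LR_smooth (hκ : 0 < κ) : ContDiff ℝ ∞ (LR (n := n) κ) := by
  unfold LR
  exact (contDiff_const.mul (r1_pp_smooth hκ)).log
    fun x => (mul_pos (r1_a hκ) (pp_pos hκ x)).ne'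

theorem exp_LR (hκ : 0 < κ) (x : E n) :
    Real.exp (2 * LR κ x) = 4 * κ * pp κ x ^ 2 := by
  have h := mul_pos (r1_a hκ) (pp_pos hκ x)
  unfold LR
  rw [two_mul, Real.exp_add, Real.exp_log h, ← pow_two, mul_pow, r1_aa hκ]

theorem r1_nsq (x : E n) : ⟪x, x⟫ = ‖x‖ ^ 2 := real_inner_self_eq_norm_sq x

theorem round_sphere (hκ : 0 < κ) (x : E n) : ‖XX κ x‖ ^ 2 + zz κ x ^ 2 = 1 := by
  have h := r1_pk hκ x
  have h2 := r1_aa hκ
  unfold XX zz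
  rw [norm_smul, mul_pow, Real.norm_eq_abs, sq_abs, mul_pow, r1_aa hκ]
  linear_combination (4 * pp κ x) * h

/-- derivative of `pp` -/
theorem r1_hpp (hκ : 0 < κ) (x : E n) :
    HasFDerivAt (pp κ) ((-(2 * κ * pp κ x ^ 2)) • innerSL ℝ x) x := by
  have h1 : HasFDerivAt (fun y : E n => 1 + κ * ‖y‖ ^ 2) (κ • (2 • innerSL ℝ x)) x :=
    ((hasStrictFDerivAt_norm_sq x).hasFDerivAt.const_mul κ).const_add 1
  have h2 : HasFDerivAt (pp κ) ((-((1 + κ * ‖x‖ ^ 2) ^ 2)⁻¹) • (κ • (2 • innerSL ℝ x))) x :=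
    (hasDerivAt_inv (r1_den hκ x).ne').comp_hasFDerivAt x h1
  have e : ((-(2 * κ * pp κ x ^ 2)) • innerSL ℝ x : E n →L[ℝ] ℝ) =
      (-((1 + κ * ‖x‖ ^ 2) ^ 2)⁻¹) • (κ • (2 • innerSL ℝ x)) := by
    ext v
    simp only [pp, ContinuousLinearMap.smul_apply, smul_eq_mul, nsmul_eq_mul, inv_pow]
    push_cast
    ring
  rw [e]
  exact h2

theorem r1_dpp (hκ : 0 < κ) (x v : E n) :
    fderiv ℝ (pp κ) x v = -(2 * κ * pp κ x ^ 2) * ⟪x, v⟫ := by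
  rw [(r1_hpp hκ x).fderiv]
  simp

theorem r1_in (w x : E n) : HasFDerivAt (fun y : E n => (⟪y, w⟫ : ℝ)) (innerSL ℝ w) x := by
  have h := (innerSL ℝ w).hasFDerivAt (x := x)
  have e : (fun y : E n => (⟪y, w⟫ : ℝ)) = fun y => innerSL ℝ w y := by
    funext y
    rw [innerSL_apply_apply, real_inner_comm]
  rw [e]
  exact h

theorem r1_dz (hκ : 0 < κ) (x v : E n) :
    fderiv ℝ (zz κ) x v = -(4 * κ * pp κ x ^ 2 * ⟪x, v⟫) := by
  have h : HasFDerivAt (zz κ) ((2 : ℝ) • ((-(2 * κ * pp κ x ^ 2)) • innerSL ℝ x)) x :=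
    ((r1_hpp hκ x).const_mul 2).sub_const 1
  rw [h.fderiv]
  simp only [ContinuousLinearMap.smul_apply, smul_eq_mul, innerSL_apply_apply]
  ring

theorem r1_dX (hκ : 0 < κ) (x v : E n) :
    fderiv ℝ (XX κ) x v = (2 * Real.sqrt κ) • (pp κ x • v - (2 * κ * pp κ x ^ 2 * ⟪x, v⟫) • x) := by
  have h := ((r1_hpp hκ x).const_mul (2 * Real.sqrt κ)).smul (hasFDerivAt_id x)
  have h' : HasFDerivAt (XX κ) _ x := h
  rw [h'.fderiv]
  simp only [ContinuousLinearMap.add_apply, ContinuousLinearMap.smul_apply,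
    ContinuousLinearMap.smulRight_apply, innerSL_apply_apply, smul_eq_mul, id,
    ContinuousLinearMap.id_apply]
  module

theorem r1_dL (hκ : 0 < κ) (x v : E n) :
    fderiv ℝ (LR κ) x v = -(2 * κ * pp κ x * ⟪x, v⟫) := by
  have hp := pp_pos hκ x
  have ha := r1_a hκ
  have h := ((r1_hpp hκ x).const_mul (2 * Real.sqrt κ)).log (mul_pos ha hp).ne'
  have h' : HasFDerivAt (LR κ) _ x := h
  rw [h'.fderiv]
  simp only [ContinuousLinearMap.smul_apply, innerSL_apply_apply, smul_eq_mul]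
  field_simp

theorem r1_grad_inner (f : E n → ℝ) (x v : E n) : ⟪gradient f x, v⟫ = fderiv ℝ f x v := by
  unfold gradient
  exact InnerProductSpace.toDual_symm_apply

theorem r1_grad (hκ : 0 < κ) (x : E n) : gradient (LR κ) x = -(2 * κ * pp κ x) • x := by
  refine ext_inner_right ℝ fun v => ?_
  rw [r1_grad_inner, r1_dL hκ, inner_smul_left]
  simp

theorem r1_D2 {F : Type*} [NormedAddCommGroup F] [NormedSpace ℝ F] {f : E n → F}
    (hf : ContDiff ℝ ∞ f) (x v w : E n) :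
    fderiv ℝ (fderiv ℝ f) x v w = fderiv ℝ (fun y => fderiv ℝ f y w) x v := by
  have h : DifferentiableAt ℝ (fderiv ℝ f) x :=
    (hf.fderiv_right (m := 1) (by norm_cast)).differentiable (by norm_num) x
  have h1 := h.hasFDerivAt.clm_apply (hasFDerivAt_const w x)
  rw [h1.fderiv]
  simp

theorem r1_ddz (hκ : 0 < κ) (x v w : E n) :
    fderiv ℝ (fderiv ℝ (zz κ)) x v w =
      16 * κ ^ 2 * pp κ x ^ 3 * ⟪x, v⟫ * ⟪x, w⟫ - 4 * κ * pp κ x ^ 2 * ⟪v, w⟫ := by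
  rw [r1_D2 (zz_smooth hκ)]
  have e : (fun y => fderiv ℝ (zz κ) y w) = fun y => -(4 * κ * pp κ y ^ 2 * ⟪y, w⟫) := by
    funext y
    exact r1_dz hκ y w
  rw [e]
  have h : HasFDerivAt (fun y => -(4 * κ * pp κ y ^ 2 * ⟪y, w⟫)) _ x :=
    ((((r1_hpp hκ x).pow 2).const_mul (4 * κ)).mul (r1_in w x)).neg
  rw [h.fderiv]
  simp only [ContinuousLinearMap.neg_apply, ContinuousLinearMap.add_apply,
    ContinuousLinearMap.smul_apply, innerSL_apply_apply, smul_eq_mul, nsmul_eq_mul]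
  rw [real_inner_comm v w]
  push_cast
  ring

theorem r1_ddL (hκ : 0 < κ) (x v w : E n) :
    fderiv ℝ (fderiv ℝ (LR κ)) x v w =
      4 * κ ^ 2 * pp κ x ^ 2 * ⟪x, v⟫ * ⟪x, w⟫ - 2 * κ * pp κ x * ⟪v, w⟫ := by
  rw [r1_D2 (LR_smooth hκ)]
  have e : (fun y => fderiv ℝ (LR κ) y w) = fun y => -(2 * κ * pp κ y * ⟪y, w⟫) := by
    funext y
    exact r1_dL hκ y w
  rw [e]
  have h : HasFDerivAt (fun y => -(2 * κ * pp κ y * ⟪y, w⟫)) _ x :=
    (((r1_hpp hκ x).const_mul (2 * κ)).mul (r1_in w x)).neg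
  rw [h.fderiv]
  simp only [ContinuousLinearMap.neg_apply, ContinuousLinearMap.add_apply,
    ContinuousLinearMap.smul_apply, innerSL_apply_apply, smul_eq_mul]
  rw [real_inner_comm v w]
  ring

theorem r1_ddX (hκ : 0 < κ) (x v w : E n) :
    fderiv ℝ (fderiv ℝ (XX κ)) x v w = (2 * Real.sqrt κ) •
      ((-(2 * κ * pp κ x ^ 2 * ⟪x, v⟫)) • w - (2 * κ * pp κ x ^ 2 * ⟪x, w⟫) • v
        + (8 * κ ^ 2 * pp κ x ^ 3 * ⟪x, v⟫ * ⟪x, w⟫ - 2 * κ * pp κ x ^ 2 * ⟪v, w⟫) • x) := by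
  rw [r1_D2 (XX_smooth hκ)]
  have e : (fun y => fderiv ℝ (XX κ) y w) = fun y =>
      (2 * Real.sqrt κ) • (pp κ y • w - (2 * κ * pp κ y ^ 2 * ⟪y, w⟫) • y) := by
    funext y
    exact r1_dX hκ y w
  rw [e]
  have h1 := (r1_hpp hκ x).smul_const w
  have h2 := ((((r1_hpp hκ x).pow 2).const_mul (2 * κ)).mul (r1_in w x)).smul (hasFDerivAt_id x)
  have h : HasFDerivAt (fun y => (2 * Real.sqrt κ) •
      (pp κ y • w - (2 * κ * pp κ y ^ 2 * ⟪y, w⟫) • y)) _ x :=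
    (h1.sub h2).const_smul (2 * Real.sqrt κ)
  rw [h.fderiv]
  simp only [ContinuousLinearMap.smul_apply, ContinuousLinearMap.sub_apply,
    ContinuousLinearMap.add_apply, ContinuousLinearMap.smulRight_apply, innerSL_apply_apply,
    smul_eq_mul, nsmul_eq_mul, id, ContinuousLinearMap.id_apply, Pi.mul_apply]
  rw [real_inner_comm v w]
  congr 1
  push_cast
  module

theorem r1_gacc (hκ : 0 < κ) (x v : E n) :
    gacc (LR κ) x v = (4 * κ * pp κ x * ⟪x, v⟫) • v - (2 * κ * pp κ x * ‖v‖ ^ 2) • x := by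
  unfold gacc
  rw [r1_dL hκ, r1_grad hκ]
  module

theorem round_conf (hκ : 0 < κ) (x v w : E n) :
    ⟪fderiv ℝ (XX κ) x v, fderiv ℝ (XX κ) x w⟫ + fderiv ℝ (zz κ) x v * fderiv ℝ (zz κ) x w =
      Real.exp (2 * LR κ x) * ⟪v, w⟫ := by
  rw [exp_LR hκ, r1_dz hκ, r1_dz hκ, r1_dX hκ, r1_dX hκ, real_inner_smul_left,
    real_inner_smul_right, ← mul_assoc (2 * Real.sqrt κ)]
  have h := r1_pk hκ x
  have e : (2 * Real.sqrt κ) * (2 * Real.sqrt κ) = 4 * κ := by rw [← r1_aa hκ]; ring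
  rw [e]
  simp only [real_inner_smul_left, real_inner_smul_right, inner_sub_left, inner_sub_right, r1_nsq,
    real_inner_comm x v]
  linear_combination (16 * κ ^ 2 * pp κ x ^ 3 * ⟪x, v⟫ * ⟪x, w⟫) * h

theorem round_geo_X (hκ : 0 < κ) (x v : E n) :
    fderiv ℝ (fderiv ℝ (XX κ)) x v v + fderiv ℝ (XX κ) x (gacc (LR κ) x v) =
      -(Real.exp (2 * LR κ x) * ‖v‖ ^ 2) • XX κ x := by
  rw [exp_LR hκ, r1_ddX hκ, r1_dX hκ, r1_gacc hκ]
  simp only [inner_smul_right, inner_sub_right, r1_nsq]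
  have h := r1_pk hκ x
  unfold XX
  rw [mul_smul (2 * Real.sqrt κ) (pp κ x) x, smul_comm (-(4 * κ * pp κ x ^ 2 * ‖v‖ ^ 2)) (2 * Real.sqrt κ),
    ← smul_add]
  congr 1
  have e : 2 * κ * pp κ x ^ 2 * (4 * κ * pp κ x * ⟪x, v⟫ * ⟪x, v⟫ - 2 * κ * pp κ x * ‖v‖ ^ 2 * ‖x‖ ^ 2) =
      8 * κ ^ 2 * pp κ x ^ 3 * ⟪x, v⟫ * ⟪x, v⟫ - 4 * κ * pp κ x ^ 2 * ‖v‖ ^ 2 * (1 - pp κ x) := by
    rw [← h]; ring
  rw [e]
  module

theorem round_geo_z (hκ : 0 < κ) (x v : E n) :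
    fderiv ℝ (fderiv ℝ (zz κ)) x v v + fderiv ℝ (zz κ) x (gacc (LR κ) x v) =
      -(Real.exp (2 * LR κ x) * ‖v‖ ^ 2) * zz κ x := by
  rw [exp_LR hκ, r1_ddz hκ, r1_dz hκ, r1_gacc hκ]
  simp only [inner_smul_right, inner_sub_right, r1_nsq]
  have h := r1_pk hκ x
  unfold zz
  linear_combination (8 * κ * pp κ x ^ 2 * ‖v‖ ^ 2) * h

theorem round_rad_z (hκ : 0 < κ) (x : E n) : fderiv ℝ (zz κ) x x = -(1 - zz κ x ^ 2) := by
  rw [r1_dz hκ, r1_nsq]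
  have h := r1_pk hκ x
  unfold zz
  linear_combination (-4 * pp κ x) * h

theorem round_rad_X (hκ : 0 < κ) (x : E n) : fderiv ℝ (XX κ) x x = zz κ x • XX κ x := by
  rw [r1_dX hκ, r1_nsq]
  have h := r1_pk hκ x
  unfold XX zz
  have e : 2 * κ * pp κ x ^ 2 * ‖x‖ ^ 2 = 2 * pp κ x * (1 - pp κ x) := by
    rw [← h]; ring
  rw [e]
  module

theorem round_rad_L (hκ : 0 < κ) (x : E n) : 1 + fderiv ℝ (LR κ) x x = zz κ x := by
  rw [r1_dL hκ, r1_nsq]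
  have h := r1_pk hκ x
  unfold zz
  linear_combination (-2) * h

/-- the curvature of the round metric is one -/
theorem round_sec (hκ : 0 < κ) (x v w : E n) (hv : v ≠ 0) (hw : w ≠ 0) (hvw : ⟪v, w⟫ = 0) :
    sec (LR κ) x v w = 1 := by
  have hp := pp_pos hκ x
  have hv' : ‖v‖ ≠ 0 := norm_ne_zero_iff.2 hv
  have hw' : ‖w‖ ≠ 0 := norm_ne_zero_iff.2 hw
  have h := r1_pk hκ x
  unfold sec
  rw [r1_ddL hκ, r1_ddL hκ, r1_dL hκ, r1_dL hκ, r1_grad hκ, norm_smul, mul_pow, Real.norm_eq_abs,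
    sq_abs, r1_nsq, r1_nsq, Real.exp_neg, exp_LR hκ]
  have e : (4 * κ ^ 2 * pp κ x ^ 2 * ⟪x, v⟫ * ⟪x, v⟫ - 2 * κ * pp κ x * ‖v‖ ^ 2) / ‖v‖ ^ 2 =
      (-(2 * κ * pp κ x * ⟪x, v⟫)) ^ 2 / ‖v‖ ^ 2 - 2 * κ * pp κ x := by
    field_simp
    ring
  have e' : (4 * κ ^ 2 * pp κ x ^ 2 * ⟪x, w⟫ * ⟪x, w⟫ - 2 * κ * pp κ x * ‖w‖ ^ 2) / ‖w‖ ^ 2 =
      (-(2 * κ * pp κ x * ⟪x, w⟫)) ^ 2 / ‖w‖ ^ 2 - 2 * κ * pp κ x := by
    field_simp
    ring
  rw [e, e']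
  have hne : 4 * κ * pp κ x ^ 2 ≠ 0 := by positivity
  rw [neg_mul, inv_mul_eq_div, neg_eq_iff_eq_neg, div_eq_iff hne]
  linear_combination (4 * κ * pp κ x) * h

theorem r1_chain (hκ : 0 < κ) {x : E n} {f : E n × ℝ → ℝ}
    (hf : DifferentiableAt ℝ f (XX κ x, zz κ x)) (w : E n) :
    fderiv ℝ (fun y => f (XX κ y, zz κ y)) x w =
      fderiv ℝ f (XX κ x, zz κ x) (fderiv ℝ (XX κ) x w, fderiv ℝ (zz κ) x w) := by
  have h1 := ((XX_smooth (n := n) hκ).differentiable (by norm_num) x).hasFDerivAt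
  have h2 := ((zz_smooth (n := n) hκ).differentiable (by norm_num) x).hasFDerivAt
  have h3 : HasFDerivAt (fun y => f (XX κ y, zz κ y)) _ x :=
    HasFDerivAt.comp x hf.hasFDerivAt (h1.prodMk h2)
  rw [h3.fderiv]
  rfl

/-- differential of the coordinate `z` in terms of gradients -/
theorem round_grad_z (hκ : 0 < κ) (x : E n) (f : E n × ℝ → ℝ) (hf : DifferentiableAt ℝ f (XX κ x, zz κ x)) :
    fderiv ℝ (zz κ) x (gradient (fun y => f (XX κ y, zz κ y)) x) =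
      Real.exp (2 * LR κ x) * (fderiv ℝ f (XX κ x, zz κ x) (0, 1) -
        zz κ x * fderiv ℝ f (XX κ x, zz κ x) (XX κ x, zz κ x)) := by
  rw [r1_dz hκ, real_inner_comm, r1_grad_inner, r1_chain hκ hf, round_rad_X hκ, round_rad_z hκ,
    exp_LR hκ]
  have e : (zz κ x • XX κ x, -(1 - zz κ x ^ 2)) =
      zz κ x • (XX κ x, zz κ x) - ((0 : E n), (1 : ℝ)) := by
    ext1
    · simp
    · simp only [Prod.snd_sub, Prod.smul_snd, smul_eq_mul]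
      ring
  rw [e, map_sub, map_smul, smul_eq_mul]
  ring

theorem round_grad_X (hκ : 0 < κ) (x b : E n) (f : E n × ℝ → ℝ) (hf : DifferentiableAt ℝ f (XX κ x, zz κ x)) :
    ⟪fderiv ℝ (XX κ) x (gradient (fun y => f (XX κ y, zz κ y)) x), b⟫ =
      Real.exp (2 * LR κ x) * (fderiv ℝ f (XX κ x, zz κ x) (b, 0) -
        ⟪XX κ x, b⟫ * fderiv ℝ f (XX κ x, zz κ x) (XX κ x, zz κ x)) := by
  have h := r1_pk hκ x
  set g : E n := gradient (fun y => f (XX κ y, zz κ y)) x with hg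
  set a : ℝ := 2 * Real.sqrt κ with ha
  set p : ℝ := pp κ x with hp
  have haa : a * a = 4 * κ := by rw [← r1_aa hκ]; ring
  have e1 : ⟪fderiv ℝ (XX κ) x g, b⟫ = ⟪g, (a * p) • b - (2 * a * κ * p ^ 2 * ⟪x, b⟫) • x⟫ := by
    rw [r1_dX hκ]
    simp only [real_inner_smul_left, real_inner_smul_right, inner_sub_left, inner_sub_right]
    rw [real_inner_comm x g]
    ring
  rw [e1, r1_grad_inner, r1_chain hκ hf, exp_LR hκ, ← hp]
  have e2 : ⟪x, (a * p) • b - (2 * a * κ * p ^ 2 * ⟪x, b⟫) • x⟫ = a * p * ⟪x, b⟫ * (2 * p - 1) := by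
    simp only [real_inner_smul_right, inner_sub_right, r1_nsq]
    linear_combination (-2 * a * p * ⟪x, b⟫) * h
  have e3 : fderiv ℝ (XX κ) x ((a * p) • b - (2 * a * κ * p ^ 2 * ⟪x, b⟫) • x) =
      (4 * κ * p ^ 2) • (b - ⟪XX κ x, b⟫ • XX κ x) := by
    rw [r1_dX hκ, e2]
    have e4 : XX κ x = (a * p) • x := rfl
    rw [e4, real_inner_smul_left]
    have l : a • (p • ((a * p) • b - (2 * a * κ * p ^ 2 * ⟪x, b⟫) • x) -
        (2 * κ * p ^ 2 * (a * p * ⟪x, b⟫ * (2 * p - 1))) • x) =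
        (a * a * p ^ 2) • b - (4 * (a * a) * κ * p ^ 4 * ⟪x, b⟫) • x := by module
    have r : (4 * κ * p ^ 2) • (b - (a * p * ⟪x, b⟫) • (a * p) • x) =
        (4 * κ * p ^ 2) • b - (4 * (a * a) * κ * p ^ 4 * ⟪x, b⟫) • x := by module
    rw [l, r, haa]
  have e5 : fderiv ℝ (zz κ) x ((a * p) • b - (2 * a * κ * p ^ 2 * ⟪x, b⟫) • x) =
      (4 * κ * p ^ 2) * (0 - ⟪XX κ x, b⟫ * zz κ x) := by
    rw [r1_dz hκ, e2]
    have e4 : XX κ x = (a * p) • x := rfl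
    rw [e4, real_inner_smul_left]
    unfold zz
    ring
  rw [e3, e5]
  have e6 : ((4 * κ * p ^ 2) • (b - ⟪XX κ x, b⟫ • XX κ x),
      (4 * κ * p ^ 2) * (0 - ⟪XX κ x, b⟫ * zz κ x)) =
      (4 * κ * p ^ 2) • (((b, 0) : E n × ℝ) - ⟪XX κ x, b⟫ • (XX κ x, zz κ x)) := by
    ext1
    · simp
    · simp
  rw [e6, map_smul, map_sub, map_smul, smul_eq_mul, smul_eq_mul]

end SN
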