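import Pool.Agent.helper71.SN.H2
import Pool.Agent.helper71.SN.R1

/-! SN-H4 -/

noncomputable section

namespace SN

open KBR Set Filter Topology
open scoped ContDiff RealInnerProductSpace

variable {n : ℕ}

variable {κ : ℝ}

/-- SN-H4: round geodesics in the gnomonic coordinate: `P(x) = 2√κ x / (1 - κ|x|²)`. -/
def gno (κ : ℝ) (x : E n) : E n := (2 * Real.sqrt κ / (1 - κ * ‖x‖ ^ 2)) • x

/-- its inverse -/
def ign (κ : ℝ) (y : E n) : E n := ((Real.sqrt κ)⁻¹ / (1 + Real.sqrt (1 + ‖y‖ ^ 2))) • y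

theorem H4_sqrt_ge (y : E n) : 1 ≤ Real.sqrt (1 + ‖y‖ ^ 2) := by
  rw [Real.one_le_sqrt]
  nlinarith [sq_nonneg ‖y‖]

theorem H4_sq_sqrt (y : E n) : Real.sqrt (1 + ‖y‖ ^ 2) ^ 2 = 1 + ‖y‖ ^ 2 :=
  Real.sq_sqrt (by positivity)

theorem ign_gno (hκ : 0 < κ) (hκ1 : κ ≤ 1) {x : E n} (hx : ‖x‖ < 1) : ign κ (gno κ x) = x := by
  have hx2 : ‖x‖ ^ 2 < 1 := by nlinarith [norm_nonneg x]
  have h1 : 0 < 1 - κ * ‖x‖ ^ 2 := by nlinarith [sq_nonneg ‖x‖]
  have hk : 0 < Real.sqrt κ := Real.sqrt_pos.2 hκ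
  have hk2 : Real.sqrt κ ^ 2 = κ := Real.sq_sqrt hκ.le
  have hn : ‖gno κ x‖ = 2 * Real.sqrt κ / (1 - κ * ‖x‖ ^ 2) * ‖x‖ := by
    rw [gno, norm_smul, Real.norm_eq_abs, abs_of_pos (by positivity)]
  have hs : Real.sqrt (1 + ‖gno κ x‖ ^ 2) = (1 + κ * ‖x‖ ^ 2) / (1 - κ * ‖x‖ ^ 2) := by
    rw [Real.sqrt_eq_iff_mul_self_eq (by positivity) (by positivity), hn]
    field_simp
    rw [show Real.sqrt κ ^ 2 = κ from hk2]
    ring
  rw [ign, hs, gno, smul_smul]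
  have : (Real.sqrt κ)⁻¹ / (1 + (1 + κ * ‖x‖ ^ 2) / (1 - κ * ‖x‖ ^ 2)) *
      (2 * Real.sqrt κ / (1 - κ * ‖x‖ ^ 2)) = 1 := by
    rw [show 1 + (1 + κ * ‖x‖ ^ 2) / (1 - κ * ‖x‖ ^ 2) = 2 / (1 - κ * ‖x‖ ^ 2) by
      field_simp; ring]
    field_simp
  rw [this, one_smul]

theorem gno_ign (hκ : 0 < κ) (y : E n) : gno κ (ign κ y) = y := by
  have hk : 0 < Real.sqrt κ := Real.sqrt_pos.2 hκ
  have hk2 : Real.sqrt κ ^ 2 = κ := Real.sq_sqrt hκ.le
  have hs := H4_sqrt_ge y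
  have hs2 := H4_sq_sqrt y
  set s := Real.sqrt (1 + ‖y‖ ^ 2) with hsdef
  have hn : ‖ign κ y‖ = (Real.sqrt κ)⁻¹ / (1 + s) * ‖y‖ := by
    rw [ign, norm_smul, Real.norm_eq_abs, abs_of_pos (by positivity)]
  have h1 : κ * ‖ign κ y‖ ^ 2 = (s - 1) / (s + 1) := by
    rw [hn]
    have h3 : ‖y‖ ^ 2 = (s - 1) * (s + 1) := by nlinarith
    rw [mul_pow, h3, div_pow, inv_pow, hk2]
    field_simp
    ring
  have h2 : 1 - κ * ‖ign κ y‖ ^ 2 = 2 / (s + 1) := by
    rw [h1]; field_simp; ring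
  rw [gno, h2, ign, ← hsdef, smul_smul]
  have : 2 * Real.sqrt κ / (2 / (s + 1)) * ((Real.sqrt κ)⁻¹ / (1 + s)) = 1 := by
    field_simp
    ring
  rw [this, one_smul]

/-- `‖ign κ y‖` is an increasing function of `‖y‖` -/
theorem ign_norm_mono (hκ : 0 < κ) {y y' : E n} (h : ‖y‖ ≤ ‖y'‖) : ‖ign κ y‖ ≤ ‖ign κ y'‖ := by
  have hk : 0 < Real.sqrt κ := Real.sqrt_pos.2 hκ
  have hn : ∀ y : E n, ‖ign κ y‖ =
      (Real.sqrt κ)⁻¹ * (‖y‖ / (1 + Real.sqrt (1 + ‖y‖ ^ 2))) := by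
    intro y
    have hs := H4_sqrt_ge y
    rw [ign, norm_smul, Real.norm_eq_abs, abs_of_pos (by positivity)]
    ring
  rw [hn, hn]
  have hs := H4_sqrt_ge y
  have hs' := H4_sqrt_ge y'
  apply mul_le_mul_of_nonneg_left _ (by positivity)
  rw [div_le_div_iff₀ (by positivity) (by positivity)]
  have h2 : ‖y‖ * Real.sqrt (1 + ‖y'‖ ^ 2) ≤ ‖y'‖ * Real.sqrt (1 + ‖y‖ ^ 2) := by
    apply le_of_sq_le_sq _ (by positivity)
    rw [mul_pow, mul_pow, H4_sq_sqrt, H4_sq_sqrt]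
    nlinarith [norm_nonneg y, norm_nonneg y', mul_self_le_mul_self (norm_nonneg y) h]
  linarith

theorem ign_cont (hκ : 0 < κ) : Continuous (ign (n := n) κ) := by
  have h : Continuous fun y : E n => (Real.sqrt κ)⁻¹ / (1 + Real.sqrt (1 + ‖y‖ ^ 2)) := by
    apply Continuous.div continuous_const (by fun_prop)
    intro y
    have := H4_sqrt_ge y
    positivity
  exact h.smul continuous_id

theorem H4_grad_LR (hκ : 0 < κ) (x : E n) :
    HasGradientAt (LR κ) ((-(2 * κ * pp κ x)) • x) x := by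
  have hp : 0 < 1 + κ * ‖x‖ ^ 2 := by positivity
  have hk : 0 < Real.sqrt κ := Real.sqrt_pos.2 hκ
  rw [hasGradientAt_iff_hasFDerivAt]
  have h1 : HasFDerivAt (fun y : E n => 1 + κ * ‖y‖ ^ 2) (κ • ((2 : ℝ) • innerSL ℝ x)) x := by
    have := ((hasStrictFDerivAt_norm_sq x).hasFDerivAt).const_smul κ
    have h2 := this.const_add 1
    refine HasFDerivAt.congr_fderiv h2 ?_
    ext v
    simp
  have h2 := (h1.log hp.ne').const_sub (Real.log (2 * Real.sqrt κ))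
  have h3 : (fun y : E n => Real.log (2 * Real.sqrt κ) - Real.log (1 + κ * ‖y‖ ^ 2)) = LR κ := by
    funext y
    have hp' : 0 < 1 + κ * ‖y‖ ^ 2 := by positivity
    rw [LR, pp, Real.log_mul (x := 2 * Real.sqrt κ) (y := (1 + κ * ‖y‖ ^ 2)⁻¹) (by positivity)
      (by positivity), Real.log_inv]
    ring
  rw [h3] at h2
  refine h2.congr_fderiv ?_
  ext v
  simp [pp]
  ring

theorem H4_gacc (hκ : 0 < κ) (x v : E n) :
    gacc (LR κ) x v = (4 * κ * pp κ x * ⟪x, v⟫) • v - (2 * κ * pp κ x * ‖v‖ ^ 2) • x := by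
  have h := H4_grad_LR hκ x
  have hf : fderiv ℝ (LR κ) x v = -(2 * κ * pp κ x) * ⟪x, v⟫ := by
    rw [hasGradientAt_iff_hasFDerivAt] at h
    rw [h.fderiv, InnerProductSpace.toDual_apply_apply, inner_smul_left]
    simp
  rw [gacc, h.gradient, hf, smul_smul, sub_eq_add_neg, ← neg_smul]
  congr 2
  · ring
  · ring

/-- images of straight segments are geodesics of the round metric up to parametrisation -/
theorem ign_geo (hκ : 0 < κ) (y u : E n) (hu : u ≠ 0) :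
    ∃ (v w : ℝ → E n) (β : ℝ → ℝ), (∀ t, HasDerivAt (fun s => ign κ (y + s • u)) (v t) t) ∧
      (∀ t, HasDerivAt v (w t) t) ∧ (∀ t, v t ≠ 0) ∧
      (∀ t, w t = gacc (LR κ) (ign κ (y + t • u)) (v t) + β t • v t) := by
  have hk : 0 < Real.sqrt κ := Real.sqrt_pos.2 hκ
  have hk2 : Real.sqrt κ ^ 2 = κ := Real.sq_sqrt hκ.le
  set k : ℝ := (Real.sqrt κ)⁻¹ with hkdef
  have hk0 : 0 < k := by positivity
  have hkk : κ * k ^ 2 = 1 := by rw [hkdef, inv_pow, hk2]; field_simp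
  set Y : ℝ → E n := fun t => y + t • u with hY
  set s : ℝ → ℝ := fun t => Real.sqrt (1 + ‖Y t‖ ^ 2) with hs
  set s1 : ℝ → ℝ := fun t => ⟪Y t, u⟫ / s t with hs1
  set s2 : ℝ → ℝ := fun t => (‖u‖ ^ 2 - s1 t ^ 2) / s t with hs2
  have sge : ∀ t, 1 ≤ s t := fun t => H4_sqrt_ge _
  have spos : ∀ t, 0 < s t := fun t => lt_of_lt_of_le one_pos (sge t)
  have ssq : ∀ t, s t ^ 2 = 1 + ‖Y t‖ ^ 2 := fun t => H4_sq_sqrt _
  have ss1 : ∀ t, ⟪Y t, u⟫ = s t * s1 t := fun t => by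
    rw [hs1]; have := spos t; field_simp
  have dY : ∀ t, HasDerivAt Y u t := fun t => by
    have := ((hasDerivAt_id t).smul_const u).const_add y
    simpa [hY] using this
  have ds : ∀ t, HasDerivAt s (s1 t) t := fun t => by
    have h1 : HasDerivAt (fun t => 1 + ‖Y t‖ ^ 2) (2 * ⟪Y t, u⟫) t := by
      have := (dY t).norm_sq
      exact this.const_add 1
    have h2 := h1.sqrt (by positivity)
    have h3 : 2 * ⟪Y t, u⟫ / (2 * Real.sqrt (1 + ‖Y t‖ ^ 2)) = s1 t := by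
      rw [hs1]; simp only [hs]
      rw [mul_div_mul_left _ _ (two_ne_zero)]
    rw [h3] at h2
    exact h2
  have ds1 : ∀ t, HasDerivAt s1 (s2 t) t := fun t => by
    have h1 : HasDerivAt (fun t => ⟪Y t, u⟫) (‖u‖ ^ 2) t := by
      have := (dY t).inner ℝ (hasDerivAt_const t u)
      simpa [real_inner_self_eq_norm_sq] using this
    have h2 := h1.div (ds t) (spos t).ne'
    have h3 : (‖u‖ ^ 2 * s t - ⟪Y t, u⟫ * s1 t) / s t ^ 2 = s2 t := by
      rw [hs2, ss1 t]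
      have := (spos t).ne'
      field_simp
    rw [h3] at h2
    exact h2
  set g : ℝ → ℝ := fun t => k / (1 + s t) with hg
  set g1 : ℝ → ℝ := fun t => -(k * s1 t) / (1 + s t) ^ 2 with hg1
  set g2 : ℝ → ℝ := fun t => -(k * s2 t) / (1 + s t) ^ 2 + 2 * k * s1 t ^ 2 / (1 + s t) ^ 3 with hg2
  have dg : ∀ t, HasDerivAt g (g1 t) t := fun t => by
    have hp : (1 + s t) ≠ 0 := by have := spos t; positivity
    have h1 := ((hasDerivAt_const t k).div ((ds t).const_add 1) hp)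
    have h3 : (0 * (1 + s t) - k * s1 t) / (1 + s t) ^ 2 = g1 t := by
      rw [hg1]; ring
    rw [h3] at h1
    exact h1
  have dg1 : ∀ t, HasDerivAt g1 (g2 t) t := fun t => by
    have hp : (1 + s t) ≠ 0 := by have := spos t; positivity
    have h1 := (((ds1 t).const_mul k).neg.div (((ds t).const_add 1).pow 2) (pow_ne_zero 2 hp))
    have h3 : (-(k * s2 t) * (1 + s t) ^ 2 - -(k * s1 t) * (((2 : ℕ) : ℝ) * (1 + s t) ^ (2 - 1) * s1 t)) /
        ((1 + s t) ^ 2) ^ 2 = g2 t := by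
      rw [hg2]
      push_cast
      field_simp
      ring
    exact HasDerivAt.congr_deriv h1 h3
  have hign : ∀ t, ign κ (Y t) = g t • Y t := fun t => rfl
  have hvn : ∀ t, ‖g1 t • Y t + g t • u‖ ^ 2 = k ^ 2 * (‖u‖ ^ 2 - s1 t ^ 2) / (1 + s t) ^ 2 := by
    intro t
    have hp : (1 + s t) ≠ 0 := by have := spos t; positivity
    have h1 : ‖g1 t • Y t + g t • u‖ ^ 2 =
        g1 t ^ 2 * ‖Y t‖ ^ 2 + 2 * (g1 t * g t * ⟪Y t, u⟫) + g t ^ 2 * ‖u‖ ^ 2 := by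
      rw [norm_add_sq_real, norm_smul, norm_smul, inner_smul_left, inner_smul_right, mul_pow,
        mul_pow, Real.norm_eq_abs, Real.norm_eq_abs, sq_abs, sq_abs]
      simp only [conj_trivial]
      ring
    have h2 : ‖Y t‖ ^ 2 = s t ^ 2 - 1 := by rw [ssq t]; ring
    rw [h1, ss1 t, h2]
    simp only [hg1, hg]
    field_simp
    ring
  have hup : ∀ t, 0 < ‖u‖ ^ 2 - s1 t ^ 2 := by
    intro t
    have h1 : ⟪Y t, u⟫ ^ 2 ≤ ‖Y t‖ ^ 2 * ‖u‖ ^ 2 := by
      rw [← mul_pow]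
      exact sq_le_sq' (by have := abs_le.1 (abs_real_inner_le_norm (Y t) u); linarith [this.1])
        (real_inner_le_norm _ _)
    have h2 : 0 < ‖u‖ ^ 2 := by have := norm_pos_iff.2 hu; positivity
    rw [ss1 t] at h1
    have h3 := ssq t
    have h4 := spos t
    have h5 : 0 < s t ^ 2 * (‖u‖ ^ 2 - s1 t ^ 2) := by nlinarith
    exact (mul_pos_iff_of_pos_left (by positivity)).1 h5
  refine ⟨fun t => g1 t • Y t + g t • u, fun t => g2 t • Y t + (2 * g1 t) • u,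
    fun t => 2 * g1 t / g t - 4 * κ * pp κ (g t • Y t) * ⟪g t • Y t, g1 t • Y t + g t • u⟫,
    ?_, ?_, ?_, ?_⟩
  · intro t
    have := (dg t).smul (dY t)
    rw [add_comm] at this
    exact this
  · intro t
    have h1 := ((dg1 t).smul (dY t)).add ((dg t).smul_const u)
    refine HasDerivAt.congr_deriv h1 ?_
    module
  · intro t h0
    have h1 := hvn t
    simp only at h0
    rw [h0, norm_zero] at h1
    have h2 := hup t
    have h3 := spos t
    have h4 : 0 < k ^ 2 * (‖u‖ ^ 2 - s1 t ^ 2) / (1 + s t) ^ 2 := by positivity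
    rw [← h1] at h4
    simp at h4
  · intro t
    have hp : (1 + s t) ≠ 0 := by have := spos t; positivity
    have hs0 : s t ≠ 0 := (spos t).ne'
    have hk0' : k ≠ 0 := hk0.ne'
    have hpp : pp κ (g t • Y t) = (1 + s t) / (2 * s t) := by
      have h2 : ‖Y t‖ ^ 2 = s t ^ 2 - 1 := by rw [ssq t]; ring
      rw [pp, norm_smul, mul_pow, Real.norm_eq_abs, sq_abs, h2]
      have h3 : κ * (g t ^ 2 * (s t ^ 2 - 1)) = (s t - 1) / (1 + s t) := by
        simp only [hg]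
        rw [div_pow, show κ * (k ^ 2 / (1 + s t) ^ 2 * (s t ^ 2 - 1)) =
          (κ * k ^ 2) * (s t ^ 2 - 1) / (1 + s t) ^ 2 by ring, hkk]
        field_simp
        ring
      rw [h3, inv_eq_iff_eq_inv]
      field_simp
      ring
    have hc : g2 t = 2 * g1 t / g t * g1 t - 2 * κ * pp κ (g t • Y t) *
        ‖g1 t • Y t + g t • u‖ ^ 2 * g t := by
      rw [hpp, hvn t]
      simp only [hg2, hg1, hg, hs2]
      have : 2 * κ * ((1 + s t) / (2 * s t)) * (k ^ 2 * (‖u‖ ^ 2 - s1 t ^ 2) / (1 + s t) ^ 2) *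
          (k / (1 + s t)) = (κ * k ^ 2) * k * (‖u‖ ^ 2 - s1 t ^ 2) / (s t * (1 + s t) ^ 2) := by
        field_simp
      rw [this, hkk]
      field_simp
      ring
    have hd : 2 * g1 t = 2 * g1 t / g t * g t := by
      have : g t ≠ 0 := by simp only [hg]; positivity
      field_simp
    have hYt : y + t • u = Y t := rfl
    simp only
    rw [H4_gacc hκ, hYt, hign t]
    generalize 2 * κ * pp κ (g t • Y t) * ‖g1 t • Y t + g t • u‖ ^ 2 = B at hc ⊢
    generalize 4 * κ * pp κ (g t • Y t) * ⟪g t • Y t, g1 t • Y t + g t • u⟫ = c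
    generalize 2 * g1 t / g t = A at hc hd ⊢
    rw [hc, hd]
    module

end SN
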