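import Pool.Agent.helper71.SN.H3
import Pool.Agent.helper71.SN.H4

/-! SN-H5 -/

noncomputable section

namespace SN

open KBR Set Filter Topology
open scoped ContDiff RealInnerProductSpace

variable {n : ℕ}

variable {L : E n → ℝ} {κ r ρ : ℝ}

theorem H5_gacc {L L' : E n → ℝ} {x : E n} (h : L =ᶠ[𝓝 x] L') (v : E n) :
    gacc L x v = gacc L' x v := by
  unfold gacc gradient
  rw [h.fderiv_eq]

/-- the sublevel set in the gnomonic coordinate -/
def H5_S (κ ρ a : ℝ) (f : E n → ℝ) : Set (E n) := {y | ‖ign κ y‖ < ρ ∧ f (ign κ y) ≤ a}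

theorem H5_convex (hL : NetL L κ r ρ) (f : E n → ℝ) (a : ℝ) (hf : QC L f a) :
    Convex ℝ (H5_S κ ρ a f) := by
  rw [convex_iff_forall_pos]
  intro y0 hy0 y1 hy1 s t hs ht hst
  by_cases hu : y1 - y0 = 0
  · have : y1 = y0 := sub_eq_zero.1 hu
    rw [this, ← add_smul, hst, one_smul]
    exact hy0
  · obtain ⟨v, w, β, h1, h2, h3, h4⟩ := ign_geo (κ := κ) hL.κ_pos y0 (y1 - y0) hu
    have hpt : ∀ t ∈ Icc (0 : ℝ) 1, ‖ign κ (y0 + t • (y1 - y0))‖ < ρ := by
      intro t ht
      have hn : ‖y0 + t • (y1 - y0)‖ ≤ max ‖y0‖ ‖y1‖ := by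
        have e : y0 + t • (y1 - y0) = (1 - t) • y0 + t • y1 := by
          rw [smul_sub, sub_smul, one_smul]
          abel
        rw [e]
        refine (norm_add_le _ _).trans ?_
        rw [norm_smul, norm_smul, Real.norm_of_nonneg (by linarith [ht.2]),
          Real.norm_of_nonneg ht.1]
        calc (1 - t) * ‖y0‖ + t * ‖y1‖ ≤ (1 - t) * max ‖y0‖ ‖y1‖ + t * max ‖y0‖ ‖y1‖ :=
              add_le_add (mul_le_mul_of_nonneg_left (le_max_left _ _) (by linarith [ht.2]))
                (mul_le_mul_of_nonneg_left (le_max_right _ _) ht.1)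
          _ = max ‖y0‖ ‖y1‖ := by ring
      rcases le_total ‖y0‖ ‖y1‖ with h | h
      · rw [max_eq_right h] at hn
        exact lt_of_le_of_lt (ign_norm_mono hL.κ_pos hn) hy1.1
      · rw [max_eq_left h] at hn
        exact lt_of_le_of_lt (ign_norm_mono hL.κ_pos hn) hy0.1
    have hmax := max_pre (L := L) (f := f) (a := a) hL.smooth hf
      (c := fun s => ign κ (y0 + s • (y1 - y0))) (v := v) (w := w) (β := β)
      (fun t _ => h1 t) (fun t _ => h2 t) (fun t ht => by
        rw [h4 t]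
        congr 1
        refine (H5_gacc ?_ _).symm
        have hopen : IsOpen {x : E n | ‖x‖ < ρ} := isOpen_lt continuous_norm continuous_const
        filter_upwards [hopen.mem_nhds (hpt t ht)] with x hx
        exact hL.round x hx)
      (fun t _ => h3 t) (fun t ht => lt_trans (hpt t ht) (lt_of_le_of_lt hL.ρ_lt hL.r_lt))
      (by
        have e : y0 + (0 : ℝ) • (y1 - y0) = y0 := by rw [zero_smul, add_zero]
        simp only [e]
        exact hy0.2)
      (by
        have e : y0 + (1 : ℝ) • (y1 - y0) = y1 := by rw [one_smul]; abel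
        simp only [e]
        exact hy1.2)
    have ht1 : t ∈ Icc (0 : ℝ) 1 := ⟨ht.le, by linarith⟩
    have e : s • y0 + t • y1 = y0 + t • (y1 - y0) := by
      have : s = 1 - t := by linarith
      rw [this, smul_sub, sub_smul, one_smul]
      abel
    rw [e]
    exact ⟨hpt t ht1, hmax t ht1⟩

theorem H5_cube {S : Set (E n)} (hS : Convex ℝ S) {c : ℝ} (hc : 0 < c)
    (hv : ∀ y : E n, (∀ i, y i = -c ∨ y i = c) → y ∈ S) :
    ∀ y : E n, (∀ i, |y i| ≤ c) → y ∈ S := by
  intro y hy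
  let e : (Fin n → ℝ) ≃ₗ[ℝ] E n := (WithLp.linearEquiv 2 ℝ (Fin n → ℝ)).symm
  have hS' : Convex ℝ (e ⁻¹' S) := hS.linear_preimage (e : (Fin n → ℝ) →ₗ[ℝ] E n)
  have hsub : (Set.univ.pi fun _ : Fin n => ({-c, c} : Set ℝ)) ⊆ e ⁻¹' S := by
    intro x hx
    refine hv _ fun i => ?_
    have h : x i ∈ ({-c, c} : Set ℝ) := hx i (Set.mem_univ i)
    exact h
  have h1 := convexHull_min hsub hS'
  rw [convexHull_pi] at h1
  have h2 : (fun i => y i) ∈ Set.univ.pi fun _ : Fin n => convexHull ℝ ({-c, c} : Set ℝ) := by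
    intro i _
    rw [convexHull_pair, segment_eq_Icc (by linarith)]
    exact abs_le.1 (hy i)
  exact h1 h2

theorem H5_NN (hn : 3 ≤ n) {y : E n} {c : ℝ} (hc : 0 < c) (hy : ∀ i, y i = -c ∨ y i = c) :
    y ∈ NN n := by
  have habs : ∀ i, |y i| = c := by
    intro i
    rcases hy i with h | h <;> rw [h]
    · rw [abs_neg, abs_of_pos hc]
    · exact abs_of_pos hc
  exact ⟨⟨0, by omega⟩, c, (habs _).le, fun j _ => habs j⟩

/-- SN-H5: there is no foliation by strictly convex hypersurfaces -/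
theorem no_foliation (hn : 3 ≤ n) (hL : NetL L κ r ρ) (f : E n → ℝ) (a : ℝ) (hf : QC L f a) :
    (interior {x ∈ M n | f x ≤ a}).Nonempty := by
  have hign0 : ign κ (0 : E n) = 0 := by
    unfold ign
    rw [smul_zero]
  -- vertices of a small cube
  have hsmall : ∀ᶠ y in 𝓝 (0 : E n), ‖ign κ y‖ < ρ := by
    have hc : Continuous fun y : E n => ‖ign κ y‖ := (ign_cont hL.κ_pos).norm
    have := hc.tendsto 0
    rw [hign0, norm_zero] at this
    exact this.eventually (gt_mem_nhds hL.ρ_pos)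
  obtain ⟨δ, hδ, hball⟩ := Metric.eventually_nhds_iff.1 hsmall
  obtain ⟨c, hc, hcδ⟩ : ∃ c : ℝ, 0 < c ∧ ∀ y : E n, (∀ i, y i = -c ∨ y i = c) → ‖y‖ < δ := by
    refine ⟨δ / (n + 1), by positivity, fun y hy => ?_⟩
    have habs : ∀ i, ‖y i‖ = δ / (n + 1) := by
      intro i
      rw [Real.norm_eq_abs]
      rcases hy i with h | h <;> rw [h]
      · rw [abs_neg, abs_of_pos (by positivity)]
      · exact abs_of_pos (by positivity)
    rw [EuclideanSpace.norm_eq]
    simp only [habs, Finset.sum_const, Finset.card_univ, Fintype.card_fin, nsmul_eq_mul]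
    rw [Real.sqrt_lt' hδ, div_pow, mul_div_assoc', div_lt_iff₀ (by positivity)]
    have hn0 : (0 : ℝ) ≤ n := Nat.cast_nonneg n
    have hδ2 : 0 < δ ^ 2 := by positivity
    have h5 : (n : ℝ) < ((n : ℝ) + 1) ^ 2 := by nlinarith
    have h6 := mul_lt_mul_of_pos_left h5 hδ2
    linarith
  have hS := H5_convex hL f a hf
  have hcube := H5_cube hS hc (fun y hy => by
    have h1 : ‖ign κ y‖ < ρ := hball (by rw [dist_zero_right]; exact hcδ y hy)
    refine ⟨h1, cone_le hn hL hf _ ?_ (h1.le.trans hL.ρ_lt)⟩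
    exact NN_smul (H5_NN hn hc hy) _)
  refine ⟨0, ?_⟩
  rw [mem_interior_iff_mem_nhds]
  have hgc : ContinuousAt (gno (n := n) κ) 0 := by
    have h1 : ContinuousAt (fun x : E n => 2 * Real.sqrt κ / (1 - κ * ‖x‖ ^ 2)) 0 := by
      refine ContinuousAt.div continuousAt_const ?_ (by simp)
      exact Continuous.continuousAt (by fun_prop)
    exact h1.smul continuousAt_id
  have hgno0 : gno κ (0 : E n) = 0 := by
    unfold gno
    rw [smul_zero]
  have hnb : Metric.ball (0 : E n) c ∈ 𝓝 (gno κ (0 : E n)) := by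
    rw [hgno0]
    exact Metric.ball_mem_nhds _ hc
  filter_upwards [hgc hnb, Metric.ball_mem_nhds (0 : E n) one_pos] with x hx hx1
  have hx1' : ‖x‖ < 1 := by simpa using hx1
  have hx' : ‖gno κ x‖ < c := by simpa using hx
  have h1 := hcube (gno κ x) (fun i => by
    have := PiLp.norm_apply_le (gno κ x) i
    rw [Real.norm_eq_abs] at this
    exact this.trans hx'.le)
  have h2 := h1.2
  rw [ign_gno hL.κ_pos hL.κ_le hx1'] at h2
  refine ⟨?_, h2⟩
  exact mem_closedBall_zero_iff.2 hx1'.le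

end SN
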