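import Pool.Agent.helper71.SN.R1

/-! SN-R2 -/

noncomputable section

namespace SN

open KBR Set Filter Topology
open scoped ContDiff RealInnerProductSpace

variable {n : ℕ}

variable {κ : ℝ} {μ μ₁ μ₂ Q Q₁ Q₂ : ℝ → ℝ} {ψ : E n → ℝ}

/-- smoothness and derivatives of the data -/
structure Dat (μ μ₁ μ₂ Q Q₁ Q₂ : ℝ → ℝ) (ψ : E n → ℝ) : Prop where
  smoothμ : ContDiff ℝ ∞ μ
  smoothQ : ContDiff ℝ ∞ Q
  smoothψ : ContDiff ℝ ∞ ψ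
  dμ : ∀ z, HasDerivAt μ (μ₁ z) z
  dμ₁ : ∀ z, HasDerivAt μ₁ (μ₂ z) z
  dQ : ∀ z, HasDerivAt Q (Q₁ z) z
  dQ₁ : ∀ z, HasDerivAt Q₁ (Q₂ z) z

/-- derivative of `λ = μ(z) - ψ(X) Q(z)` in the direction `v` -/
def lamD (κ : ℝ) (μ₁ Q Q₁ : ℝ → ℝ) (ψ : E n → ℝ) (x v : E n) : ℝ :=
  (μ₁ (zz κ x) - ψ (XX κ x) * Q₁ (zz κ x)) * fderiv ℝ (zz κ) x v
    - Q (zz κ x) * fderiv ℝ ψ (XX κ x) (fderiv ℝ (XX κ) x v)

/-- radial derivative of `λ` in `ℝⁿ⁺¹` -/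
def lamR (κ : ℝ) (μ₁ Q Q₁ : ℝ → ℝ) (ψ : E n → ℝ) (x : E n) : ℝ :=
  (μ₁ (zz κ x) - ψ (XX κ x) * Q₁ (zz κ x)) * zz κ x
    - Q (zz κ x) * fderiv ℝ ψ (XX κ x) (XX κ x)

/-- second derivative of `λ` in `ℝⁿ⁺¹` -/
def lamH (κ : ℝ) (μ₂ Q Q₁ Q₂ : ℝ → ℝ) (ψ : E n → ℝ) (x v : E n) : ℝ :=
  (μ₂ (zz κ x) - ψ (XX κ x) * Q₂ (zz κ x)) * (fderiv ℝ (zz κ) x v) ^ 2
    - 2 * Q₁ (zz κ x) * fderiv ℝ (zz κ) x v * fderiv ℝ ψ (XX κ x) (fderiv ℝ (XX κ) x v)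
    - Q (zz κ x) * fderiv ℝ (fderiv ℝ ψ) (XX κ x) (fderiv ℝ (XX κ) x v) (fderiv ℝ (XX κ) x v)

/-- the perturbation as a function on `ℝⁿ × ℝ` -/
def lamF (μ Q : ℝ → ℝ) (ψ : E n → ℝ) (p : E n × ℝ) : ℝ := μ p.2 - ψ p.1 * Q p.2

theorem lamF_smooth (hd : Dat μ μ₁ μ₂ Q Q₁ Q₂ ψ) : ContDiff ℝ ∞ (lamF μ Q ψ) := by
  unfold lamF
  exact (hd.smoothμ.comp contDiff_snd).sub
    ((hd.smoothψ.comp contDiff_fst).mul (hd.smoothQ.comp contDiff_snd))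

theorem LL_eq (x : E n) : LL κ μ Q ψ x = LR κ x + lamF μ Q ψ (XX κ x, zz κ x) := rfl

theorem lam_smooth (hκ : 0 < κ) (hd : Dat μ μ₁ μ₂ Q Q₁ Q₂ ψ) :
    ContDiff ℝ ∞ (fun y : E n => lamF μ Q ψ (XX κ y, zz κ y)) :=
  (lamF_smooth hd).comp ((XX_smooth hκ).prodMk (zz_smooth hκ))

theorem LL_smooth (hκ : 0 < κ) (hd : Dat μ μ₁ μ₂ Q Q₁ Q₂ ψ) : ContDiff ℝ ∞ (LL κ μ Q ψ) :=
  (LR_smooth hκ).add (lam_smooth hκ hd)

theorem fderiv_lamF (hd : Dat μ μ₁ μ₂ Q Q₁ Q₂ ψ) (X a : E n) (z b : ℝ) :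
    fderiv ℝ (lamF μ Q ψ) (X, z) (a, b) = (μ₁ z - ψ X * Q₁ z) * b - Q z * fderiv ℝ ψ X a := by
  have hψ : HasFDerivAt ψ (fderiv ℝ ψ X) X :=
    ((hd.smoothψ.differentiable (by simp)) X).hasFDerivAt
  have h1 : HasFDerivAt (fun p : E n × ℝ => ψ p.1)
      ((fderiv ℝ ψ X).comp (ContinuousLinearMap.fst ℝ (E n) ℝ)) (X, z) :=
    HasFDerivAt.comp (g := ψ) (f := Prod.fst) (X, z) hψ hasFDerivAt_fst
  have h2 : HasFDerivAt (fun p : E n × ℝ => Q p.2)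
      ((ContinuousLinearMap.smulRight (1 : ℝ →L[ℝ] ℝ) (Q₁ z)).comp
        (ContinuousLinearMap.snd ℝ (E n) ℝ)) (X, z) :=
    HasFDerivAt.comp (g := Q) (f := Prod.snd) (X, z) (hd.dQ z).hasFDerivAt hasFDerivAt_snd
  have h3 : HasFDerivAt (fun p : E n × ℝ => μ p.2)
      ((ContinuousLinearMap.smulRight (1 : ℝ →L[ℝ] ℝ) (μ₁ z)).comp
        (ContinuousLinearMap.snd ℝ (E n) ℝ)) (X, z) :=
    HasFDerivAt.comp (g := μ) (f := Prod.snd) (X, z) (hd.dμ z).hasFDerivAt hasFDerivAt_snd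
  have h4 := h3.sub (h1.mul h2)
  have h5 : fderiv ℝ (lamF μ Q ψ) (X, z) = _ := h4.fderiv
  rw [h5]
  simp only [sub_apply, add_apply,
    smul_apply, ContinuousLinearMap.comp_apply,
    ContinuousLinearMap.smulRight_apply, ContinuousLinearMap.coe_fst',
    ContinuousLinearMap.coe_snd', one_apply_eq_self, smul_eq_mul]
  ring

theorem fderiv_lam (hκ : 0 < κ) (hd : Dat μ μ₁ μ₂ Q Q₁ Q₂ ψ) (x v : E n) :
    fderiv ℝ (fun y : E n => lamF μ Q ψ (XX κ y, zz κ y)) x v = lamD κ μ₁ Q Q₁ ψ x v := by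
  have hX : HasFDerivAt (XX κ) (fderiv ℝ (XX κ) x) x :=
    (((XX_smooth hκ).differentiable (by simp)) x).hasFDerivAt
  have hz : HasFDerivAt (zz κ) (fderiv ℝ (zz κ) x) x :=
    (((zz_smooth hκ).differentiable (by simp)) x).hasFDerivAt
  have hF : HasFDerivAt (lamF μ Q ψ) (fderiv ℝ (lamF μ Q ψ) (XX κ x, zz κ x)) (XX κ x, zz κ x) :=
    (((lamF_smooth hd).differentiable (by simp)) _).hasFDerivAt
  have h := HasFDerivAt.comp (g := lamF μ Q ψ) (f := fun y : E n => (XX κ y, zz κ y)) x hF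
    (hX.prodMk hz)
  have h' : fderiv ℝ (fun y : E n => lamF μ Q ψ (XX κ y, zz κ y)) x = _ := h.fderiv
  rw [h']
  simp only [ContinuousLinearMap.comp_apply, ContinuousLinearMap.prod_apply]
  rw [fderiv_lamF hd]
  rfl

/-- SN-R2 (a) -/
theorem fderiv_LL (hκ : 0 < κ) (hd : Dat μ μ₁ μ₂ Q Q₁ Q₂ ψ) (x v : E n) :
    fderiv ℝ (LL κ μ Q ψ) x v = fderiv ℝ (LR κ) x v + lamD κ μ₁ Q Q₁ ψ x v := by
  have h1 : DifferentiableAt ℝ (LR (n := n) κ) x := ((LR_smooth hκ).differentiable (by simp)) x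
  have h2 : DifferentiableAt ℝ (fun y : E n => lamF μ Q ψ (XX κ y, zz κ y)) x :=
    ((lam_smooth hκ hd).differentiable (by simp)) x
  have h3 : LL κ μ Q ψ = (LR (n := n) κ) + (fun y : E n => lamF μ Q ψ (XX κ y, zz κ y)) := rfl
  rw [h3, fderiv_add h1 h2, add_apply, fderiv_lam hκ hd]

theorem gradient_LL (hκ : 0 < κ) (hd : Dat μ μ₁ μ₂ Q Q₁ Q₂ ψ) (x : E n) :
    gradient (LL κ μ Q ψ) x = gradient (LR κ) x +
      gradient (fun y : E n => lamF μ Q ψ (XX κ y, zz κ y)) x := by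
  have h1 : DifferentiableAt ℝ (LR (n := n) κ) x := ((LR_smooth hκ).differentiable (by simp)) x
  have h2 : DifferentiableAt ℝ (fun y : E n => lamF μ Q ψ (XX κ y, zz κ y)) x :=
    ((lam_smooth hκ hd).differentiable (by simp)) x
  have h3 : LL κ μ Q ψ = (LR (n := n) κ) + (fun y : E n => lamF μ Q ψ (XX κ y, zz κ y)) := rfl
  unfold gradient
  rw [h3, fderiv_add h1 h2, map_add]

theorem gacc_LL (hκ : 0 < κ) (hd : Dat μ μ₁ μ₂ Q Q₁ Q₂ ψ) (x v : E n) :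
    gacc (LL κ μ Q ψ) x v = gacc (LR κ) x v + (-(2 * lamD κ μ₁ Q Q₁ ψ x v)) • v
      + (‖v‖ ^ 2) • gradient (fun y : E n => lamF μ Q ψ (XX κ y, zz κ y)) x := by
  unfold gacc
  rw [gradient_LL hκ hd, fderiv_LL hκ hd, smul_add]
  have : -(2 * (fderiv ℝ (LR κ) x v + lamD κ μ₁ Q Q₁ ψ x v)) =
    -(2 * fderiv ℝ (LR κ) x v) + -(2 * lamD κ μ₁ Q Q₁ ψ x v) := by ring
  rw [this, add_smul]
  abel

/-- SN-R2 (b) -/
theorem hess_zz (hκ : 0 < κ) (hd : Dat μ μ₁ μ₂ Q Q₁ Q₂ ψ) (x v : E n) :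
    hess (LL κ μ Q ψ) (zz κ) x v =
      -(Real.exp (2 * LR κ x) * ‖v‖ ^ 2) * zz κ x
      - 2 * lamD κ μ₁ Q Q₁ ψ x v * fderiv ℝ (zz κ) x v
      + Real.exp (2 * LR κ x) * ‖v‖ ^ 2 *
        ((μ₁ (zz κ x) - ψ (XX κ x) * Q₁ (zz κ x)) - zz κ x * lamR κ μ₁ Q Q₁ ψ x) := by
  have hF : DifferentiableAt ℝ (lamF μ Q ψ) (XX κ x, zz κ x) :=
    ((lamF_smooth hd).differentiable (by simp)) _
  have h1 := round_geo_z hκ x v
  have h2 := round_grad_z hκ x (lamF μ Q ψ) hF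
  rw [fderiv_lamF hd, fderiv_lamF hd] at h2
  unfold hess
  rw [gacc_LL hκ hd, map_add, map_add, map_smul, map_smul, h2, ← add_assoc, ← add_assoc, h1]
  simp only [smul_eq_mul, map_zero, lamR]
  ring

/-- SN-R2 (c) -/
theorem hess_XX (hκ : 0 < κ) (hd : Dat μ μ₁ μ₂ Q Q₁ Q₂ ψ) (x v b : E n) :
    hess (LL κ μ Q ψ) (fun y => ⟪XX κ y, b⟫) x v =
      -(Real.exp (2 * LR κ x) * ‖v‖ ^ 2) * ⟪XX κ x, b⟫
      - 2 * lamD κ μ₁ Q Q₁ ψ x v * ⟪fderiv ℝ (XX κ) x v, b⟫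
      + Real.exp (2 * LR κ x) * ‖v‖ ^ 2 *
        (-(Q (zz κ x) * fderiv ℝ ψ (XX κ x) b) - ⟪XX κ x, b⟫ * lamR κ μ₁ Q Q₁ ψ x) := by
  have hF : DifferentiableAt ℝ (lamF μ Q ψ) (XX κ x, zz κ x) :=
    ((lamF_smooth hd).differentiable (by simp)) _
  have h1 := congrArg (fun u => ⟪u, b⟫) (round_geo_X hκ x v)
  have h2 := round_grad_X hκ x b (lamF μ Q ψ) hF
  rw [fderiv_lamF hd, fderiv_lamF hd] at h2
  simp only [inner_add_left, inner_smul_left] at h1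
  have hX : ∀ y : E n, DifferentiableAt ℝ (XX κ) y := (XX_smooth hκ).differentiable (by simp)
  have hfd : ∀ y : E n, fderiv ℝ (fun y => ⟪XX κ y, b⟫) y =
      ((innerSL ℝ (E := E n)).flip b).comp (fderiv ℝ (XX κ) y) := by
    intro y
    have h := ((innerSL ℝ (E := E n)).flip b).hasFDerivAt.comp y (hX y).hasFDerivAt
    exact h.fderiv
  have hX2 : DifferentiableAt ℝ (fderiv ℝ (XX κ)) x := by
    have : ContDiff ℝ 1 (fderiv ℝ (XX (n := n) κ)) :=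
      (XX_smooth hκ).fderiv_right (by norm_cast)
    exact (this.differentiable (by simp)) x
  have hfd2 : fderiv ℝ (fderiv ℝ (fun y => ⟪XX κ y, b⟫)) x v v =
      ⟪fderiv ℝ (fderiv ℝ (XX κ)) x v v, b⟫ := by
    have h3 : fderiv ℝ (fun y => ⟪XX κ y, b⟫) = fun y =>
      ((innerSL ℝ (E := E n)).flip b).comp (fderiv ℝ (XX κ) y) := funext hfd
    rw [h3]
    have h4 := (ContinuousLinearMap.compL ℝ (E n) (E n) ℝ ((innerSL ℝ (E := E n)).flip b)).hasFDerivAt.comp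
      x hX2.hasFDerivAt
    have h5 : fderiv ℝ (fun y => ((innerSL ℝ (E := E n)).flip b).comp (fderiv ℝ (XX κ) y)) x = _ :=
      h4.fderiv
    rw [h5]
    rfl
  unfold hess
  rw [gacc_LL hκ hd, hfd2, hfd, map_add, map_add, map_smul, map_smul]
  simp only [ContinuousLinearMap.comp_apply, ContinuousLinearMap.flip_apply, innerSL_apply_apply]
  rw [h2, ← add_assoc, ← add_assoc]
  simp only [smul_eq_mul, lamR]
  have h6 : ⟪fderiv ℝ (fderiv ℝ (XX κ)) x v v, b⟫ + ⟪fderiv ℝ (XX κ) x (gacc (LR κ) x v), b⟫ =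
      -(Real.exp (2 * LR κ x) * ‖v‖ ^ 2) * ⟪XX κ x, b⟫ := by
    rw [h1]; simp
  rw [h6]
  ring

end SN
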