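import Pool.Agent.helper71.SN.R2

/-! SN-R3 -/

noncomputable section

namespace SN

open KBR Set Filter Topology
open scoped ContDiff RealInnerProductSpace

variable {n : ℕ}

variable {κ : ℝ} {μ μ₁ μ₂ Q Q₁ Q₂ : ℝ → ℝ} {ψ : E n → ℝ}

private theorem r3_line1 {F : Type*} [NormedAddCommGroup F] [NormedSpace ℝ F] {g : E n → F}
    (hg : ContDiff ℝ ∞ g) (x v : E n) :
    HasDerivAt (fun t : ℝ => g (x + t • v)) (fderiv ℝ g x v) 0 := by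
  have h1 : HasFDerivAt g (fderiv ℝ g x) x :=
    (hg.differentiable (by norm_num)).differentiableAt.hasFDerivAt
  have h2 : HasDerivAt (fun t : ℝ => x + t • v) v 0 := by
    simpa using ((hasDerivAt_id (0 : ℝ)).smul_const v).const_add x
  exact h1.comp_hasDerivAt_of_eq (0 : ℝ) h2 (by simp)

private theorem r3_smooth_fderiv {F : Type*} [NormedAddCommGroup F] [NormedSpace ℝ F]
    {g : E n → F} (hg : ContDiff ℝ ∞ g) : ContDiff ℝ ∞ (fderiv ℝ g) :=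
  hg.fderiv_right (m := ∞) (by norm_num)

private theorem r3_line2 {F : Type*} [NormedAddCommGroup F] [NormedSpace ℝ F] {g : E n → F}
    (hg : ContDiff ℝ ∞ g) (x v : E n) :
    HasDerivAt (fun t : ℝ => fderiv ℝ g (x + t • v) v) (fderiv ℝ (fderiv ℝ g) x v v) 0 := by
  have h1 := r3_line1 (r3_smooth_fderiv hg) x v
  have h2 := h1.clm_apply (hasDerivAt_const (0 : ℝ) v)
  simpa using h2

/-- second derivative of `LL` -/
private theorem r3_D2 (hκ : 0 < κ) (hd : Dat μ μ₁ μ₂ Q Q₁ Q₂ ψ) (x v : E n) :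
    fderiv ℝ (fderiv ℝ (LL κ μ Q ψ)) x v v = fderiv ℝ (fderiv ℝ (LR κ)) x v v +
      (lamH κ μ₂ Q Q₁ Q₂ ψ x v +
        (μ₁ (zz κ x) - ψ (XX κ x) * Q₁ (zz κ x)) * fderiv ℝ (fderiv ℝ (zz κ)) x v v -
        Q (zz κ x) * fderiv ℝ ψ (XX κ x) (fderiv ℝ (fderiv ℝ (XX κ)) x v v)) := by
  have e0 : x + (0 : ℝ) • v = x := by simp
  have hZ := r3_line1 (zz_smooth (n := n) hκ) x v
  have hZ' := r3_line2 (zz_smooth (n := n) hκ) x v
  have hX := r3_line1 (XX_smooth (n := n) hκ) x v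
  have hX' := r3_line2 (XX_smooth (n := n) hκ) x v
  have hL := r3_line2 (LL_smooth hκ hd) x v
  have hR := r3_line2 (LR_smooth (n := n) hκ) x v
  have hμ₁ : HasDerivAt (fun t : ℝ => μ₁ (zz κ (x + t • v)))
      (μ₂ (zz κ x) * fderiv ℝ (zz κ) x v) 0 :=
    (hd.dμ₁ (zz κ x)).comp_of_eq (0 : ℝ) hZ (by rw [e0])
  have hQ₁ : HasDerivAt (fun t : ℝ => Q₁ (zz κ (x + t • v)))
      (Q₂ (zz κ x) * fderiv ℝ (zz κ) x v) 0 :=
    (hd.dQ₁ (zz κ x)).comp_of_eq (0 : ℝ) hZ (by rw [e0])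
  have hQ : HasDerivAt (fun t : ℝ => Q (zz κ (x + t • v)))
      (Q₁ (zz κ x) * fderiv ℝ (zz κ) x v) 0 :=
    (hd.dQ (zz κ x)).comp_of_eq (0 : ℝ) hZ (by rw [e0])
  have hψd : HasFDerivAt ψ (fderiv ℝ ψ (XX κ x)) (XX κ x) :=
    (hd.smoothψ.differentiable (by norm_num)).differentiableAt.hasFDerivAt
  have hψ : HasDerivAt (fun t : ℝ => ψ (XX κ (x + t • v)))
      (fderiv ℝ ψ (XX κ x) (fderiv ℝ (XX κ) x v)) 0 :=
    hψd.comp_hasDerivAt_of_eq (0 : ℝ) hX (by rw [e0])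
  have hψd2 : HasFDerivAt (fderiv ℝ ψ) (fderiv ℝ (fderiv ℝ ψ) (XX κ x)) (XX κ x) :=
    ((r3_smooth_fderiv hd.smoothψ).differentiable (by norm_num)).differentiableAt.hasFDerivAt
  have hψ2 : HasDerivAt (fun t : ℝ => fderiv ℝ ψ (XX κ (x + t • v)))
      (fderiv ℝ (fderiv ℝ ψ) (XX κ x) (fderiv ℝ (XX κ) x v)) 0 :=
    hψd2.comp_hasDerivAt_of_eq (0 : ℝ) hX (by rw [e0])
  have hψ3 := hψ2.clm_apply hX'
  have hsum := hR.add (((hμ₁.sub (hψ.mul hQ₁)).mul hZ').sub (hQ.mul hψ3))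
  have huniq := hL.unique (hsum.congr_of_eventuallyEq (Filter.Eventually.of_forall (fun t => by
    show fderiv ℝ (LL κ μ Q ψ) (x + t • v) v = _
    rw [fderiv_LL hκ hd]
    simp only [Pi.add_apply, Pi.sub_apply, Pi.mul_apply, lamD])))
  rw [huniq]
  simp only [e0, lamH, Pi.sub_apply, Pi.mul_apply]
  ring

private theorem r3_grad (f : E n → ℝ) (x u : E n) : fderiv ℝ f x u = ⟪gradient f x, u⟫ := by
  rw [gradient, InnerProductSpace.toDual_symm_apply]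

/-- second derivative of `LL`, with the geodesic equations of the round metric -/
private theorem r3_D2' (hκ : 0 < κ) (hd : Dat μ μ₁ μ₂ Q Q₁ Q₂ ψ) (x v : E n) :
    fderiv ℝ (fderiv ℝ (LL κ μ Q ψ)) x v v = fderiv ℝ (fderiv ℝ (LR κ)) x v v +
      lamH κ μ₂ Q Q₁ Q₂ ψ x v -
      (Real.exp (2 * LR κ x) * ‖v‖ ^ 2) * lamR κ μ₁ Q Q₁ ψ x -
      lamD κ μ₁ Q Q₁ ψ x (gacc (LR κ) x v) := by
  rw [r3_D2 hκ hd]
  have h1 := round_geo_z hκ x v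
  have h2 := round_geo_X hκ x v
  have h1' : fderiv ℝ (fderiv ℝ (zz κ)) x v v =
      -(Real.exp (2 * LR κ x) * ‖v‖ ^ 2) * zz κ x - fderiv ℝ (zz κ) x (gacc (LR κ) x v) := by
    linarith
  have h2' : fderiv ℝ (fderiv ℝ (XX κ)) x v v =
      -(Real.exp (2 * LR κ x) * ‖v‖ ^ 2) • XX κ x - fderiv ℝ (XX κ) x (gacc (LR κ) x v) :=
    eq_sub_of_add_eq h2
  rw [h1', h2', map_sub, map_smul, smul_eq_mul]
  simp only [lamR, lamD]
  ring

private theorem r3_bessel {g v w : E n} (hv : v ≠ 0) (hw : ‖w‖ = ‖v‖) (hvw : ⟪v, w⟫ = 0) :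
    ⟪g, v⟫ ^ 2 + ⟪g, w⟫ ^ 2 ≤ ‖v‖ ^ 2 * ‖g‖ ^ 2 := by
  have hm : 0 < ‖v‖ ^ 2 := by
    have := norm_pos_iff.2 hv
    positivity
  set m := ‖v‖ ^ 2 with hmdef
  have h0 : 0 ≤ ‖m • g - ⟪g, v⟫ • v - ⟪g, w⟫ • w‖ ^ 2 := sq_nonneg _
  have hvv : ⟪v, v⟫ = m := real_inner_self_eq_norm_sq v
  have hww : ⟪w, w⟫ = m := by rw [real_inner_self_eq_norm_sq, hw]
  have hgg : ⟪g, g⟫ = ‖g‖ ^ 2 := real_inner_self_eq_norm_sq g
  have hwv : ⟪w, v⟫ = 0 := by rw [real_inner_comm, hvw]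
  rw [← real_inner_self_eq_norm_sq] at h0
  simp only [inner_sub_left, inner_sub_right, inner_smul_left, inner_smul_right, hvv, hww, hgg,
    hvw, hwv, real_inner_comm g v, real_inner_comm g w, RCLike.conj_to_real] at h0
  have h1 : 0 ≤ m * (m * ‖g‖ ^ 2 - ⟪g, v⟫ ^ 2 - ⟪g, w⟫ ^ 2) := by
    nlinarith
  have h2 := nonneg_of_mul_nonneg_right h1 hm
  linarith

/-- SN-R3: the sectional curvature of `e^{2 LL}|dx|²`. -/
theorem sec_le (hκ : 0 < κ) (hd : Dat μ μ₁ μ₂ Q Q₁ Q₂ ψ) (x v w : E n) (hv : v ≠ 0)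
    (hw : ‖w‖ = ‖v‖) (hvw : ⟪v, w⟫ = 0) (hu : Real.exp (2 * LL κ μ Q ψ x) * ‖v‖ ^ 2 = 1) :
    sec (LL κ μ Q ψ) x v w ≤ Real.exp (2 * LR κ x) * ‖v‖ ^ 2
      - (lamH κ μ₂ Q Q₁ Q₂ ψ x v + lamH κ μ₂ Q Q₁ Q₂ ψ x w)
      + 2 * (Real.exp (2 * LR κ x) * ‖v‖ ^ 2) * lamR κ μ₁ Q Q₁ ψ x := by
  have hvn : 0 < ‖v‖ := norm_pos_iff.2 hv
  have hm : 0 < ‖v‖ ^ 2 := by positivity
  have hw0 : w ≠ 0 := by
    rw [← norm_pos_iff, hw]
    exact hvn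
  have hwv : ⟪w, v⟫ = 0 := by rw [real_inner_comm, hvw]
  have hround := round_sec hκ x v w hv hw0 hvw
  have hv2 := r3_D2' hκ hd x v
  have hw2 := r3_D2' hκ hd x w
  have hlam : ∀ u, lamD κ μ₁ Q Q₁ ψ x u =
      ⟪gradient (LL κ μ Q ψ) x, u⟫ - ⟪gradient (LR κ) x, u⟫ := by
    intro u
    rw [← r3_grad, ← r3_grad, fderiv_LL hκ hd]
    ring
  have hexp : Real.exp (-(2 * LL κ μ Q ψ x)) = ‖v‖ ^ 2 := by
    rw [Real.exp_neg]
    field_simp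
    linarith
  have hexpR : Real.exp (-(2 * LR κ x)) = (Real.exp (2 * LR κ x))⁻¹ := Real.exp_neg _
  have he : 0 < Real.exp (2 * LR κ x) := Real.exp_pos _
  have hbes := r3_bessel (g := gradient (LL κ μ Q ψ) x - gradient (LR κ) x) hv hw hvw
  rw [hlam] at hv2 hw2
  simp only [gacc, r3_grad, inner_add_right, inner_smul_right, hw] at hv2 hw2
  simp only [sec, r3_grad, hw, hexpR] at hround
  simp only [sec, r3_grad, hw, hexp]
  rw [← real_inner_self_eq_norm_sq (gradient (LR κ) x)] at hround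
  rw [← real_inner_self_eq_norm_sq (gradient (LL κ μ Q ψ) x)]
  rw [← real_inner_self_eq_norm_sq (gradient (LL κ μ Q ψ) x - gradient (LR κ) x)] at hbes
  simp only [inner_sub_left, inner_sub_right] at hbes
  rw [real_inner_comm (gradient (LL κ μ Q ψ) x) (gradient (LR κ) x)] at hbes
  generalize fderiv ℝ (fderiv ℝ (LL κ μ Q ψ)) x v v = A1 at *
  generalize fderiv ℝ (fderiv ℝ (LL κ μ Q ψ)) x w w = A2 at *
  generalize fderiv ℝ (fderiv ℝ (LR κ)) x v v = B1 at *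
  generalize fderiv ℝ (fderiv ℝ (LR κ)) x w w = B2 at *
  generalize lamH κ μ₂ Q Q₁ Q₂ ψ x v = H1 at *
  generalize lamH κ μ₂ Q Q₁ Q₂ ψ x w = H2 at *
  generalize lamR κ μ₁ Q Q₁ ψ x = R at *
  generalize Real.exp (2 * LR κ x) = e at *
  generalize hmm : ‖v‖ ^ 2 = m at *
  have key : B1 + B2 + m * ⟪gradient (LR κ) x, gradient (LR κ) x⟫ - ⟪gradient (LR κ) x, v⟫ ^ 2 -
      ⟪gradient (LR κ) x, w⟫ ^ 2 = -(e * m) := by
    field_simp at hround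
    linarith
  have goal' : -m * (A1 / m + A2 / m + ⟪gradient (LL κ μ Q ψ) x, gradient (LL κ μ Q ψ) x⟫ -
      ⟪gradient (LL κ μ Q ψ) x, v⟫ ^ 2 / m - ⟪gradient (LL κ μ Q ψ) x, w⟫ ^ 2 / m) =
      -(A1 + A2 + m * ⟪gradient (LL κ μ Q ψ) x, gradient (LL κ μ Q ψ) x⟫ -
      ⟪gradient (LL κ μ Q ψ) x, v⟫ ^ 2 - ⟪gradient (LL κ μ Q ψ) x, w⟫ ^ 2) := by
    field_simp
  rw [goal', hv2, hw2]
  nlinarith

/-- the sectional curvature depends only on the plane -/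
theorem sec_smul (L : E n → ℝ) (x v w : E n) (a : ℝ) (ha : a ≠ 0) :
    sec L x v (a • w) = sec L x v w := by
  have h1 : fderiv ℝ (fderiv ℝ L) x (a • w) (a • w) / ‖a • w‖ ^ 2 =
      fderiv ℝ (fderiv ℝ L) x w w / ‖w‖ ^ 2 := by
    rw [map_smul, map_smul, smul_apply, smul_eq_mul, smul_eq_mul, norm_smul,
      mul_pow, Real.norm_eq_abs, sq_abs, ← mul_assoc, ← sq,
      mul_div_mul_left _ _ (pow_ne_zero 2 ha)]
  have h2 : (fderiv ℝ L x (a • w)) ^ 2 / ‖a • w‖ ^ 2 = (fderiv ℝ L x w) ^ 2 / ‖w‖ ^ 2 := by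
    rw [map_smul, smul_eq_mul, norm_smul, mul_pow, mul_pow, Real.norm_eq_abs, sq_abs,
      mul_div_mul_left _ _ (pow_ne_zero 2 ha)]
  simp only [sec, h1, h2]

end SN
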